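import Pool.Agent.P.MP_c7f95f_an.Radial

/-!
Step 2b: integration by parts against continuous functions whose truncated operators converge
pointwise to a bounded limit.
-/

namespace Pool.Agent.P.MP_c7f95f_an

open MeasureTheory Set Filter Topology Metric

variable {E : Type*} [NormedAddCommGroup E] [InnerProductSpace ℝ E] [FiniteDimensional ℝ E]
  [MeasurableSpace E] [BorelSpace E]

theorem integral_S_zero {p : ℝ} (hp : Expo E p) {ψ : E → ℝ} (hψ : Nice ψ) :
    ∫ x, S p 0 ψ x = 0 := by
  have h1 := tendsto_integral_mul_S hp (f := fun _ => (1 : ℝ)) measurable_const (B := 1)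
    (fun _ => by simp) hψ
  have h2 : ∀ᶠ t in 𝓝[>] (0 : ℝ), (0 : ℝ) = ∫ x, (1 : ℝ) * S p t ψ x := by
    filter_upwards [self_mem_nhdsWithin] with t ht
    rw [← integral_mul_S hp ht (f := fun _ => (1 : ℝ)) measurable_const (B := 1)
      (fun _ => by simp) hψ]
    simp [S, sd]
  simpa using tendsto_nhds_unique h1 (tendsto_const_nhds.congr' h2)

omit [InnerProductSpace ℝ E] [FiniteDimensional ℝ E] in
theorem measurable_wt_uncurry (p : ℝ) : Measurable (fun q : E × ℝ => wt p q.2 q.1) := by
  unfold wt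
  exact Measurable.ite (measurableSet_lt measurable_snd (measurable_norm.comp measurable_fst))
    ((measurable_ker p).comp measurable_fst) measurable_const

theorem setIntegral_ite_lt (f : ℝ → ℝ) (ρ : ℝ) :
    ∫ t in Ioi 0, (if t < ρ then f t else 0) = ∫ t in Ioo 0 ρ, f t := by
  rw [← Ioi_inter_Iio, ← setIntegral_indicator measurableSet_Iio]
  rfl

/-- The pairing with `S bump` is an average of the truncated operators. -/
theorem exists_average {p : ℝ} (hp : Expo E p) :
    ∃ θ' : ℝ → ℝ, Measurable θ' ∧ IntegrableOn θ' (Ioi 0) ∧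
      (∫ t in Ioi 0, θ' t = ∫ w : E, bump w) ∧
      ∀ (Φ : E → ℝ) (B : ℝ), Measurable Φ → (∀ x, |Φ x| ≤ B) →
        ∫ w, Φ w * S p 0 bump w = ∫ t in Ioi 0, θ' t * S p t Φ 0 := by
  obtain ⟨θ, θ', C, hC, hder, hθ0, hm, hb, hint, hI, hβ⟩ := exists_profile hp
  refine ⟨θ', hm, hint, hI, fun Φ B hΦ hB => ?_⟩
  have hB0 : 0 ≤ B := (abs_nonneg _).trans (hB 0)
  have hβi := (nice_bump (E := E)).integrable_S hp 0
  have hi : ∀ (Ψ : E → ℝ), Measurable Ψ → (∀ x, |Ψ x| ≤ B) →
      Integrable (fun w => Ψ w * S p 0 bump w) := fun Ψ hΨ hΨB =>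
    hβi.bdd_mul (c := B) hΨ.aestronglyMeasurable (Eventually.of_forall hΨB)
  have e1 : ∫ w, Φ (-w) * S p 0 bump w = ∫ w, Φ w * S p 0 bump w := by
    rw [← integral_neg_eq_self]
    congr 1; ext w
    rw [neg_neg, S_bump_radial p (norm_neg w)]
  have e2 : ∫ w, sd Φ 0 w * S p 0 bump w = -2 * ∫ w, Φ w * S p 0 bump w := by
    have := integral_four (hβi.const_mul (Φ 0)) (hβi.const_mul (Φ 0)) (hi Φ hΦ hB)
      (hi (fun w => Φ (-w)) (hΦ.comp measurable_neg) fun w => hB _)
    rw [integral_const_mul, integral_S_zero hp nice_bump, e1] at this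
    rw [show (-2 : ℝ) * ∫ w, Φ w * S p 0 bump w = Φ 0 * 0 + Φ 0 * 0 - (∫ w, Φ w * S p 0 bump w)
      - ∫ w, Φ w * S p 0 bump w by ring, ← this]
    congr 1; ext w
    simp only [sd, zero_add, zero_sub]; ring
  have hθ : ∀ ρ, 0 ≤ ρ → ∫ t in Ioi 0, (if t < ρ then θ' t else 0) = θ ρ := fun ρ hρ => by
    rw [setIntegral_ite_lt, ← integral_Ioc_eq_integral_Ioo, ← intervalIntegral.integral_of_le hρ,
      intervalIntegral.integral_eq_sub_of_hasDerivAt (fun x _ => hder x)
        ((intervalIntegrable_iff_integrableOn_Ioc_of_le hρ).mpr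
          (hint.mono_set Ioc_subset_Ioi_self)), hθ0, sub_zero]
  have hform : ∀ (w : E) (t : ℝ), θ' t * (sd Φ 0 w * wt p t w) =
      sd Φ 0 w * ker p w * (if t < ‖w‖ then θ' t else 0) := fun w t => by
    unfold wt; split_ifs <;> ring
  have e3 : ∀ w : E, -(1 / 2) * (sd Φ 0 w * S p 0 bump w) =
      ∫ t in Ioi 0, θ' t * (sd Φ 0 w * wt p t w) := fun w => by
    simp only [hform, integral_const_mul]
    rw [hθ _ (norm_nonneg w)]
    rcases eq_or_ne w 0 with rfl | hw
    · simp [sd]
    · rw [hβ w hw]; ring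
  have hmeas : Measurable (fun q : E × ℝ => θ' q.2 * (sd Φ 0 q.1 * wt p q.2 q.1)) :=
    (hm.comp measurable_snd).mul
      (((measurable_sd_right hΦ 0).comp measurable_fst).mul (measurable_wt_uncurry p))
  have hite : ∀ ρ : ℝ, IntegrableOn (fun t => if t < ρ then θ' t else 0) (Ioi 0) := fun ρ =>
    Integrable.indicator (s := Iio ρ) hint measurableSet_Iio
  set I := ∫ t in Ioi 0, |θ' t| with hIdef
  have hI0 : 0 ≤ I := integral_nonneg fun t => abs_nonneg _
  have hprod : Integrable (fun q : E × ℝ => θ' q.2 * (sd Φ 0 q.1 * wt p q.2 q.1))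
      (volume.prod (volume.restrict (Ioi 0))) := by
    rw [integrable_prod_iff hmeas.aestronglyMeasurable]
    constructor
    · refine Eventually.of_forall fun w => ?_
      simp only [hform]
      exact (hite _).const_mul _
    · refine ((integrable_cut_ker hp).const_mul (4 * B * (I + C))).mono'
        (hmeas.norm.stronglyMeasurable.integral_prod_right'.aestronglyMeasurable)
        (Eventually.of_forall fun w => ?_)
      rw [Real.norm_of_nonneg (integral_nonneg fun t => norm_nonneg _)]
      simp only [hform, norm_mul, integral_const_mul, Real.norm_eq_abs]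
      have h1 : ∫ t in Ioi 0, |if t < ‖w‖ then θ' t else 0| ≤ (I + C) * cut w := by
        refine le_mul_cut ?_ ?_ hI0 hC
        · refine integral_mono (hite _).abs hint.abs fun t => ?_
          simp only
          split_ifs <;> simp
        · have : ∀ t, |if t < ‖w‖ then θ' t else 0| = if t < ‖w‖ then |θ' t| else 0 := fun t => by
            split_ifs <;> simp
          simp only [this]
          rw [setIntegral_ite_lt]
          refine (le_abs_self _).trans ?_
          rw [← Real.norm_eq_abs]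
          refine (norm_setIntegral_le_of_norm_le_const (C := C * ‖w‖) (by simp) fun t ht => ?_).trans
            ?_
          · rw [Real.norm_eq_abs, abs_abs]
            exact (hb t ht.1).trans (mul_le_mul_of_nonneg_left ht.2.le hC)
          · simp only [Real.volume_real_Ioo, sub_zero, max_eq_left (norm_nonneg w)]
            rw [sq, mul_assoc]
      rw [abs_of_nonneg (ker_nonneg p w)]
      calc _ ≤ 4 * B * ker p w * ((I + C) * cut w) := by
            gcongr
            · exact mul_nonneg (by positivity) (ker_nonneg _ _)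
            · exact ker_nonneg _ _
            · exact abs_sd_le hB 0 w
        _ = _ := by ring
  calc ∫ w, Φ w * S p 0 bump w = ∫ w, -(1 / 2) * (sd Φ 0 w * S p 0 bump w) := by
        rw [integral_const_mul, e2]; ring
    _ = ∫ w, ∫ t in Ioi 0, θ' t * (sd Φ 0 w * wt p t w) := by simp only [e3]
    _ = ∫ t in Ioi 0, ∫ w, θ' t * (sd Φ 0 w * wt p t w) :=
        integral_integral_swap (f := fun w t => θ' t * (sd Φ 0 w * wt p t w)) hprod
    _ = _ := by simp only [integral_const_mul, S]

theorem S_scale (p t : ℝ) {ε : ℝ} (hε : 0 < ε) (F : E → ℝ) (x w : E) :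
    S p t (fun z => F (x + ε • z)) w =
      ε ^ p * (ε ^ Module.finrank ℝ E)⁻¹ * S p (ε * t) F (x + ε • w) := by
  have h1 := Measure.integral_comp_smul_of_nonneg (volume : Measure E)
    (fun h => sd F (x + ε • w) h * wt p (ε * t) h) ε (hR := hε.le)
  rw [smul_eq_mul] at h1
  unfold S
  rw [mul_assoc, ← h1, ← integral_const_mul]
  congr 1; ext h
  rw [wt_smul p t hε h]
  simp only [sd, smul_add, smul_sub, add_assoc, add_sub_assoc]
  ring

theorem exists_bound_of_tendsto {p : ℝ} (hp : Expo E p) {F : E → ℝ}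
    {B : ℝ} (hB : ∀ x, |F x| ≤ B) {x : E} {G : ℝ}
    (hG : Tendsto (fun t => S p t F x) (𝓝[>] 0) (𝓝 G)) : ∃ M, ∀ t, 0 < t → |S p t F x| ≤ M := by
  have hB0 : 0 ≤ B := (abs_nonneg _).trans (hB 0)
  have h1 : ∀ᶠ t in 𝓝[>] (0 : ℝ), |S p t F x| < |G| + 1 :=
    hG.abs.eventually (gt_mem_nhds (by linarith))
  obtain ⟨δ, hδ, h2⟩ := (nhdsGT_basis (0 : ℝ)).eventually_iff.mp h1
  refine ⟨max (|G| + 1) (4 * B * ∫ h : E, wt p δ h), fun t ht => ?_⟩
  rcases lt_or_ge t δ with h | h
  · exact (h2 ⟨ht, h⟩).le.trans (le_max_left _ _)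
  · refine ((abs_S_le hp ht hB x).trans ?_).trans (le_max_right _ _)
    refine mul_le_mul_of_nonneg_left (integral_mono (integrable_wt hp ht) (integrable_wt hp hδ)
      fun k => ?_) (by positivity)
    unfold wt
    split_ifs with h3 h4
    · exact le_rfl
    · exact absurd (h.trans_lt h3) h4
    · exact ker_nonneg _ _
    · exact le_rfl

/-- The mollified operator. -/
noncomputable def A (p ε : ℝ) (F : E → ℝ) (x : E) : ℝ :=
  (ε ^ p * (ε ^ Module.finrank ℝ E)⁻¹)⁻¹ * ∫ w, F (x + ε • w) * S p 0 bump w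

theorem tendsto_A {p : ℝ} (hp : Expo E p) {F : E → ℝ} (hF : Measurable F)
    {B : ℝ} (hB : ∀ x, |F x| ≤ B) {x : E} {G : ℝ}
    (hG : Tendsto (fun t => S p t F x) (𝓝[>] 0) (𝓝 G)) :
    Tendsto (fun ε => A p ε F x) (𝓝[>] 0) (𝓝 ((∫ w : E, bump w) * G)) := by
  obtain ⟨θ', hm, hint, hI, hav⟩ := exists_average hp
  obtain ⟨M, hM⟩ := exists_bound_of_tendsto hp hB hG
  have hmeas : Measurable (fun t => S p t F x) :=
    (StronglyMeasurable.integral_prod_left' (μ := (volume : Measure E))
      (f := fun q : E × ℝ => sd F x q.1 * wt p q.2 q.1)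
      (((measurable_sd_right hF x).comp measurable_fst).mul
        (measurable_wt_uncurry p)).stronglyMeasurable).measurable
  have h1 : Tendsto (fun ε => ∫ t in Ioi 0, θ' t * S p (ε * t) F x) (𝓝[>] 0)
      (𝓝 (∫ t in Ioi 0, θ' t * G)) := by
    refine tendsto_integral_filter_of_dominated_convergence (fun t => ‖θ' t‖ * M)
      (Eventually.of_forall fun ε =>
        (hm.mul (hmeas.comp (measurable_const.mul measurable_id))).aestronglyMeasurable) ?_
      (hint.norm.mul_const M) ?_
    · filter_upwards [self_mem_nhdsWithin] with ε hε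
      rw [ae_restrict_iff' measurableSet_Ioi]
      refine Eventually.of_forall fun t ht => ?_
      rw [norm_mul]
      exact mul_le_mul_of_nonneg_left (hM _ (mul_pos hε ht)) (norm_nonneg _)
    · rw [ae_restrict_iff' measurableSet_Ioi]
      refine Eventually.of_forall fun t ht => (hG.comp ?_).const_mul _
      refine tendsto_nhdsWithin_iff.mpr ⟨?_, ?_⟩
      · have : Tendsto (fun ε : ℝ => ε * t) (𝓝 0) (𝓝 (0 * t)) := tendsto_id.mul_const t
        rw [zero_mul] at this
        exact this.mono_left nhdsWithin_le_nhds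
      · filter_upwards [self_mem_nhdsWithin] with ε hε
        exact mul_pos (show 0 < ε from hε) (show 0 < t from ht)
  rw [integral_mul_const, hI] at h1
  refine h1.congr' ?_
  filter_upwards [self_mem_nhdsWithin] with ε hε
  have hε' : 0 < ε := hε
  have h0 : ε ^ p * (ε ^ Module.finrank ℝ E)⁻¹ ≠ 0 := by positivity
  rw [A, hav (fun z => F (x + ε • z)) B (by fun_prop) fun z => hB _, ← integral_const_mul]
  congr 1; ext t
  rw [S_scale p t hε', smul_zero, add_zero]
  field_simp

theorem abs_A_le {p : ℝ} (hp : Expo E p) {φ : E → ℝ} (hφ : Continuous φ) {B : ℝ}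
    (hB : ∀ x, |φ x| ≤ B) {Ω : Set E} (hΩ : IsOpen Ω) {C : ℝ}
    (hG : ∀ x ∈ Ω, ∃ G, |G| ≤ C ∧ Tendsto (fun t => S p t φ x) (𝓝[>] 0) (𝓝 G))
    {ε : ℝ} (hε : 0 < ε) {x : E} (hx : closedBall x ε ⊆ Ω) :
    |A p ε φ x| ≤ C * ∫ w : E, bump w := by
  set σ := ε ^ p * (ε ^ Module.finrank ℝ E)⁻¹ with hσ
  have hσ0 : 0 < σ := by positivity
  have key := step1_abs hp (φ := fun z => φ (x + ε • z)) (ψ := bump) (by fun_prop) (B := B)
    (fun z => hB _) (Ω := (fun z => x + ε • z) ⁻¹' Ω) (hΩ.preimage (by fun_prop)) nice_bump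
    bump_nonneg (C := σ * C) (fun w hw => hx (by
      have h1 : ‖w‖ ≤ 1 := by simpa using tsupport_bump hw
      rw [mem_closedBall, dist_eq_norm, add_sub_cancel_left, norm_smul, Real.norm_of_nonneg hε.le]
      exact mul_le_of_le_one_right hε.le h1)) (fun w hw => by
      obtain ⟨G, hGC, hG⟩ := hG _ hw
      refine ⟨σ * G, by rw [abs_mul, abs_of_pos hσ0]; gcongr, ?_⟩
      simp only [S_scale p _ hε]
      refine (hG.comp ?_).const_mul _
      refine tendsto_nhdsWithin_iff.mpr ⟨?_, ?_⟩
      · have : Tendsto (fun t : ℝ => ε * t) (𝓝 0) (𝓝 (ε * 0)) := tendsto_id.const_mul ε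
        rw [mul_zero] at this
        exact this.mono_left nhdsWithin_le_nhds
      · filter_upwards [self_mem_nhdsWithin] with t ht
        exact mul_pos hε ht)
  rw [A, abs_mul, abs_of_pos (inv_pos.mpr hσ0), inv_mul_le_iff₀ hσ0, ← mul_assoc]
  exact key

/-- Integration by parts against a continuous bounded function whose truncated operators converge
at every point of `Ω` to a bounded limit. -/
theorem integral_by_parts {p : ℝ} (hp : Expo E p) {φ u G : E → ℝ} (hφ : Continuous φ) {B : ℝ}
    (hB : ∀ x, |φ x| ≤ B) {Ω : Set E} (hΩ : IsOpen Ω) {C : ℝ}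
    (hG : ∀ x ∈ Ω, |G x| ≤ C ∧ Tendsto (fun t => S p t φ x) (𝓝[>] 0) (𝓝 (G x)))
    (hu : Nice u) (huΩ : tsupport u ⊆ Ω) :
    ∫ x, u x * G x = ∫ x, φ x * S p 0 u x := by
  have hB0 : 0 ≤ B := (abs_nonneg _).trans (hB 0)
  have hβi := (nice_bump (E := E)).integrable_S hp 0
  have hui := hu.integrable
  set F : E → ℝ := fun v => ∫ x, u x * φ (x + v) with hF
  have hFm : Measurable F :=
    (StronglyMeasurable.integral_prod_left' (μ := (volume : Measure E))
      (f := fun q : E × E => u q.1 * φ (q.1 + q.2))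
      (Continuous.stronglyMeasurable (by have := hu.cont; fun_prop))).measurable
  have hFB : ∀ v, |F v| ≤ ∫ x, ‖u x‖ * B := fun v => by
    rw [← Real.norm_eq_abs]
    refine norm_integral_le_of_norm_le (hui.norm.mul_const B) (Eventually.of_forall fun x => ?_)
    rw [norm_mul]
    exact mul_le_mul_of_nonneg_left (hB _) (norm_nonneg _)
  have i0 : ∀ k : E, Integrable (fun x => u x * φ (x + k)) := fun k =>
    hui.mul_bdd (c := B) (Continuous.aestronglyMeasurable (by fun_prop))
      (Eventually.of_forall fun x => hB _)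
  have hSF : ∀ t, 0 < t → S p t F 0 = ∫ x, φ x * S p t u x := fun t ht => by
    rw [← integral_mul_S hp ht hφ.measurable hB hu]
    have h1 := integrable_prod_mul_sd hφ.measurable hB hui (integrable_wt hp ht)
    simp only [S, ← integral_const_mul]
    rw [integral_integral_swap (f := fun x h => u x * (sd φ x h * wt p t h)) h1]
    congr 1; ext h
    simp only [← mul_assoc, integral_mul_const]
    congr 1
    simp only [sd, hF, zero_add, zero_sub]
    rw [← integral_four (i0 0) (i0 0) (i0 h) (i0 (-h))]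
    congr 1; ext x
    simp only [add_zero, sub_eq_add_neg]; ring
  have hlimF : Tendsto (fun t => S p t F 0) (𝓝[>] 0) (𝓝 (∫ x, φ x * S p 0 u x)) := by
    refine (tendsto_integral_mul_S hp hφ.measurable hB hu).congr' ?_
    filter_upwards [self_mem_nhdsWithin] with t ht
    exact (hSF t ht).symm
  have h1 := tendsto_A hp hFm hFB hlimF
  have hAF : ∀ ε, A p ε F 0 = ∫ x, u x * A p ε φ x := fun ε => by
    have hpi : Integrable (fun q : E × E => u q.1 * (φ (q.1 + ε • q.2) * S p 0 bump q.2))
        (volume.prod volume) := by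
      have := (hui.mul_prod hβi).mul_bdd (c := B) (g := fun q : E × E => φ (q.1 + ε • q.2))
        (Continuous.aestronglyMeasurable (by fun_prop)) (Eventually.of_forall fun q => hB _)
      refine this.congr (Eventually.of_forall fun q => ?_)
      simp only; ring
    simp only [A, mul_left_comm (u _), integral_const_mul]
    congr 1
    simp only [← integral_const_mul]
    rw [integral_integral_swap (f := fun x w => u x * (φ (x + ε • w) * S p 0 bump w)) hpi]
    congr 1; ext w
    simp only [← mul_assoc, integral_mul_const, hF, zero_add]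
  obtain ⟨δ, hδ, hδΩ⟩ := hu.supp.isCompact.exists_cthickening_subset_open hΩ huΩ
  have hAm : ∀ ε, Measurable (A p ε φ) := fun ε =>
    measurable_const.mul (StronglyMeasurable.integral_prod_right' (ν := (volume : Measure E))
      (f := fun q : E × E => φ (q.1 + ε • q.2) * S p 0 bump q.2)
      ((Continuous.measurable (by fun_prop)).mul
        ((measurable_S p 0 nice_bump.cont.measurable).comp measurable_snd)).stronglyMeasurable).measurable
  have h2 : Tendsto (fun ε => ∫ x, u x * A p ε φ x) (𝓝[>] 0)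
      (𝓝 (∫ x, u x * ((∫ w : E, bump w) * G x))) := by
    refine tendsto_integral_filter_of_dominated_convergence
      (fun x => ‖u x‖ * (C * ∫ w : E, bump w))
      (Eventually.of_forall fun ε => (hu.cont.measurable.mul (hAm ε)).aestronglyMeasurable) ?_
      (hui.norm.mul_const _) (Eventually.of_forall fun x => ?_)
    · filter_upwards [self_mem_nhdsWithin, nhdsWithin_le_nhds (ge_mem_nhds hδ)] with ε hε hεδ
      refine Eventually.of_forall fun x => ?_
      by_cases hx : x ∈ tsupport u
      · rw [norm_mul]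
        refine mul_le_mul_of_nonneg_left (abs_A_le hp hφ hB hΩ
          (fun z hz => ⟨G z, hG z hz⟩) hε fun z hz => hδΩ ?_) (norm_nonneg _)
        exact mem_cthickening_of_dist_le _ x _ _ hx ((mem_closedBall.mp hz).trans hεδ)
      · simp [image_eq_zero_of_notMem_tsupport hx]
    · by_cases hx : x ∈ tsupport u
      · exact (tendsto_A hp hφ.measurable hB (hG x (huΩ hx)).2).const_mul _
      · simp [image_eq_zero_of_notMem_tsupport hx]
  simp only [hAF] at h1
  have h3 := tendsto_nhds_unique h2 h1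
  simp only [mul_left_comm (u _), integral_const_mul] at h3
  exact mul_left_cancel₀ integral_bump_pos.ne' h3

end Pool.Agent.P.MP_c7f95f_an
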