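import Pool.Agent.P.MP_c7f95f_an.CMMain
import Pool.Agent.P.MP_c7f95f_an.T.Base

/-!
Constant coefficient case: the linear relation with a bounded nonpositive zero order coefficient.
-/

namespace Pool.Agent.P.MP_c7f95f_an

open MeasureTheory Set Filter Topology Metric

variable {E : Type*} [NormedAddCommGroup E] [InnerProductSpace ℝ E] [FiniteDimensional ℝ E]
  [MeasurableSpace E] [BorelSpace E]

namespace CM

theorem abs_rpow_sub_le {a b s : ℝ} (ha : 0 < a) (hb : 0 ≤ b) (hs0 : 0 ≤ s) (hs1 : s ≤ 1) :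
    |a ^ s - b ^ s| ≤ a ^ (s - 1) * |a - b| := by
  have ht : 0 ≤ b / a := div_nonneg hb ha.le
  have h1 : |1 - (b / a) ^ s| ≤ |1 - b / a| := by
    rcases le_total (b / a) 1 with h | h
    · rw [abs_of_nonneg (sub_nonneg.mpr (Real.rpow_le_one ht h hs0)),
        abs_of_nonneg (sub_nonneg.mpr h)]
      linarith [Real.self_le_rpow_of_le_one ht h hs1]
    · rw [abs_of_nonpos (sub_nonpos.mpr (Real.one_le_rpow h hs0)), abs_of_nonpos (sub_nonpos.mpr h)]
      linarith [Real.rpow_le_self_of_one_le h hs1]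
  have has : 0 < a ^ s := Real.rpow_pos_of_pos ha s
  have e1 : a ^ s - b ^ s = a ^ s * (1 - (b / a) ^ s) := by
    rw [Real.div_rpow hb ha.le]; field_simp
  have e2 : a - b = a * (1 - b / a) := by field_simp
  rw [e1, e2, abs_mul, abs_mul, abs_of_pos has, abs_of_pos ha, Real.rpow_sub_one ha.ne',
    ← mul_assoc, div_mul_cancel₀ _ ha.ne']
  exact mul_le_mul_of_nonneg_left h1 has.le

omit [InnerProductSpace ℝ E] [FiniteDimensional ℝ E] in
theorem tors_w0 {s : ℝ} (hs0 : 0 < s) (hs1 : s < 1) : Tors (w0 s : E → ℝ) := by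
  have hle : ∀ x : E, max (1 - ‖x‖ ^ 2) 0 ≤ 1 := fun x =>
    max_le (by linarith [sq_nonneg ‖x‖]) zero_le_one
  have h0 : ∀ x : E, 0 ≤ w0 s x := fun x => Real.rpow_nonneg (le_max_right _ _) _
  have h1 : ∀ x : E, w0 s x ≤ 1 := fun x => Real.rpow_le_one (le_max_right _ _) (hle x) hs0.le
  have hlow : ∀ x : E, ‖x‖ ≤ 1 → 1 - ‖x‖ ≤ max (1 - ‖x‖ ^ 2) 0 := fun x hx =>
    le_max_of_le_left (by nlinarith [norm_nonneg x])
  refine ⟨?_, h0, h1, fun x y h => ?_, fun d hd => ?_, fun L => ?_, fun x hx => ?_⟩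
  · exact (((continuous_const.sub (continuous_norm.pow 2)).max continuous_const).rpow_const
      fun _ => Or.inr hs0.le).measurable
  · refine Real.rpow_le_rpow (le_max_right _ _) (max_le_max ?_ le_rfl) hs0.le
    nlinarith [norm_nonneg x]
  · refine ⟨1 + (d ^ (s - 1) * 2) ^ 2, fun x hx k => le_mul_cut ?_ ?_ zero_le_one (by positivity)⟩
    · nlinarith [h0 x, h1 x, h0 (x + k), h1 (x + k)]
    · have hx1 : ‖x‖ ≤ 1 := by linarith
      have ha : d ≤ max (1 - ‖x‖ ^ 2) 0 := by linarith [hlow x hx1]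
      have hn := abs_le.mp (abs_norm_sub_norm_le (x + k) x)
      rw [add_sub_cancel_left] at hn
      have hab : |max (1 - ‖x‖ ^ 2) 0 - max (1 - ‖x + k‖ ^ 2) 0| ≤ 2 * ‖k‖ := by
        rw [max_eq_left (by nlinarith [norm_nonneg x] : 0 ≤ 1 - ‖x‖ ^ 2)]
        rcases le_total ‖x + k‖ 1 with h | h
        · rw [max_eq_left (by nlinarith [norm_nonneg (x + k)]), abs_le]
          constructor <;> nlinarith [norm_nonneg x, norm_nonneg (x + k), norm_nonneg k]
        · rw [max_eq_right (by nlinarith), sub_zero, abs_of_nonneg (by nlinarith [norm_nonneg x])]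
          nlinarith [norm_nonneg x]
      have h2 := abs_rpow_sub_le (hd.trans_le ha) (le_max_right (1 - ‖x + k‖ ^ 2) 0) hs0.le hs1.le
      have h3 : |w0 s x - w0 s (x + k)| ≤ d ^ (s - 1) * 2 * ‖k‖ := by
        refine h2.trans ?_
        rw [mul_assoc]
        exact mul_le_mul (Real.rpow_le_rpow_of_nonpos hd ha (by linarith)) hab (abs_nonneg _)
          (by positivity)
      rw [← mul_pow]
      exact sq_le_sq' (abs_le.mp h3).1 (abs_le.mp h3).2
  · have hK : 0 < max L 1 := lt_max_of_lt_right one_pos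
    refine ⟨(max L 1)⁻¹ ^ (1 - s)⁻¹, by positivity, fun x hx hx1 => ?_⟩
    have hu : 0 < 1 - ‖x‖ := by linarith
    have h2 : (1 - ‖x‖) ^ (1 - s) ≤ (max L 1)⁻¹ := by
      rw [← Real.rpow_inv_rpow (inv_nonneg.mpr hK.le) (show 1 - s ≠ 0 by linarith)]
      exact Real.rpow_le_rpow hu.le (by linarith) (by linarith)
    have h3 : (1 - ‖x‖) ^ s ≤ w0 s x := Real.rpow_le_rpow hu.le (hlow x hx1.le) hs0.le
    have h4 : 1 - ‖x‖ = (1 - ‖x‖) ^ (1 - s) * (1 - ‖x‖) ^ s := by
      rw [← Real.rpow_add hu, sub_add_cancel, Real.rpow_one]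
    calc L * (1 - ‖x‖) ≤ max L 1 * (1 - ‖x‖) := mul_le_mul_of_nonneg_right (le_max_left _ _) hu.le
      _ = max L 1 * (1 - ‖x‖) ^ (1 - s) * (1 - ‖x‖) ^ s := by rw [mul_assoc, ← h4]
      _ ≤ 1 * w0 s x := by
          refine mul_le_mul ?_ h3 (by positivity) zero_le_one
          exact (mul_le_mul_of_nonneg_left h2 hK.le).trans (mul_inv_cancel₀ hK.ne').le
      _ = _ := one_mul _
  · exact (hlow x hx).trans (Real.self_le_rpow_of_le_one (le_max_right _ _) (hle x) hs1.le)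

theorem measurable_Bw (p : ℝ) {f g : E → ℝ} (hf : Measurable f) (hg : Measurable g) :
    Measurable (Bw p f g) :=
  (StronglyMeasurable.integral_prod_right' (ν := volume)
    (f := fun q : E × E => (f q.1 - f (q.1 + q.2)) * (g q.1 - g (q.1 + q.2)) * wt p 0 q.2)
    (by fun_prop : Measurable _).stronglyMeasurable).measurable

theorem Bw_eq {p : ℝ} (hp : p ≠ 0) (f g : E → ℝ) (x : E) : Bw p f g x = Bil p f g x := by
  simp only [Bw, Bil, wt_zero hp]

end CM

theorem sign_analysis {p s k : ℝ} (hp : Expo E p) (hps : p = Module.finrank ℝ E + 2 * s)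
    (hs : 1 / 2 < s) (hk : 0 < k) :
    ∃ (P H c : E → ℝ) (e : ℝ), ContDiff ℝ 2 P ∧ tsupport P ⊆ ball 0 1 ∧ ContDiff ℝ 2 H ∧
      tsupport H ⊆ ball 0 1 ∧ 0 < e ∧ (∀ x, 0 ≤ H x) ∧ Measurable c ∧
      (∃ C, ∀ x, -C ≤ c x ∧ c x ≤ 0) ∧
      ∀ x ∈ ball (0 : E) 1, 1 / 2 * S p 0 H x + e * k - c x * (H x + e * w0 s x) =
        Bil p P H x + e * Bil p P (w0 s) x := by
  have hp0 : p ≠ 0 := by linarith [hp.two_lt]
  have hv : CM.Tors (w0 s : E → ℝ) := CM.tors_w0 (by linarith) (by linarith [hp.hi])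
  obtain ⟨w, ψ, ε, C, hw, hψ, hws, hψs, hψ0, hε, hG⟩ := CM.sign hp hv hk
  have hwm := hw.continuous.measurable
  have hψm := hψ.continuous.measurable
  have hden : ∀ x : E, ‖x‖ < 1 → 0 < w0 s x := fun x hx => by linarith [hv.low x hx.le]
  refine ⟨w, ψ, fun x => if ‖x‖ < 1 then
      -((CM.Bw p w ψ x - S p 0 ψ x / 2 + ε * (CM.Bw p w (w0 s) x - k)) / (ψ x + ε * w0 s x))
      else 0, ε, hw, (CM.tsupport_subset_of hws).trans (closedBall_subset_ball (by norm_num)), hψ,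
    (CM.tsupport_subset_of hψs).trans (closedBall_subset_ball (by norm_num)), hε, hψ0, ?_,
    ⟨|C| / ε, fun x => ?_⟩, fun x hx => ?_⟩
  · refine Measurable.ite (measurableSet_lt measurable_norm measurable_const) ?_ measurable_const
    exact ((((CM.measurable_Bw p hwm hψm).sub ((measurable_S p 0 hψm).div_const 2)).add
      (((CM.measurable_Bw p hwm hv.meas).sub_const k).const_mul ε)).div
      (hψm.add (hv.meas.const_mul ε))).neg
  · beta_reduce
    split_ifs with hx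
    · obtain ⟨h1, h2⟩ := hG x hx
      have h3 := hden x hx
      have h4 : 0 < ψ x + ε * w0 s x := by linarith [hψ0 x, mul_pos hε h3]
      refine ⟨neg_le_neg ?_, neg_nonpos.mpr (div_nonneg h1 h4.le)⟩
      rw [div_le_iff₀ h4]
      calc _ ≤ |C| * w0 s x := h2.trans (mul_le_mul_of_nonneg_right (le_abs_self C) h3.le)
        _ = |C| / ε * (ε * w0 s x) := by field_simp
        _ ≤ _ := mul_le_mul_of_nonneg_left (by linarith [hψ0 x]) (by positivity)
    · exact ⟨neg_nonpos.mpr (by positivity), le_rfl⟩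
  · have hx' : ‖x‖ < 1 := mem_ball_zero_iff.mp hx
    have h4 : 0 < ψ x + ε * w0 s x := by linarith [hψ0 x, mul_pos hε (hden x hx')]
    simp only [if_pos hx']
    rw [neg_mul, div_mul_cancel₀ _ h4.ne', CM.Bw_eq hp0, CM.Bw_eq hp0]
    ring

end Pool.Agent.P.MP_c7f95f_an
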