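import Pool.Agent.P.MP_c7f95f_an.CMSign

/-!
Constant coefficient case: choice of the parameters.
-/

namespace Pool.Agent.P.MP_c7f95f_an.CM

open MeasureTheory Set Filter Topology Metric Pool.Agent.P.MP_c7f95f_an

variable {E : Type*} [NormedAddCommGroup E] [InnerProductSpace ℝ E] [FiniteDimensional ℝ E]
  [MeasurableSpace E] [BorelSpace E]

theorem integrable_bp {r : ℝ} (hr : 0 < r) : Integrable (bp r : E → ℝ) :=
  (contDiff_bp r).continuous.integrable_of_hasCompactSupport
    (hasCompactSupport_of fun _ hz => bp_eq_zero hr hz.le)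

theorem integrable_mul_bdd {f g : E → ℝ} (hf : Integrable f) (hg : Measurable g) {B : ℝ}
    (hB : ∀ z, |g z| ≤ B) : Integrable (fun z => f z * g z) :=
  hf.mul_bdd (c := B) hg.aestronglyMeasurable (Eventually.of_forall hB)

theorem sign {p κ : ℝ} (hp : Expo E p) {v : E → ℝ} (hv : Tors v) (hκ : 0 < κ) :
    ∃ (w ψ : E → ℝ) (ε C : ℝ), ContDiff ℝ 2 w ∧ ContDiff ℝ 2 ψ ∧ (∀ z, 1 / 4 < ‖z‖ → w z = 0) ∧
      (∀ z, 1 / 4 < ‖z‖ → ψ z = 0) ∧ (∀ z, 0 ≤ ψ z) ∧ 0 < ε ∧ ∀ x, ‖x‖ < 1 →
        0 ≤ Bw p w ψ x - S p 0 ψ x / 2 + ε * (Bw p w v x - κ) ∧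
          Bw p w ψ x - S p 0 ψ x / 2 + ε * (Bw p w v x - κ) ≤ C * v x := by
  have hp0 : 0 < p := by linarith [hp.two_lt]
  have hn : Module.finrank ℝ E ≠ 0 := by have := hp.two; omega
  have : Nontrivial E := Module.nontrivial_of_finrank_pos (R := ℝ) (Nat.pos_of_ne_zero hn)
  set n := Module.finrank ℝ E
  obtain ⟨e₀, he₀⟩ := exists_norm_eq E zero_le_one
  have hva : ∀ z, |v z| ≤ 1 := fun z => by rw [abs_of_nonneg (hv.nonneg z)]; exact hv.le_one z
  have hvr : ∀ x y : E, ‖x‖ = ‖y‖ → v x = v y := fun x y h =>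
    le_antisymm (hv.mono _ _ h.ge) (hv.mono _ _ h.le)
  set I := ∫ z : E, bump z
  have hI : 0 < I := integral_bump_pos
  set J := ∫ k : E, cut k * ker p k
  have hJ : 0 ≤ J := integral_nonneg fun k => mul_nonneg (cut_nonneg _) (ker_nonneg _ _)
  -- the fixed bump
  set χ : E → ℝ := bp (1 / 4) with hχ
  have hχs : ∀ z, 1 / 4 < ‖z‖ → χ z = 0 := fun z hz => bp_eq_zero (by norm_num) hz.le
  have hχi : Integrable χ := integrable_bp (by norm_num)
  have hχ2 : ContDiff ℝ 2 χ := contDiff_bp _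
  have hχ0 : ∀ z, 0 ≤ χ z := bp_nonneg _
  have hχ1 : ∀ z, χ z ≤ 1 := bp_le_one _
  have hχm : Measurable χ := hχ2.continuous.measurable
  obtain ⟨Mχ, hMχ, hχb⟩ := exists_sq_bound hχ2 (hasCompactSupport_of hχs)
  set Iχ := ∫ z, χ z
  have hIχ : 0 < Iχ := by
    rw [show Iχ = (1 / 4) ^ n * I from integral_bp (by norm_num)]; positivity
  set c₀ := ((1 + 1 / 4 : ℝ) ^ p)⁻¹ * Iχ
  have hc₀ : 0 < c₀ := by positivity
  set L := p * (1 / 2 : ℝ) ^ (-p - 1)
  have hL : 0 < L := by positivity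
  have hχvi : Integrable (fun z => χ z * v z) := integrable_mul_bdd hχi hv.meas hva
  have hχvs : ∀ z, 1 / 4 < ‖z‖ → χ z * v z = 0 := fun z hz => by rw [hχs z hz, zero_mul]
  set A := ∫ z, |χ z * v z|
  obtain ⟨d₁, hd₁, hsteep⟩ := hv.steep (2 * (L * A) / c₀)
  set d := min d₁ (1 / 4)
  have hd : 0 < d := lt_min hd₁ (by norm_num)
  have hd4 : d ≤ 1 / 4 := min_le_right _ _
  obtain ⟨Mv, hMv⟩ := hv.lb d hd
  obtain ⟨P, hP, hcore⟩ := core hp
  have hP0 : 0 ≤ P := by linarith only [hP]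
  have he34 : 1 / 4 + 1 / 2 ≤ ‖e₀‖ := by rw [he₀]; norm_num
  have he34' : 3 / 4 ≤ ‖e₀‖ := by rw [he₀]; norm_num
  have h12 : (0 : ℝ) < 1 / 2 := by norm_num
  set T := ((1 / 2 : ℝ) ^ p)⁻¹
  have hT : 0 < T := by positivity
  set C₀ := 2 * (P * T * I) / c₀
  have hC₀ : 0 < C₀ := by positivity
  set C₁ := |(Mχ + Mv) / 2 * J| + Mχ * J + 1
  have hC₁d : C₁ = |(Mχ + Mv) / 2 * J| + Mχ * J + 1 := rfl
  have hC₁ : 1 ≤ C₁ := by
    linarith only [hC₁d, abs_nonneg ((Mχ + Mv) / 2 * J), mul_nonneg hMχ hJ]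
  set C₂ := T * ((P + 1) * I) * (2 / κ) * (κ + 1)
  have hC₂ : 0 < C₂ := by positivity
  obtain ⟨r, hr, hr4, hsa, hsb, hsc, hsd⟩ := exists_scale (a := C₀ + C₂) (b := P * T * I)
    (c := C₀ * C₁) hn hp0 hd (by linarith only [hd4]) hκ
  have hρ : 0 < r ^ n := pow_pos hr n
  set ρ := r ^ n
  set η := C₀ * ρ with hη
  have hη0 : 0 < η := by positivity
  have hη1 : η ≤ 1 / 2 := by linarith only [hη, hsa, mul_pos hC₂ hρ]
  -- the small bump
  set ψ : E → ℝ := bp r with hψ
  have hψr : ∀ z, r < ‖z‖ → ψ z = 0 := fun z hz => bp_eq_zero hr hz.le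
  have hψs : ∀ z, 1 / 4 < ‖z‖ → ψ z = 0 := fun z hz => hψr z (hr4.trans_lt hz)
  have hψi : Integrable ψ := integrable_bp hr
  have hψ2 : ContDiff ℝ 2 ψ := contDiff_bp _
  have hψ0 : ∀ z, 0 ≤ ψ z := bp_nonneg _
  have hψ1 : ∀ z, ψ z ≤ 1 := bp_le_one _
  have hψm : Measurable ψ := hψ2.continuous.measurable
  have hψn : Nice ψ := Nice.of_contDiff hψ2 (hasCompactSupport_of hψs)
  have hIψ : ∫ z, |ψ z| = ρ * I := by
    simp only [abs_of_nonneg (hψ0 _)]; exact integral_bp hr
  obtain ⟨Mψ, hMψ, hψb⟩ := exists_sq_bound hψ2 (hasCompactSupport_of hψs)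
  obtain ⟨MS, hMS⟩ := hψn.exists_bound_S hp
  have hψvi : Integrable (fun z => ψ z * v z) := integrable_mul_bdd hψi hv.meas hva
  have hψvs : ∀ z, 1 / 4 < ‖z‖ → ψ z * v z = 0 := fun z hz => by rw [hψs z hz, zero_mul]
  set w : E → ℝ := fun z => P * ψ z - η * χ z with hw
  have hws : ∀ z, 1 / 4 < ‖z‖ → w z = 0 := fun z hz => by simp only [hw, hψs z hz, hχs z hz]; ring
  have hw2 : ContDiff ℝ 2 w := (contDiff_const.mul hψ2).sub (contDiff_const.mul hχ2)
  have hwm : Measurable w := hw2.continuous.measurable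
  have hwi : Integrable w := (hψi.const_mul _).sub (hχi.const_mul _)
  have hwlo : ∀ z, -(1 / 2) ≤ w z := fun z => by
    simp only [hw]
    linarith only [mul_nonneg hP0 (hψ0 z), mul_le_mul_of_nonneg_left (hχ1 z) hη0.le, hη1]
  have hwhi : ∀ z, w z ≤ P := fun z => by
    simp only [hw]
    linarith only [mul_le_mul_of_nonneg_left (hψ1 z) hP0, mul_nonneg hη0.le (hχ0 z)]
  have hwa : ∀ z, |w z| ≤ P := fun z => abs_le.mpr ⟨by linarith only [hwlo z, hP], hwhi z⟩
  obtain ⟨Mw, hMw, hwb⟩ := exists_sq_bound hw2 (hasCompactSupport_of hws)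
  have hwvi : Integrable (fun z => w z * v z) := integrable_mul_bdd hwi hv.meas hva
  have hwvs : ∀ z, 1 / 4 < ‖z‖ → w z * v z = 0 := fun z hz => by rw [hws z hz, zero_mul]
  set q : E → ℝ := fun z => (w z + 1) * ψ z with hq
  have hq0 : ∀ z, 0 ≤ q z := fun z => mul_nonneg (by linarith only [hwlo z]) (hψ0 z)
  have hqr : ∀ z, r < ‖z‖ → q z = 0 := fun z hz => by simp only [hq, hψr z hz, mul_zero]
  have hqs : ∀ z, 1 / 4 < ‖z‖ → q z = 0 := fun z hz => hqr z (hr4.trans_lt hz)
  have hqi : Integrable q := hψi.bdd_mul (c := P + 1) (hwm.add_const 1).aestronglyMeasurable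
    (Eventually.of_forall fun z => (abs_add_le _ _).trans (by rw [abs_one]; linarith only [hwa z]))
  set Q := ∫ z, q z
  have hQa : ∫ z, |q z| = Q := by simp only [abs_of_nonneg (hq0 _)]; rfl
  have hQlo : 1 / 2 * (ρ * I) ≤ Q := by
    rw [← hIψ, ← integral_const_mul]
    refine integral_mono (hψi.abs.const_mul _) hqi fun z => ?_
    simp only [abs_of_nonneg (hψ0 z), hq]
    exact mul_le_mul_of_nonneg_right (by linarith only [hwlo z]) (hψ0 z)
  have hQhi : Q ≤ (P + 1) * (ρ * I) := by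
    rw [← hIψ, ← integral_const_mul]
    refine integral_mono hqi (hψi.abs.const_mul _) fun z => ?_
    simp only [abs_of_nonneg (hψ0 z), hq]
    exact mul_le_mul_of_nonneg_right (by linarith only [hwhi z]) (hψ0 z)
  have hQ : 0 < Q := lt_of_lt_of_le (by positivity) hQlo
  -- boundary values
  set ke := pot p q e₀
  have hke0 : 0 < ke := lt_of_lt_of_le (by positivity)
    (le_pot hp0 hqi hq0 hqr (hqr e₀ (by linarith only [hr4, he34])) he₀.le
      (integrable_pot hp0 h12 hqi hqs he34))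
  have hke1 : ke ≤ ((1 - r) ^ p)⁻¹ * Q := by
    rw [← hQa]
    exact (le_abs_self _).trans (abs_pot_le hp0 (by linarith only [hr4]) hqi hqr
      (by linarith only [he₀]))
  have hke2 : ke ≤ T * Q := by
    rw [← hQa]
    exact (le_abs_self _).trans (abs_pot_le hp0 h12 hqi hqs he34)
  have hsplit : ∀ x : E, 3 / 4 ≤ ‖x‖ → pot p (fun z => w z * v z) x =
      P * pot p (fun z => ψ z * v z) x - η * pot p (fun z => χ z * v z) x := fun x hx => by
    rw [← pot_comb hp0 hψvi hχvi hψvs hχvs P η hx]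
    congr 1; ext z; simp only [hw]; ring
  set me := pot p (fun z => w z * v z) e₀ with hme
  have hme1 : me ≤ P * T * I * ρ := by
    have h1 : pot p (fun z => ψ z * v z) e₀ ≤ T * (ρ * I) := by
      refine (le_abs_self _).trans ((abs_pot_le hp0 h12 hψvi hψvs he34).trans
        (mul_le_mul_of_nonneg_left ?_ hT.le))
      rw [← hIψ]
      refine integral_mono hψvi.abs hψi.abs fun z => ?_
      simp only [abs_mul]
      exact mul_le_of_le_one_right (abs_nonneg _) (hva z)
    have h2 := pot_nonneg p (g := fun z => χ z * v z)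
      (fun z => mul_nonneg (hχ0 z) (hv.nonneg z)) e₀
    rw [hme, hsplit e₀ he34']
    linarith only [mul_le_mul_of_nonneg_left h1 hP0, mul_nonneg hη0.le h2]
  have hden : 0 < κ - me := by linarith only [hme1, hsb, hκ]
  set ε := ke / (κ - me)
  have hε : 0 < ε := div_pos hke0 hden
  have hεk : ε * (κ - me) = ke := div_mul_cancel₀ _ hden.ne'
  have hηC : η * C₁ ≤ 1 / 4 := by rw [hη]; linarith only [hsc]
  -- the interior bound on the mixed term
  have hmix : ∀ x : E, ‖x‖ ≤ 1 - d → -(η * C₁) ≤ Bw p w v x := fun x hx => by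
    rw [bil_comb hp hψm hχm hv.meas (hψb x) (hχb x) (hMv x hx) P η]
    have h1 := bil_nonneg_of_mono (p := p) (bp_mono r) hv.mono x
    have h2 := (le_abs_self _).trans ((abs_bil_le hp (hχb x) (hMv x hx)).trans (le_abs_self _))
    have h3 : Bw p χ v x ≤ C₁ := by linarith only [hC₁d, h2, mul_nonneg hMχ hJ]
    linarith only [mul_nonneg hP0 h1, mul_le_mul_of_nonneg_left h3 hη0.le]
  set C₃ := |(Mw + Mψ) / 2 * J| + MS / 2 + ε * |(Mw + Mv) / 2 * J|
  have hC₃d : C₃ = |(Mw + Mψ) / 2 * J| + MS / 2 + ε * |(Mw + Mv) / 2 * J| := rfl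
  set C₄ := L * Q + ε * (L * ∫ z, |w z * v z|) + ε * (T * ∫ z, |w z|)
  refine ⟨w, ψ, ε, max (C₃ / d) C₄, hw2, hψ2, hws, hψs, hψ0, hε, fun x hx => ?_⟩
  rcases le_or_gt ‖x‖ (1 - d) with hxd | hxd
  · constructor
    · have hm := hmix x hxd
      rcases le_total ‖x‖ r with hxr | hxr
      · -- the core
        have h1 := hcore r hr (by linarith only [hr4]) x hxr
        have h2 := bil_le_half hp hχm hψm (hχb x) (hψb x)
        have h3 := (le_abs_self _).trans (abs_bil_le hp (hχb x) (hχb x))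
        have h4 := bil_nonneg_of_mono (p := p) (bp_mono r) (bp_mono r) x
        rw [bil_comb hp hψm hχm hψm (hψb x) (hχb x) (hψb x) P η]
        have h5 : η * Bw p χ ψ x ≤ 1 / 4 + 1 / 2 * Bw p ψ ψ x := by
          have h6 : Bw p χ χ x ≤ C₁ := by
            linarith only [hC₁d, h3, abs_nonneg ((Mχ + Mv) / 2 * J)]
          linarith only [mul_le_mul_of_nonneg_left h2 hη0.le, mul_le_mul_of_nonneg_left h6 hη0.le,
            hηC, mul_le_mul_of_nonneg_right hη1 h4, h4]
        have h7 : ε ≤ T * ((P + 1) * I) * (2 / κ) * ρ := by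
          rw [div_le_iff₀ hden]
          calc ke ≤ T * ((P + 1) * (ρ * I)) := hke2.trans (by gcongr)
            _ = T * ((P + 1) * I) * (2 / κ) * ρ * (κ / 2) := by field_simp
            _ ≤ _ := mul_le_mul_of_nonneg_left (by linarith only [hme1, hsb]) (by positivity)
        have h8 : ε * (κ + 1) ≤ C₂ * ρ := by
          calc ε * (κ + 1) ≤ T * ((P + 1) * I) * (2 / κ) * ρ * (κ + 1) := by gcongr
            _ = C₂ * ρ := by ring
        have h9 : -(ε * (κ + 1)) ≤ ε * (Bw p w v x - κ) := by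
          linarith only [mul_le_mul_of_nonneg_left
            (show -1 ≤ Bw p w v x by linarith only [hm, hηC]) hε.le]
        linarith only [h1, h5, h8, h9, hsa, hη, hη0]
      · -- the intermediate region
        have hψx : ψ x = 0 := bp_eq_zero hr hxr
        obtain ⟨hi, he⟩ := off_supp hp hwm hwa hψn hψ0 hψx
        have h1 := le_pot hp0 hqi hq0 hqr (x := x) (by simp only [hq, hψx, mul_zero]) hxd hi
        have h2 : w x * pot p ψ x ≤ 0 := by
          refine mul_nonpos_of_nonpos_of_nonneg ?_ (pot_nonneg p hψ0 x)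
          simp only [hw, hψx]
          linarith only [mul_nonneg hη0.le (hχ0 x)]
        have h3 : ε * (κ + η * C₁) ≤ ((1 - d + r) ^ p)⁻¹ * Q := by
          have h4 : 0 < κ - P * T * I * ρ := by linarith only [hsb, hκ]
          refine le_of_mul_le_mul_right ?_ h4
          have h5 : ε * (κ - P * T * I * ρ) ≤ ((1 - r) ^ p)⁻¹ * Q := by
            refine le_trans ?_ hke1
            rw [← hεk]
            exact mul_le_mul_of_nonneg_left (by linarith only [hme1]) hε.le
          have h6 : 0 ≤ κ + η * C₁ := by positivity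
          calc ε * (κ + η * C₁) * (κ - P * T * I * ρ)
              = ε * (κ - P * T * I * ρ) * (κ + η * C₁) := by ring
            _ ≤ ((1 - r) ^ p)⁻¹ * Q * (κ + η * C₁) := mul_le_mul_of_nonneg_right h5 h6
            _ = Q * (((1 - r) ^ p)⁻¹ * (κ + C₀ * C₁ * ρ)) := by rw [hη]; ring
            _ ≤ Q * (((1 - d + r) ^ p)⁻¹ * (κ - P * T * I * ρ)) :=
                mul_le_mul_of_nonneg_left hsd hQ.le
            _ = _ := by ring
        rw [he]
        linarith only [mul_le_mul_of_nonneg_left hm hε.le, h1, h2, h3]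
    · have h1 := (le_abs_self _).trans ((abs_bil_le hp (hwb x) (hψb x)).trans (le_abs_self _))
      have h2 := (le_abs_self _).trans ((abs_bil_le hp (hwb x) (hMv x hxd)).trans (le_abs_self _))
      have h3 := (abs_le.mp (hMS 0 x)).1
      have h4 : d ≤ v x := by linarith only [hv.low x hx.le, hxd]
      have h5 : 0 ≤ C₃ := by
        have := (abs_nonneg _).trans (hMS 0 x)
        positivity
      calc _ ≤ C₃ := by
            linarith only [mul_le_mul_of_nonneg_left h2 hε.le, mul_pos hε hκ, hC₃d, h1, h3]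
        _ = C₃ / d * d := by field_simp
        _ ≤ _ := mul_le_mul (le_max_left _ _) h4 hd.le
            ((div_nonneg h5 hd.le).trans (le_max_left _ _))
  · -- the boundary layer
    have hx3 : 3 / 4 ≤ ‖x‖ := by linarith only [hxd, hd4]
    have hx3' : 1 / 4 + 1 / 2 ≤ ‖x‖ := by linarith only [hx3]
    have hx4 : 1 / 4 < ‖x‖ := by linarith only [hx3]
    have hx0 : 0 < ‖x‖ := by linarith only [hx3]
    set e : E := ‖x‖⁻¹ • x
    have he1 : ‖e‖ = 1 := norm_smul_inv_norm (norm_pos_iff.mp hx0)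
    have he3 : 3 / 4 ≤ ‖e‖ := by rw [he1]; norm_num
    have hxe : ‖x‖ • e = x := smul_inv_smul₀ hx0.ne' x
    have hdist : ‖x - e‖ = 1 - ‖x‖ := by
      conv_lhs => rw [← hxe]
      rw [show ‖x‖ • e - e = (‖x‖ - 1) • e by rw [sub_smul, one_smul], norm_smul, he1, mul_one,
        Real.norm_eq_abs, abs_of_nonpos (by linarith only [hx])]
      ring
    have hψx : ψ x = 0 := hψs x hx4
    have hwx : w x = 0 := hws x hx4
    obtain ⟨-, hE⟩ := off_supp hp hwm hwa hψn hψ0 hψx
    have hrad : ‖e‖ = ‖e₀‖ := by rw [he1, he₀]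
    have hwr : ∀ a b : E, ‖a‖ = ‖b‖ → w a = w b := fun a b h => by
      simp only [hw, hψ, hχ, bp_radial _ a b h]
    have k1 : pot p q e = ke := pot_radial p (fun a b h => by
      simp only [hq, hwr a b h, hψ, bp_radial _ a b h]) hrad
    have k2 : pot p (fun z => w z * v z) e = me :=
      pot_radial p (fun a b h => by rw [hwr a b h, hvr a b h]) hrad
    have hG : Bw p w ψ x - S p 0 ψ x / 2 + ε * (Bw p w v x - κ) =
        (pot p q x - pot p q e) + ε * (pot p (fun z => w z * v z) x -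
          pot p (fun z => w z * v z) e) - ε * (v x * pot p w x) := by
      rw [hE, bil_far hp0 hwi hws hwvi hx3, hwx, k1, k2, ← hεk]; ring
    rw [hG]
    have hlow := hv.low x hx.le
    have hv0 := hv.nonneg x
    constructor
    · have h1 := pot_mono_ray hp0 hqi hq0 hqs he1 hx3 hx.le
      have h2 := pot_mono_ray hp0 hψvi (fun z => mul_nonneg (hψ0 z) (hv.nonneg z)) hψvs he1 hx3
        hx.le
      rw [hxe] at h1 h2
      have h3 := (le_abs_self _).trans (abs_pot_sub_le hp0 hχvi hχvs hx3 he3)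
      rw [hdist] at h3
      have h4 : c₀ ≤ pot p χ x := le_pot hp0 hχi hχ0 hχs (hχs x hx4) hx.le
        (integrable_pot hp0 h12 hχi hχs hx3')
      have h5 : pot p ψ x ≤ T * (ρ * I) := by
        rw [← hIψ]
        exact (le_abs_self _).trans (abs_pot_le hp0 h12 hψi hψs hx3')
      have h6 : pot p w x ≤ -(η * c₀ / 2) := by
        rw [pot_comb hp0 hψi hχi hψs hχs P η hx3]
        have h7 : η * c₀ = 2 * (P * (T * (ρ * I))) := by
          rw [hη, show C₀ = 2 * (P * T * I) / c₀ from rfl]; field_simp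
        linarith only [mul_le_mul_of_nonneg_left h5 hP0, mul_le_mul_of_nonneg_left h4 hη0.le, h7]
      have h8 := hsteep x (by linarith only [hxd, show d ≤ d₁ from min_le_left _ _]) hx
      have h9 : L * (1 - ‖x‖) * A ≤ c₀ / 2 * v x := by
        calc L * (1 - ‖x‖) * A = c₀ / 2 * (2 * (L * A) / c₀ * (1 - ‖x‖)) := by field_simp
          _ ≤ _ := mul_le_mul_of_nonneg_left h8 (by positivity)
      rw [hsplit x hx3, hsplit e he3]
      have h10 : 0 ≤ P * pot p (fun z => ψ z * v z) x - η * pot p (fun z => χ z * v z) x -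
          (P * pot p (fun z => ψ z * v z) e - η * pot p (fun z => χ z * v z) e) -
          v x * pot p w x := by
        linarith only [mul_le_mul_of_nonneg_left h2 hP0,
          mul_le_mul_of_nonneg_left (h3.trans h9) hη0.le, mul_le_mul_of_nonneg_left h6 hv0]
      linarith only [mul_nonneg hε.le h10, h1]
    · have h1 := (le_abs_self _).trans (abs_pot_sub_le hp0 hqi hqs hx3 he3)
      have h2 := (le_abs_self _).trans (abs_pot_sub_le hp0 hwvi hwvs hx3 he3)
      have h3 := (abs_le.mp (abs_pot_le hp0 h12 hwi hws hx3')).1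
      rw [hdist] at h1 h2
      rw [hQa] at h1
      have h4 : 0 ≤ ∫ z, |w z * v z| := integral_nonneg fun z => abs_nonneg _
      refine le_trans ?_ (mul_le_mul_of_nonneg_right (le_max_right _ _) hv0)
      have h5 : L * (1 - ‖x‖) * Q ≤ L * Q * v x := by
        linarith only [mul_le_mul_of_nonneg_left hlow (mul_pos hL hQ).le]
      have h6 : L * (1 - ‖x‖) * ∫ z, |w z * v z| ≤ (L * ∫ z, |w z * v z|) * v x := by
        linarith only [mul_le_mul_of_nonneg_left hlow (mul_nonneg hL.le h4)]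
      have h7 := mul_le_mul_of_nonneg_left (h2.trans h6) hε.le
      have h8 := mul_le_mul_of_nonneg_left (mul_le_mul_of_nonneg_left h3 hv0) hε.le
      have h9 : C₄ * v x = L * Q * v x + ε * ((L * ∫ z, |w z * v z|) * v x) +
          ε * (v x * (T * ∫ z, |w z|)) := by simp only [C₄]; ring
      rw [h9]
      linarith only [h1, h5, h7, h8]

end Pool.Agent.P.MP_c7f95f_an.CM
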