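import Pool.Agent.P.MP_c7f95f_an.Main

/-!
Constant coefficient case: the bilinear form, far field potentials and dilated bumps.
-/

namespace Pool.Agent.P.MP_c7f95f_an.CM

open MeasureTheory Set Filter Topology Metric Pool.Agent.P.MP_c7f95f_an

variable {E : Type*} [NormedAddCommGroup E] [InnerProductSpace ℝ E] [FiniteDimensional ℝ E]
  [MeasurableSpace E] [BorelSpace E]

/-- The unnormalised bilinear form attached to the gradient square. -/
noncomputable def Bw (p : ℝ) (f g : E → ℝ) (x : E) : ℝ :=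
  ∫ k, (f x - f (x + k)) * (g x - g (x + k)) * wt p 0 k

/-- The potential of a density. -/
noncomputable def pot (p : ℝ) (g : E → ℝ) (x : E) : ℝ := ∫ z, g z * wt p 0 (z - x)

/-- Lipschitz and bounded increments from the point `x`. -/
def LB (M : ℝ) (f : E → ℝ) (x : E) : Prop := ∀ k, (f x - f (x + k)) ^ 2 ≤ M * cut k

omit [InnerProductSpace ℝ E] [FiniteDimensional ℝ E] [MeasurableSpace E] [BorelSpace E] in
theorem abs_bil_integrand_le {p M₁ M₂ : ℝ} {f g : E → ℝ} {x : E} (hf : LB M₁ f x) (hg : LB M₂ g x)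
    (k : E) : ‖(f x - f (x + k)) * (g x - g (x + k)) * wt p 0 k‖ ≤
      (M₁ + M₂) / 2 * (cut k * ker p k) := by
  rw [Real.norm_eq_abs, abs_mul, abs_of_nonneg (wt_nonneg _ _ _), ← mul_assoc]
  have h1 := hf k
  have h2 := hg k
  have h3 : |(f x - f (x + k)) * (g x - g (x + k))| ≤ (M₁ + M₂) / 2 * cut k := by
    rw [abs_le]
    constructor <;> nlinarith [sq_nonneg (f x - f (x + k) - (g x - g (x + k))),
      sq_nonneg (f x - f (x + k) + (g x - g (x + k)))]
  exact mul_le_mul h3 (wt_le_ker _ _ _) (wt_nonneg _ _ _) ((abs_nonneg _).trans h3)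

theorem integrable_bil {p M₁ M₂ : ℝ} (hp : Expo E p) {f g : E → ℝ} {x : E} (hfm : Measurable f)
    (hgm : Measurable g) (hf : LB M₁ f x) (hg : LB M₂ g x) :
    Integrable (fun k => (f x - f (x + k)) * (g x - g (x + k)) * wt p 0 k) :=
  ((integrable_cut_ker hp).const_mul _).mono'
    (((measurable_const.sub (hfm.comp (measurable_const_add x))).mul
      (measurable_const.sub (hgm.comp (measurable_const_add x)))).mul
      (measurable_wt p 0)).aestronglyMeasurable
    (Eventually.of_forall (abs_bil_integrand_le hf hg))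

theorem abs_bil_le {p M₁ M₂ : ℝ} (hp : Expo E p) {f g : E → ℝ} {x : E} (hf : LB M₁ f x)
    (hg : LB M₂ g x) : |Bw p f g x| ≤ (M₁ + M₂) / 2 * ∫ k : E, cut k * ker p k := by
  rw [← Real.norm_eq_abs, ← integral_const_mul]
  exact norm_integral_le_of_norm_le ((integrable_cut_ker hp).const_mul _)
    (Eventually.of_forall (abs_bil_integrand_le hf hg))

theorem bil_comb {p M₁ M₂ M₃ : ℝ} (hp : Expo E p) {f₁ f₂ g : E → ℝ} {x : E} (h₁ : Measurable f₁)
    (h₂ : Measurable f₂) (hgm : Measurable g) (hf₁ : LB M₁ f₁ x) (hf₂ : LB M₂ f₂ x)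
    (hg : LB M₃ g x) (a b : ℝ) :
    Bw p (fun z => a * f₁ z - b * f₂ z) g x = a * Bw p f₁ g x - b * Bw p f₂ g x := by
  unfold Bw
  rw [← integral_const_mul, ← integral_const_mul,
    ← integral_sub ((integrable_bil hp h₁ hgm hf₁ hg).const_mul a)
      ((integrable_bil hp h₂ hgm hf₂ hg).const_mul b)]
  congr 1; ext k; ring

theorem bil_le_half {p M₁ M₂ : ℝ} (hp : Expo E p) {f g : E → ℝ} {x : E} (hfm : Measurable f)
    (hgm : Measurable g) (hf : LB M₁ f x) (hg : LB M₂ g x) :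
    Bw p f g x ≤ (Bw p f f x + Bw p g g x) / 2 := by
  unfold Bw
  rw [← integral_add (integrable_bil hp hfm hfm hf hf) (integrable_bil hp hgm hgm hg hg),
    ← integral_div]
  refine integral_mono (integrable_bil hp hfm hgm hf hg)
    (((integrable_bil hp hfm hfm hf hf).add (integrable_bil hp hgm hgm hg hg)).div_const 2)
    fun k => ?_
  have := mul_nonneg (sq_nonneg (f x - f (x + k) - (g x - g (x + k)))) (wt_nonneg p 0 k)
  simp only
  nlinarith

theorem bil_nonneg_of_mono {p : ℝ} {f g : E → ℝ} (hf : ∀ x y : E, ‖x‖ ≤ ‖y‖ → f y ≤ f x)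
    (hg : ∀ x y : E, ‖x‖ ≤ ‖y‖ → g y ≤ g x) (x : E) : 0 ≤ Bw p f g x := by
  refine integral_nonneg fun k => mul_nonneg ?_ (wt_nonneg _ _ _)
  rcases le_total ‖x‖ ‖x + k‖ with h | h
  · exact mul_nonneg (sub_nonneg.mpr (hf _ _ h)) (sub_nonneg.mpr (hg _ _ h))
  · exact mul_nonneg_of_nonpos_of_nonpos (sub_nonpos.mpr (hf _ _ h)) (sub_nonpos.mpr (hg _ _ h))

theorem bil_self (p : ℝ) (f : E → ℝ) (x : E) : Bw p f f x = Gam p 0 f x := by
  unfold Bw Gam; congr 1; ext k; ring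

theorem pot_eq (p : ℝ) (g : E → ℝ) (x : E) : pot p g x = ∫ k, g (x + k) * wt p 0 k := by
  unfold pot
  rw [← integral_add_left_eq_self _ x]
  simp only [add_sub_cancel_left]

omit [InnerProductSpace ℝ E] [FiniteDimensional ℝ E] [MeasurableSpace E] [BorelSpace E] in
theorem wt_le_of_le {p a : ℝ} (hp : 0 < p) (ha : 0 < a) {y : E} (h : a ≤ ‖y‖) :
    wt p 0 y ≤ (a ^ p)⁻¹ :=
  (wt_le_ker _ _ _).trans (inv_anti₀ (Real.rpow_pos_of_pos ha p) (Real.rpow_le_rpow ha.le h hp.le))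

omit [InnerProductSpace ℝ E] [FiniteDimensional ℝ E] [MeasurableSpace E] [BorelSpace E] in
theorem le_wt_of_le {p a : ℝ} (hp : 0 < p) {y : E} (h0 : y ≠ 0) (h : ‖y‖ ≤ a) :
    (a ^ p)⁻¹ ≤ wt p 0 y := by
  rw [wt_zero hp.ne', ker]
  exact inv_anti₀ (Real.rpow_pos_of_pos (norm_pos_iff.mpr h0) p)
    (Real.rpow_le_rpow (norm_nonneg _) h hp.le)

omit [InnerProductSpace ℝ E] [FiniteDimensional ℝ E] [MeasurableSpace E] [BorelSpace E] in
theorem far_bound {p ρ a : ℝ} (hp : 0 < p) (ha : 0 < a) {g : E → ℝ} (hs : ∀ z, ρ < ‖z‖ → g z = 0)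
    {x : E} (hx : ρ + a ≤ ‖x‖) (z : E) : ‖g z * wt p 0 (z - x)‖ ≤ (a ^ p)⁻¹ * |g z| := by
  rw [Real.norm_eq_abs, abs_mul, abs_of_nonneg (wt_nonneg _ _ _), mul_comm]
  rcases le_or_gt ‖z‖ ρ with h | h
  · refine mul_le_mul_of_nonneg_right (wt_le_of_le hp ha ?_) (abs_nonneg _)
    have := norm_sub_norm_le x z
    rw [norm_sub_rev] at this
    linarith
  · simp [hs z h]

theorem integrable_pot {p ρ a : ℝ} (hp : 0 < p) (ha : 0 < a) {g : E → ℝ} (hg : Integrable g)
    (hs : ∀ z, ρ < ‖z‖ → g z = 0) {x : E} (hx : ρ + a ≤ ‖x‖) :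
    Integrable (fun z => g z * wt p 0 (z - x)) :=
  (hg.abs.const_mul _).mono'
    (hg.aestronglyMeasurable.mul
      ((measurable_wt p 0).comp (measurable_id.sub_const x)).aestronglyMeasurable)
    (Eventually.of_forall (far_bound hp ha hs hx))

theorem abs_pot_le {p ρ a : ℝ} (hp : 0 < p) (ha : 0 < a) {g : E → ℝ} (hg : Integrable g)
    (hs : ∀ z, ρ < ‖z‖ → g z = 0) {x : E} (hx : ρ + a ≤ ‖x‖) :
    |pot p g x| ≤ (a ^ p)⁻¹ * ∫ z, |g z| := by
  rw [← Real.norm_eq_abs, ← integral_const_mul]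
  exact norm_integral_le_of_norm_le (hg.abs.const_mul _)
    (Eventually.of_forall (far_bound hp ha hs hx))

theorem le_pot {p ρ R : ℝ} (hp : 0 < p) {g : E → ℝ} (hg : Integrable g) (h0 : ∀ z, 0 ≤ g z)
    (hs : ∀ z, ρ < ‖z‖ → g z = 0) {x : E} (hgx : g x = 0) (hx : ‖x‖ ≤ R)
    (hi : Integrable (fun z => g z * wt p 0 (z - x))) :
    ((R + ρ) ^ p)⁻¹ * ∫ z, g z ≤ pot p g x := by
  rw [← integral_const_mul]
  refine integral_mono (hg.const_mul _) hi fun z => ?_
  simp only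
  rcases eq_or_ne z x with rfl | hz
  · simp [hgx]
  rcases le_or_gt ‖z‖ ρ with h | h
  · rw [mul_comm]
    refine mul_le_mul_of_nonneg_left (le_wt_of_le hp (sub_ne_zero.mpr hz) ?_) (h0 z)
    linarith [norm_sub_le z x]
  · simp [hs z h]

theorem pot_mono_ray {p : ℝ} (hp : 0 < p) {g : E → ℝ} (hg : Integrable g) (h0 : ∀ z, 0 ≤ g z)
    (hs : ∀ z, 1 / 4 < ‖z‖ → g z = 0) {e : E} (he : ‖e‖ = 1) {t : ℝ} (ht : 3 / 4 ≤ t) (ht1 : t ≤ 1) :
    pot p g e ≤ pot p g (t • e) := by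
  have hn : ‖t • e‖ = t := by rw [norm_smul, he, mul_one, Real.norm_of_nonneg (by linarith)]
  refine integral_mono (integrable_pot hp (a := 1 / 2) (by norm_num) hg hs (by linarith))
    (integrable_pot hp (a := 1 / 2) (by norm_num) hg hs (by linarith)) fun z => ?_
  simp only
  rcases le_or_gt ‖z‖ (1 / 4) with h | h
  · refine mul_le_mul_of_nonneg_left ?_ (h0 z)
    have h1 : 1 / 2 ≤ ‖z - t • e‖ := by
      have := norm_sub_norm_le (t • e) z
      rw [norm_sub_rev] at this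
      linarith
    have h2 : ‖z - t • e‖ ≤ ‖z - e‖ := by
      have h3 : |inner ℝ z e| ≤ ‖z‖ * ‖e‖ := abs_real_inner_le_norm z e
      rw [he, mul_one, abs_le] at h3
      refine (pow_le_pow_iff_left₀ (norm_nonneg _) (norm_nonneg _) two_ne_zero).mp ?_
      rw [norm_sub_sq_real, norm_sub_sq_real, inner_smul_right, hn, he]
      nlinarith
    refine (wt_le_of_le hp (by linarith) h2).trans (le_wt_of_le hp ?_ le_rfl)
    intro h0'
    rw [h0', norm_zero] at h1
    linarith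
  · simp [hs z h]

theorem abs_pot_sub_le {p : ℝ} (hp : 0 < p) {g : E → ℝ} (hg : Integrable g)
    (hs : ∀ z, 1 / 4 < ‖z‖ → g z = 0) {x y : E} (hx : 3 / 4 ≤ ‖x‖) (hy : 3 / 4 ≤ ‖y‖) :
    |pot p g x - pot p g y| ≤ p * (1 / 2) ^ (-p - 1) * ‖x - y‖ * ∫ z, |g z| := by
  unfold pot
  rw [← integral_sub (integrable_pot hp (a := 1 / 2) (by norm_num) hg hs (by linarith))
    (integrable_pot hp (a := 1 / 2) (by norm_num) hg hs (by linarith)), ← Real.norm_eq_abs,
    ← integral_const_mul]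
  refine norm_integral_le_of_norm_le (hg.abs.const_mul _) (Eventually.of_forall fun z => ?_)
  rw [← mul_sub, Real.norm_eq_abs, abs_mul, mul_comm]
  rcases le_or_gt ‖z‖ (1 / 4) with h | h
  · refine mul_le_mul_of_nonneg_right ?_ (abs_nonneg _)
    have h1 : 1 / 2 ≤ ‖z - x‖ := by
      have := norm_sub_norm_le x z
      rw [norm_sub_rev] at this
      linarith
    have h2 : 1 / 2 ≤ ‖z - y‖ := by
      have := norm_sub_norm_le y z
      rw [norm_sub_rev] at this
      linarith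
    rw [wt_zero hp.ne', wt_zero hp.ne', ker, ker]
    refine (lipschitz_inv_rpow hp h1 h2).trans ?_
    refine mul_le_mul_of_nonneg_left ((abs_norm_sub_norm_le _ _).trans (le_of_eq ?_)) (by positivity)
    rw [← norm_neg]; congr 1; abel
  · simp [hs z h]

theorem pot_radial (p : ℝ) {g : E → ℝ} (hg : ∀ x y : E, ‖x‖ = ‖y‖ → g x = g y) {v w : E}
    (h : ‖v‖ = ‖w‖) : pot p g v = pot p g w := by
  set R : E ≃ₗᵢ[ℝ] E := (ℝ ∙ (v - w))ᗮ.reflection
  have hR : R v = w := Submodule.reflection_sub h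
  unfold pot
  rw [← R.measurePreserving.integral_comp R.toHomeomorph.measurableEmbedding
    (fun z => g z * wt p 0 (z - w))]
  congr 1
  ext z
  have e1 : ∀ k : E, wt p 0 (R k) = wt p 0 k := fun k => by simp only [wt, ker, R.norm_map]
  rw [← hR, ← map_sub, e1, hg (R z) z (R.norm_map z)]

theorem Gam_scale (p : ℝ) {ε : ℝ} (hε : 0 < ε) (F : E → ℝ) (w : E) :
    Gam p 0 (fun z => F (ε • z)) w =
      ε ^ p * (ε ^ Module.finrank ℝ E)⁻¹ * Gam p 0 F (ε • w) := by
  have h1 := Measure.integral_comp_smul_of_nonneg (volume : Measure E)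
    (fun h => (F (ε • w) - F (ε • w + h)) ^ 2 * wt p (ε * 0) h) ε (hR := hε.le)
  rw [smul_eq_mul] at h1
  unfold Gam
  rw [mul_zero] at h1
  rw [mul_assoc, ← h1, ← integral_const_mul]
  congr 1; ext h
  rw [wt_smul p 0 hε h, mul_zero]
  simp only [smul_add]
  ring

/-- The dilated bump. -/
noncomputable def bp (r : ℝ) (x : E) : ℝ := bump (r⁻¹ • x)

omit [FiniteDimensional ℝ E] [MeasurableSpace E] [BorelSpace E] in
theorem bp_nonneg (r : ℝ) (x : E) : 0 ≤ bp r x := bump_nonneg _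

omit [FiniteDimensional ℝ E] [MeasurableSpace E] [BorelSpace E] in
theorem bp_le_one (r : ℝ) (x : E) : bp r x ≤ 1 := by
  unfold bp bump expNegInvGlue
  split_ifs with h
  · exact zero_le_one
  · rw [Real.exp_le_one_iff, neg_nonpos]
    exact inv_nonneg.mpr (not_le.mp h).le

omit [FiniteDimensional ℝ E] [MeasurableSpace E] [BorelSpace E] in
theorem bp_eq_zero {r : ℝ} (hr : 0 < r) {x : E} (hx : r ≤ ‖x‖) : bp r x = 0 := by
  refine bump_eq_zero ?_
  rw [norm_smul, Real.norm_of_nonneg (inv_nonneg.mpr hr.le), inv_mul_eq_div, one_le_div hr]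
  exact hx

omit [FiniteDimensional ℝ E] [MeasurableSpace E] [BorelSpace E] in
theorem bp_mono (r : ℝ) (x y : E) (h : ‖x‖ ≤ ‖y‖) : bp r y ≤ bp r x := by
  refine expNegInvGlue.monotone ?_
  rw [norm_smul, norm_smul]
  gcongr

omit [FiniteDimensional ℝ E] [MeasurableSpace E] [BorelSpace E] in
theorem bp_radial (r : ℝ) (x y : E) (h : ‖x‖ = ‖y‖) : bp r x = bp r y :=
  le_antisymm (bp_mono r _ _ h.ge) (bp_mono r _ _ h.le)

omit [FiniteDimensional ℝ E] [MeasurableSpace E] [BorelSpace E] in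
theorem contDiff_bp (r : ℝ) : ContDiff ℝ 2 (bp r : E → ℝ) :=
  (contDiff_bump.of_le (by norm_num)).comp (contDiff_id.const_smul r⁻¹)

omit [FiniteDimensional ℝ E] [MeasurableSpace E] [BorelSpace E] in
theorem tsupport_subset_of {g : E → ℝ} {ρ : ℝ} (hs : ∀ z, ρ < ‖z‖ → g z = 0) :
    tsupport g ⊆ closedBall 0 ρ := by
  refine closure_minimal (fun w hw => ?_) isClosed_closedBall
  by_contra h
  exact hw (hs w (by simpa using h))

omit [MeasurableSpace E] [BorelSpace E] in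
theorem hasCompactSupport_of {g : E → ℝ} {ρ : ℝ} (hs : ∀ z, ρ < ‖z‖ → g z = 0) :
    HasCompactSupport g :=
  (isCompact_closedBall 0 ρ).of_isClosed_subset (isClosed_tsupport _) (tsupport_subset_of hs)

theorem integral_bp {r : ℝ} (hr : 0 < r) :
    ∫ x : E, bp r x = r ^ Module.finrank ℝ E * ∫ x : E, bump x := by
  have h1 := Measure.integral_comp_smul_of_nonneg (volume : Measure E) bump r⁻¹
    (hR := inv_nonneg.mpr hr.le)
  rw [smul_eq_mul, inv_pow, inv_inv] at h1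
  exact h1

/-- At a zero of a nonnegative nice function the operator is a potential. -/
theorem S_eq_pot {p : ℝ} (hp : Expo E p) {ψ : E → ℝ} (hψ : Nice ψ) (h0 : ∀ z, 0 ≤ ψ z) {x : E}
    (hx : ψ x = 0) :
    Integrable (fun k => ψ (x + k) * wt p 0 k) ∧ S p 0 ψ x = -2 * pot p ψ x := by
  obtain ⟨M, hM, hb⟩ := hψ.bd
  have hm := hψ.cont.measurable
  have h1 : Integrable (fun k => ψ (x + k) * wt p 0 k) := by
    refine ((integrable_cut_ker hp).const_mul M).mono'
      ((hm.comp (measurable_const_add x)).mul (measurable_wt p 0)).aestronglyMeasurable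
      (Eventually.of_forall fun k => ?_)
    rw [Real.norm_of_nonneg (mul_nonneg (h0 _) (wt_nonneg _ _ _)), ← mul_assoc]
    refine mul_le_mul ?_ (wt_le_ker _ _ _) (wt_nonneg _ _ _) (mul_nonneg hM (cut_nonneg _))
    have := (abs_le.mp (hb x k)).1
    unfold sd at this
    linarith [h0 (x - k)]
  refine ⟨h1, ?_⟩
  have h2 : Integrable (fun k => ψ (x - k) * wt p 0 k) := by
    simpa [wt_neg, ← sub_eq_add_neg] using h1.comp_neg
  have h3 : ∫ k, ψ (x - k) * wt p 0 k = ∫ k, ψ (x + k) * wt p 0 k := by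
    rw [← integral_neg_eq_self]
    simp [wt_neg]
  have h4 : S p 0 ψ x = -((∫ k, ψ (x + k) * wt p 0 k) + ∫ k, ψ (x - k) * wt p 0 k) := by
    rw [← integral_add h1 h2, ← integral_neg, S]
    congr 1; ext k
    simp only [sd, hx]; ring
  rw [h4, h3, pot_eq]; ring

end Pool.Agent.P.MP_c7f95f_an.CM
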