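import Pool.Agent.P.MP_c7f95f_an.CMPot

/-!
Constant coefficient case: the sign analysis.
-/

namespace Pool.Agent.P.MP_c7f95f_an.CM

open MeasureTheory Set Filter Topology Metric Pool.Agent.P.MP_c7f95f_an

variable {E : Type*} [NormedAddCommGroup E] [InnerProductSpace ℝ E] [FiniteDimensional ℝ E]
  [MeasurableSpace E] [BorelSpace E]

/-- The elementary properties of the torsion function of the unit ball that are used. -/
structure Tors (v : E → ℝ) : Prop where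
  meas : Measurable v
  nonneg : ∀ x, 0 ≤ v x
  le_one : ∀ x, v x ≤ 1
  mono : ∀ x y, ‖x‖ ≤ ‖y‖ → v y ≤ v x
  lb : ∀ d : ℝ, 0 < d → ∃ M : ℝ, ∀ x, ‖x‖ ≤ 1 - d → LB M v x
  steep : ∀ L : ℝ, ∃ d : ℝ, 0 < d ∧ ∀ x, 1 - d ≤ ‖x‖ → ‖x‖ < 1 → L * (1 - ‖x‖) ≤ v x
  low : ∀ x, ‖x‖ ≤ 1 → 1 - ‖x‖ ≤ v x

theorem off_supp {p B : ℝ} (hp : Expo E p) {w ψ : E → ℝ} (hw : Measurable w)
    (hB : ∀ z, |w z| ≤ B) (hψ : Nice ψ) (h0 : ∀ z, 0 ≤ ψ z) {x : E} (hx : ψ x = 0) :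
    Integrable (fun z => (w z + 1) * ψ z * wt p 0 (z - x)) ∧
      Bw p w ψ x - S p 0 ψ x / 2 = pot p (fun z => (w z + 1) * ψ z) x - w x * pot p ψ x := by
  obtain ⟨h1, h2⟩ := S_eq_pot hp hψ h0 hx
  have h3 : Integrable (fun k => (w (x + k) + 1) * (ψ (x + k) * wt p 0 k)) :=
    h1.bdd_mul (c := B + 1)
      ((hw.comp (measurable_const_add x)).add_const 1).aestronglyMeasurable
      (Eventually.of_forall fun k => (abs_add_le _ _).trans (by
        rw [abs_one]; linarith [hB (x + k)]))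
  refine ⟨?_, ?_⟩
  · have := h3.comp_add_left (-x)
    refine this.congr (Eventually.of_forall fun z => ?_)
    simp only [mul_assoc, neg_add_eq_sub, add_sub_cancel]
  · rw [h2, pot_eq, pot_eq, Bw]
    have : ∫ k, (w x - w (x + k)) * (ψ x - ψ (x + k)) * wt p 0 k =
        (∫ k, (w (x + k) + 1) * (ψ (x + k) * wt p 0 k)) -
          (w x + 1) * ∫ k, ψ (x + k) * wt p 0 k := by
      rw [← integral_const_mul, ← integral_sub h3 (h1.const_mul _)]
      congr 1; ext k; rw [hx]; ring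
    rw [this]
    simp only [mul_assoc]
    ring

theorem bil_far {p : ℝ} (hp : 0 < p) {w v : E → ℝ} (hw : Integrable w)
    (hs : ∀ z, 1 / 4 < ‖z‖ → w z = 0) (hwv : Integrable (fun z => w z * v z)) {x : E}
    (hx : 3 / 4 ≤ ‖x‖) :
    Bw p w v x = pot p (fun z => w z * v z) x - v x * pot p w x := by
  have h1 := integrable_pot hp (a := 1 / 2) (by norm_num) hw hs (x := x) (by linarith)
  have h2 := integrable_pot hp (a := 1 / 2) (by norm_num) hwv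
    (fun z hz => by rw [hs z hz, zero_mul]) (x := x) (by linarith)
  unfold pot
  rw [← integral_const_mul, ← integral_sub h2 (h1.const_mul _), Bw,
    ← integral_add_left_eq_self
      (fun z => w z * v z * wt p 0 (z - x) - v x * (w z * wt p 0 (z - x))) x]
  congr 1; ext z
  simp only [hs x (by linarith), add_sub_cancel_left]
  ring

theorem pot_comb {p : ℝ} (hp : 0 < p) {f g : E → ℝ} (hf : Integrable f) (hg : Integrable g)
    (hfs : ∀ z, 1 / 4 < ‖z‖ → f z = 0) (hgs : ∀ z, 1 / 4 < ‖z‖ → g z = 0) (a b : ℝ) {x : E}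
    (hx : 3 / 4 ≤ ‖x‖) :
    pot p (fun z => a * f z - b * g z) x = a * pot p f x - b * pot p g x := by
  have h1 := integrable_pot hp (a := 1 / 2) (by norm_num) hf hfs (x := x) (by linarith)
  have h2 := integrable_pot hp (a := 1 / 2) (by norm_num) hg hgs (x := x) (by linarith)
  unfold pot
  rw [← integral_const_mul, ← integral_const_mul, ← integral_sub (h1.const_mul _) (h2.const_mul _)]
  congr 1; ext z; ring

theorem pot_nonneg (p : ℝ) {g : E → ℝ} (h0 : ∀ z, 0 ≤ g z) (x : E) : 0 ≤ pot p g x :=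
  integral_nonneg fun z => mul_nonneg (h0 z) (wt_nonneg _ _ _)

/-- The core estimate at the small scale. -/
theorem core {p : ℝ} (hp : Expo E p) : ∃ P : ℝ, 1 ≤ P ∧ ∀ r : ℝ, 0 < r → r ≤ 1 → ∀ x : E,
    ‖x‖ ≤ r → 1 ≤ (P - 1 / 2) * Bw p (bp r) (bp r) x - S p 0 (bp r) x / 2 := by
  have hb2 : ContDiff ℝ 2 (bump : E → ℝ) := contDiff_bump.of_le (by norm_num)
  obtain ⟨-, -, hcont, hpos, -⟩ := gam_facts hp hb2 hasCompactSupport_bump (x₀ := 0)
    (expNegInvGlue.pos_of_pos (by simp)).ne'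
  obtain ⟨y₀, -, hy₀⟩ := (isCompact_closedBall (0 : E) 1).exists_isMinOn
    ⟨0, mem_closedBall_self zero_le_one⟩ hcont.continuousOn
  obtain ⟨M, hM⟩ := (nice_bump (E := E)).exists_bound_S hp
  have hM0 : 0 ≤ M := (abs_nonneg _).trans (hM 0 0)
  set δ := Gam p 0 bump y₀
  have hδ : 0 < δ := hpos y₀
  refine ⟨(M + 1) / δ + 1, by linarith [div_nonneg (by linarith : 0 ≤ M + 1) hδ.le],
    fun r hr hr1 x hx => ?_⟩
  have hri : 0 < r⁻¹ := inv_pos.mpr hr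
  have e1 : S p 0 (bp r) x = r⁻¹ ^ p * (r⁻¹ ^ Module.finrank ℝ E)⁻¹ * S p 0 bump (r⁻¹ • x) := by
    have := S_scale p 0 hri bump (0 : E) x
    simp only [zero_add, mul_zero] at this
    exact this
  have e2 : Bw p (bp r) (bp r) x =
      r⁻¹ ^ p * (r⁻¹ ^ Module.finrank ℝ E)⁻¹ * Gam p 0 bump (r⁻¹ • x) := by
    rw [bil_self]; exact Gam_scale p hri bump x
  set σ := r⁻¹ ^ p * (r⁻¹ ^ Module.finrank ℝ E)⁻¹
  have hσ : 1 ≤ σ := by
    rw [show σ = r⁻¹ ^ p / r⁻¹ ^ (Module.finrank ℝ E : ℝ) by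
      rw [Real.rpow_natCast, div_eq_mul_inv], ← Real.rpow_sub hri]
    exact Real.one_le_rpow (one_le_inv₀ hr |>.mpr hr1) (by linarith [hp.lo])
  have hy : δ ≤ Gam p 0 bump (r⁻¹ • x) := by
    refine hy₀ (mem_closedBall_zero_iff.mpr ?_)
    rw [norm_smul, Real.norm_of_nonneg hri.le, inv_mul_eq_div, div_le_one hr]
    exact hx
  have hS := (abs_le.mp (hM 0 (r⁻¹ • x))).2
  have h1 : M + 1 ≤ ((M + 1) / δ + 1 - 1 / 2) * Gam p 0 bump (r⁻¹ • x) := by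
    calc M + 1 = (M + 1) / δ * δ := by field_simp
      _ ≤ _ := mul_le_mul (by linarith) hy hδ.le
          (by linarith [div_nonneg (by linarith : 0 ≤ M + 1) hδ.le])
  rw [e1, e2]
  nlinarith

/-- Smallness conditions hold for small scales. -/
theorem exists_scale {p d κ a b c : ℝ} {n : ℕ} (hn : n ≠ 0) (hp : 0 < p) (hd : 0 < d)
    (hd1 : d < 1) (hκ : 0 < κ) : ∃ r : ℝ, 0 < r ∧ r ≤ 1 / 4 ∧ a * r ^ n ≤ 1 / 2 ∧
      b * r ^ n ≤ κ / 2 ∧ c * r ^ n ≤ 1 / 4 ∧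
      ((1 - r) ^ p)⁻¹ * (κ + c * r ^ n) ≤ ((1 - d + r) ^ p)⁻¹ * (κ - b * r ^ n) := by
  have h0 : ∀ a : ℝ, Tendsto (fun r : ℝ => a * r ^ n) (𝓝 0) (𝓝 0) := fun a => by
    have : Tendsto (fun r : ℝ => a * r ^ n) (𝓝 0) (𝓝 (a * 0 ^ n)) :=
      (continuous_const.mul (continuous_pow n)).tendsto 0
    rwa [zero_pow hn, mul_zero] at this
  have h1 : Tendsto (fun r : ℝ => ((1 - r) ^ p)⁻¹ * (κ + c * r ^ n)) (𝓝 0)
      (𝓝 (((1 - 0) ^ p)⁻¹ * (κ + 0))) :=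
    (((tendsto_const_nhds.sub tendsto_id).rpow_const (Or.inr hp.le)).inv₀ (by simp)).mul
      (tendsto_const_nhds.add (h0 c))
  have h2 : Tendsto (fun r : ℝ => ((1 - d + r) ^ p)⁻¹ * (κ - b * r ^ n)) (𝓝 0)
      (𝓝 (((1 - d + 0) ^ p)⁻¹ * (κ - 0))) :=
    (((tendsto_const_nhds.add tendsto_id).rpow_const (Or.inr hp.le)).inv₀
      (Real.rpow_pos_of_pos (by linarith) p).ne').mul (tendsto_const_nhds.sub (h0 b))
  have h3 : ((1 - 0 : ℝ) ^ p)⁻¹ * (κ + 0) < ((1 - d + 0) ^ p)⁻¹ * (κ - 0) := by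
    simp only [sub_zero, add_zero, Real.one_rpow, inv_one]
    refine mul_lt_mul_of_pos_right ?_ hκ
    rw [one_lt_inv₀ (Real.rpow_pos_of_pos (by linarith) p)]
    exact Real.rpow_lt_one (by linarith) (by linarith) hp
  have h4 : ∀ᶠ r : ℝ in 𝓝 0, r ≤ 1 / 4 ∧ a * r ^ n ≤ 1 / 2 ∧ b * r ^ n ≤ κ / 2 ∧
      c * r ^ n ≤ 1 / 4 ∧
      ((1 - r) ^ p)⁻¹ * (κ + c * r ^ n) ≤ ((1 - d + r) ^ p)⁻¹ * (κ - b * r ^ n) := by
    filter_upwards [eventually_le_nhds (show (0 : ℝ) < 1 / 4 by norm_num),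
      (h0 a).eventually (eventually_le_nhds (show (0 : ℝ) < 1 / 2 by norm_num)),
      (h0 b).eventually (eventually_le_nhds (show (0 : ℝ) < κ / 2 by linarith)),
      (h0 c).eventually (eventually_le_nhds (show (0 : ℝ) < 1 / 4 by norm_num)),
      h1.eventually_lt h2 h3] with r a1 a2 a3 a4 a5
    exact ⟨a1, a2, a3, a4, a5.le⟩
  obtain ⟨r, hr, hr0⟩ := ((h4.filter_mono nhdsWithin_le_nhds).and
    (self_mem_nhdsWithin (s := Ioi (0 : ℝ)))).exists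
  exact ⟨r, hr0, hr⟩

end Pool.Agent.P.MP_c7f95f_an.CM
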