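import Mathlib

/-!
Definitions for the fractional Dirichlet problem with a nonlocal gradient square.
-/

namespace Pool.Agent.P.MP_c7f95f_an

open MeasureTheory Filter Topology

/-- Euclidean space `ℝ^N`. -/
abbrev Sp (N : ℕ) := EuclideanSpace ℝ (Fin N)

/-- The constant `a_{N,s}`. -/
noncomputable def aConst (N : ℕ) [NeZero N] (s : ℝ) : ℝ :=
  (∫ ξ : Sp N, (1 - Real.cos (ξ 0)) / ‖ξ‖ ^ ((N : ℝ) + 2 * s))⁻¹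

/-- `(-Δ)^s u (x)` exists and equals `L`. -/
def HasFracLap {N : ℕ} [NeZero N] (s : ℝ) (u : Sp N → ℝ) (x : Sp N) (L : ℝ) : Prop :=
  Tendsto (fun ε : ℝ => aConst N s *
      ∫ z in {z | ε < ‖z - x‖}, (u x - u z) / ‖x - z‖ ^ ((N : ℝ) + 2 * s)) (𝓝[>] 0) (𝓝 L)

/-- `𝔻_s²(u)(x)` exists, is finite and equals `D`. -/
def HasGradSq {N : ℕ} [NeZero N] (s : ℝ) (u : Sp N → ℝ) (x : Sp N) (D : ℝ) : Prop :=
  (∀ ε : ℝ, 0 < ε →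
    IntegrableOn (fun z => (u x - u z) ^ 2 / ‖x - z‖ ^ ((N : ℝ) + 2 * s)) {z | ε < ‖z - x‖}) ∧
  Tendsto (fun ε : ℝ => aConst N s / 2 *
      ∫ z in {z | ε < ‖z - x‖}, (u x - u z) ^ 2 / ‖x - z‖ ^ ((N : ℝ) + 2 * s)) (𝓝[>] 0) (𝓝 D)

/-- `φ` belongs to the test class `𝕏_s`, and `L = (-Δ)^s φ` on `Ω`. -/
def IsTest {N : ℕ} [NeZero N] (s : ℝ) (Ω : Set (Sp N)) (φ L : Sp N → ℝ) : Prop :=
  Continuous φ ∧ Function.support φ ⊆ closure Ω ∧ (∀ x ∈ Ω, HasFracLap s φ x (L x)) ∧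
    ∃ C : ℝ, ∀ x ∈ Ω, |L x| ≤ C

/-- Weak solution of `(-Δ)^s u - μ 𝔻_s²(u) - c u = λ f` in `Ω`, `u = 0` off `Ω`. -/
def IsWeakSol {N : ℕ} [NeZero N] (s : ℝ) (Ω : Set (Sp N)) (μ c f : Sp N → ℝ) (lam : ℝ)
    (u : Sp N → ℝ) : Prop :=
  (∀ x, x ∉ Ω → u x = 0) ∧ IntegrableOn u Ω ∧
    ∃ D : Sp N → ℝ, (∀ᵐ x ∂(volume.restrict Ω), HasGradSq s u x (D x)) ∧ IntegrableOn D Ω ∧
      ∀ φ L : Sp N → ℝ, IsTest s Ω φ L →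
        ∫ x in Ω, (lam * f x + c x * u x + μ x * D x) * φ x = ∫ x in Ω, u x * L x

/-- Regular weak solution: a weak solution in `W^{s,2}_0(Ω) ∩ C^{0,α}(Ω)` for some `α > 0`. -/
def IsRegularSol {N : ℕ} [NeZero N] (s : ℝ) (Ω : Set (Sp N)) (μ c f : Sp N → ℝ) (lam : ℝ)
    (u : Sp N → ℝ) : Prop :=
  IsWeakSol s Ω μ c f lam u ∧ MemLp u 2 volume ∧
    Integrable (fun q : Sp N × Sp N => (u q.1 - u q.2) ^ 2 / ‖q.1 - q.2‖ ^ ((N : ℝ) + 2 * s))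
      (volume.prod volume) ∧
    ∃ α K : NNReal, 0 < α ∧ α ≤ 1 ∧ HolderOnWith K α u Ω

end Pool.Agent.P.MP_c7f95f_an
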