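import Mathlib

/-!
Kernels, second differences and the basic integrability and duality facts.
-/

namespace Pool.Agent.P.MP_c7f95f_an

open MeasureTheory Set Filter Topology Metric

variable {E : Type*} [NormedAddCommGroup E]

/-- The kernel `|h|^(-p)`. -/
noncomputable def ker (p : ℝ) (h : E) : ℝ := (‖h‖ ^ p)⁻¹

/-- The truncated kernel. -/
noncomputable def wt (p t : ℝ) (h : E) : ℝ := if t < ‖h‖ then ker p h else 0

/-- `min 1 |h|²`. -/
noncomputable def cut (h : E) : ℝ := min 1 (‖h‖ ^ 2)

/-- The second difference. -/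
def sd {F : Type*} [AddCommGroup F] (f : E → F) (x h : E) : F :=
  f x + f x - f (x + h) - f (x - h)

theorem ker_nonneg (p : ℝ) (h : E) : 0 ≤ ker p h := by unfold ker; positivity

theorem wt_nonneg (p t : ℝ) (h : E) : 0 ≤ wt p t h := by
  unfold wt; split_ifs; exacts [ker_nonneg _ _, le_rfl]

theorem wt_le_ker (p t : ℝ) (h : E) : wt p t h ≤ ker p h := by
  unfold wt; split_ifs; exacts [le_rfl, ker_nonneg _ _]

theorem cut_nonneg (h : E) : 0 ≤ cut h := by unfold cut; positivity

theorem cut_le_one (h : E) : cut h ≤ 1 := min_le_left _ _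

theorem cut_le_sq (h : E) : cut h ≤ ‖h‖ ^ 2 := min_le_right _ _

theorem ker_neg (p : ℝ) (h : E) : ker p (-h) = ker p h := by simp [ker]

theorem wt_neg (p t : ℝ) (h : E) : wt p t (-h) = wt p t h := by simp [wt, ker_neg]

theorem ker_zero {p : ℝ} (hp : p ≠ 0) : ker p (0 : E) = 0 := by simp [ker, Real.zero_rpow hp]

theorem wt_zero {p : ℝ} (hp : p ≠ 0) (h : E) : wt p 0 h = ker p h := by
  unfold wt
  split_ifs with h0
  · rfl
  · have : h = 0 := by simpa using h0
    rw [this, ker_zero hp]

theorem le_mul_cut {a M₁ M₂ : ℝ} {h : E} (h1 : a ≤ M₁) (h2 : a ≤ M₂ * ‖h‖ ^ 2) (hM₁ : 0 ≤ M₁)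
    (hM₂ : 0 ≤ M₂) : a ≤ (M₁ + M₂) * cut h := by
  unfold cut
  rcases le_total 1 (‖h‖ ^ 2) with hh | hh
  · rw [min_eq_left hh]; linarith
  · rw [min_eq_right hh]; nlinarith [sq_nonneg ‖h‖]

theorem abs_sd_le {f : E → ℝ} {B : ℝ} (hB : ∀ x, |f x| ≤ B) (x h : E) : |sd f x h| ≤ 4 * B := by
  have h1 := abs_le.mp (hB x)
  have h2 := abs_le.mp (hB (x + h))
  have h3 := abs_le.mp (hB (x - h))
  unfold sd
  rw [abs_le]; constructor <;> linarith

theorem tendsto_wt {p : ℝ} (hp : p ≠ 0) (h : E) :
    Tendsto (fun t => wt p t h) (𝓝[>] 0) (𝓝 (wt p 0 h)) := by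
  rcases eq_or_ne h 0 with rfl | h0
  · have : ∀ t, wt p t (0 : E) = 0 := fun t => by simp [wt, ker_zero hp]
    simp [this]
  · have hpos : 0 < ‖h‖ := norm_pos_iff.mpr h0
    apply tendsto_const_nhds.congr'
    have : ∀ᶠ t in 𝓝[>] (0 : ℝ), t < ‖h‖ := nhdsWithin_le_nhds (gt_mem_nhds hpos)
    filter_upwards [this] with t ht
    simp [wt, ht, hpos]

section secondDiff

variable [NormedSpace ℝ E] {F : Type*} [NormedAddCommGroup F] [NormedSpace ℝ F]

theorem exists_sd_bound {f : E → F} (hf : ContDiff ℝ 2 f) (hc : HasCompactSupport f) :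
    ∃ M : ℝ, 0 ≤ M ∧ ∀ x h, ‖sd f x h‖ ≤ M * cut h := by
  obtain ⟨B, hB⟩ := hc.exists_bound_of_continuous hf.continuous
  have hB0 : 0 ≤ B := (norm_nonneg _).trans (hB 0)
  have hf1 : ContDiff ℝ 1 (fderiv ℝ f) := hf.fderiv_right (by norm_num)
  obtain ⟨L, hL⟩ := hf1.lipschitzWith_of_hasCompactSupport (hc.fderiv ℝ) one_ne_zero
  have hd : Differentiable ℝ f := hf.differentiable (by norm_num)
  refine ⟨4 * B + 2 * L, by positivity, fun x h => le_mul_cut ?_ ?_ (by positivity) (by positivity)⟩
  · unfold sd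
    calc ‖f x + f x - f (x + h) - f (x - h)‖ ≤ ‖f x‖ + ‖f x‖ + ‖f (x + h)‖ + ‖f (x - h)‖ := by
          refine (norm_sub_le _ _).trans ?_
          gcongr
          refine (norm_sub_le _ _).trans ?_
          gcongr
          exact norm_add_le _ _
      _ ≤ 4 * B := by linarith [hB x, hB (x + h), hB (x - h)]
  · have key : ∀ k ∈ closedBall (0 : E) ‖h‖, HasFDerivWithinAt (fun k => sd f x k)
        (fderiv ℝ f (x - k) - fderiv ℝ f (x + k)) (closedBall (0 : E) ‖h‖) k := by
      intro k _
      have h1 : HasFDerivAt (fun k => f (x + k)) (fderiv ℝ f (x + k)) k := by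
        simpa [Function.comp_def] using
          (hd (x + k)).hasFDerivAt.comp k ((hasFDerivAt_id k).const_add x)
      have h2 : HasFDerivAt (fun k => f (x - k)) (-fderiv ℝ f (x - k)) k := by
        simpa [Function.comp_def] using
          (hd (x - k)).hasFDerivAt.comp k ((hasFDerivAt_id k).const_sub x)
      have h3 : HasFDerivAt (fun k => sd f x k) _ k := (h1.const_sub (f x + f x)).sub h2
      refine HasFDerivAt.hasFDerivWithinAt ?_
      convert h3 using 1
      abel
    have hb : ∀ k ∈ closedBall (0 : E) ‖h‖,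
        ‖fderiv ℝ f (x - k) - fderiv ℝ f (x + k)‖ ≤ 2 * L * ‖h‖ := by
      intro k hk
      have hk' : ‖k‖ ≤ ‖h‖ := by simpa using hk
      have := hL.dist_le_mul (x - k) (x + k)
      rw [dist_eq_norm, dist_eq_norm] at this
      have e : x - k - (x + k) = -(k + k) := by abel
      rw [e, norm_neg] at this
      have h2 : ‖k + k‖ ≤ 2 * ‖h‖ := (norm_add_le _ _).trans (by linarith)
      calc _ ≤ L * ‖k + k‖ := this
        _ ≤ L * (2 * ‖h‖) := by gcongr
        _ = 2 * L * ‖h‖ := by ring
    have := (convex_closedBall (0 : E) ‖h‖).norm_image_sub_le_of_norm_hasFDerivWithin_le key hb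
      (x := 0) (y := h) (by simp) (by simp)
    have e0 : sd f x 0 = 0 := by simp [sd]
    rw [e0, sub_zero, sub_zero] at this
    calc _ ≤ 2 * L * ‖h‖ * ‖h‖ := this
      _ = 2 * L * ‖h‖ ^ 2 := by ring

end secondDiff

variable [InnerProductSpace ℝ E] [FiniteDimensional ℝ E] [MeasurableSpace E] [BorelSpace E]

omit [InnerProductSpace ℝ E] [FiniteDimensional ℝ E] in
@[fun_prop]
theorem measurable_ker (p : ℝ) : Measurable (ker p : E → ℝ) := by
  unfold ker; fun_prop

omit [InnerProductSpace ℝ E] [FiniteDimensional ℝ E] in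
@[fun_prop]
theorem measurable_wt (p t : ℝ) : Measurable (wt p t : E → ℝ) := by
  unfold wt
  exact Measurable.ite (measurableSet_lt measurable_const measurable_norm) (measurable_ker p)
    measurable_const

omit [InnerProductSpace ℝ E] [FiniteDimensional ℝ E] in
@[fun_prop]
theorem measurable_cut : Measurable (cut : E → ℝ) := by
  unfold cut; fun_prop

theorem measurable_sd {f : E → ℝ} (hf : Measurable f) :
    Measurable (fun q : E × E => sd f q.1 q.2) := by
  unfold sd
  exact (((hf.comp measurable_fst).add (hf.comp measurable_fst)).sub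
    (hf.comp (measurable_fst.add measurable_snd))).sub
    (hf.comp (measurable_fst.sub measurable_snd))

theorem measurable_sd_right {f : E → ℝ} (hf : Measurable f) (x : E) :
    Measurable (fun h : E => sd f x h) :=
  (measurable_sd hf).comp (measurable_const.prodMk measurable_id)

omit [InnerProductSpace ℝ E] [FiniteDimensional ℝ E] [BorelSpace E] [NormedAddCommGroup E] in
theorem integral_four {ν : Measure E} {a b c d : E → ℝ} (ha : Integrable a ν) (hb : Integrable b ν)
    (hc : Integrable c ν) (hd : Integrable d ν) :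
    ∫ x, (a x + b x - c x - d x) ∂ν =
      (∫ x, a x ∂ν) + (∫ x, b x ∂ν) - (∫ x, c x ∂ν) - ∫ x, d x ∂ν := by
  have h1 : Integrable (fun x => a x + b x) ν := ha.add hb
  have h2 : Integrable (fun x => a x + b x - c x) ν := h1.sub hc
  rw [integral_sub h2 hd, integral_sub h1 hc, integral_add ha hb]

/-- The standing assumptions on the exponent `p = N + 2 s`. -/
structure Expo (E : Type*) [NormedAddCommGroup E] [InnerProductSpace ℝ E] (p : ℝ) : Prop where
  two : 2 ≤ Module.finrank ℝ E
  lo : (Module.finrank ℝ E : ℝ) < p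
  hi : p < Module.finrank ℝ E + 2

omit [FiniteDimensional ℝ E] [MeasurableSpace E] [BorelSpace E] in
theorem Expo.two_lt {p : ℝ} (hp : Expo E p) : 2 < p := by
  have : (2 : ℝ) ≤ Module.finrank ℝ E := by exact_mod_cast hp.two
  linarith [hp.lo]

theorem integrable_cut_ker {p : ℝ} (hp : Expo E p) :
    Integrable (fun h : E => cut h * ker p h) := by
  have hp2 := hp.two_lt
  have hm : Measurable (fun h : E => cut h * ker p h) := by fun_prop
  rw [← integrableOn_univ, ← union_compl_self (ball (0 : E) 1)]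
  refine IntegrableOn.union ?_ ?_
  · refine integrableOn_ball_of_norm_le_rpow (C := 1) (α := p - 2) (by linarith [hp.two])
      (by linarith [hp.hi]) (Eventually.of_forall fun h => ?_) hm.aestronglyMeasurable
    rw [Real.norm_of_nonneg (mul_nonneg (cut_nonneg h) (ker_nonneg p h))]
    rcases eq_or_ne h 0 with rfl | h0
    · rw [ker_zero (by linarith), mul_zero]; positivity
    · have hpos : 0 < ‖h‖ := norm_pos_iff.mpr h0
      calc cut h * ker p h ≤ ‖h‖ ^ 2 * ker p h := by gcongr; exacts [ker_nonneg _ _, cut_le_sq h]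
        _ = 1 * ‖h‖ ^ (-(p - 2)) := by
          rw [ker, one_mul, neg_sub, Real.rpow_sub hpos, div_eq_mul_inv]; norm_cast
  · refine Integrable.mono' (g := fun h : E => 2 ^ p * (1 + ‖h‖) ^ (-p))
      ((integrable_one_add_norm hp.lo).const_mul _).integrableOn hm.aestronglyMeasurable ?_
    rw [ae_restrict_iff' measurableSet_ball.compl]
    refine Eventually.of_forall fun h hh => ?_
    have h1 : 1 ≤ ‖h‖ := by simpa using hh
    rw [Real.norm_of_nonneg (mul_nonneg (cut_nonneg h) (ker_nonneg p h))]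
    calc cut h * ker p h ≤ 1 * ker p h := by gcongr; exacts [ker_nonneg _ _, cut_le_one h]
      _ = 2 ^ p * (2 * ‖h‖) ^ (-p) := by
          rw [ker, one_mul, Real.mul_rpow (by norm_num) (norm_nonneg _), Real.rpow_neg (by norm_num),
            Real.rpow_neg (norm_nonneg _), ← mul_assoc, mul_inv_cancel₀ (by positivity), one_mul]
      _ ≤ 2 ^ p * (1 + ‖h‖) ^ (-p) := by
          gcongr ?_ * ?_
          exact Real.rpow_le_rpow_of_nonpos (by positivity) (by linarith) (by linarith)

theorem integrable_wt {p t : ℝ} (hp : Expo E p) (ht : 0 < t) : Integrable (wt p t : E → ℝ) := by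
  have hm : 0 < min 1 (t ^ 2) := by positivity
  refine Integrable.mono' ((integrable_cut_ker hp).const_mul (min 1 (t ^ 2))⁻¹)
    (measurable_wt p t).aestronglyMeasurable (Eventually.of_forall fun h => ?_)
  rw [Real.norm_of_nonneg (wt_nonneg p t h)]
  unfold wt
  split_ifs with hh
  · have : min 1 (t ^ 2) ≤ cut h := min_le_min le_rfl (by gcongr)
    rw [← mul_assoc]
    refine le_mul_of_one_le_left (ker_nonneg _ _) ?_
    rw [inv_mul_eq_div, one_le_div hm]; exact this
  · exact mul_nonneg (by positivity) (mul_nonneg (cut_nonneg h) (ker_nonneg p h))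

theorem integrable_prod_add {g w : E → ℝ} (hg : Integrable g) (hw : Integrable w) :
    Integrable (fun q : E × E => g (q.1 + q.2) * w q.2) (volume.prod volume) :=
  (measurePreserving_add_prod volume volume).integrable_comp_of_integrable (hg.mul_prod hw)

theorem integrable_prod_sub {g w : E → ℝ} (hg : Integrable g) (hw : Integrable w) :
    Integrable (fun q : E × E => g (q.1 - q.2) * w q.2) (volume.prod volume) :=
  (measurePreserving_sub_prod volume volume).integrable_comp_of_integrable (hg.mul_prod hw)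

/-- A function on the product dominated by `cut * ker` and vanishing unless one of `x`, `x + h`,
`x - h` lies in a compact set is integrable. -/
theorem integrable_prod_of_cut {p : ℝ} (hp : Expo E p) {Q : E × E → ℝ} (hQ : Measurable Q)
    {K : Set E} (hK : IsCompact K) {M : ℝ} (hb : ∀ q, |Q q| ≤ M * (cut q.2 * ker p q.2))
    (h0 : ∀ q : E × E, q.1 ∉ K → q.1 + q.2 ∉ K → q.1 - q.2 ∉ K → Q q = 0) :
    Integrable Q (volume.prod volume) := by
  have hi : Integrable (K.indicator (fun _ => (1 : ℝ))) :=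
    (integrableOn_const hK.measure_lt_top.ne).integrable_indicator hK.measurableSet
  have hJ := (integrable_cut_ker hp).const_mul M
  refine Integrable.mono' (((hi.mul_prod hJ).add (integrable_prod_add hi hJ)).add
    (integrable_prod_sub hi hJ)) hQ.aestronglyMeasurable (Eventually.of_forall fun q => ?_)
  have hn : 0 ≤ M * (cut q.2 * ker p q.2) := (abs_nonneg _).trans (hb q)
  have hq := hb q
  simp only [Pi.add_apply, Real.norm_eq_abs, indicator]
  split_ifs with h1 h2 h3 h4 h5 h6 h7 <;> first | linarith | skip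
  rw [h0 q h1 ‹_› ‹_›]; simp

/-- The truncated symmetric operator. -/
noncomputable def S (p t : ℝ) (f : E → ℝ) (x : E) : ℝ := ∫ h, sd f x h * wt p t h

/-- Test functions with a good second difference. -/
structure Nice (ψ : E → ℝ) : Prop where
  cont : Continuous ψ
  supp : HasCompactSupport ψ
  bd : ∃ M : ℝ, 0 ≤ M ∧ ∀ x h, |sd ψ x h| ≤ M * cut h

omit [FiniteDimensional ℝ E] [MeasurableSpace E] [BorelSpace E] in
theorem Nice.of_contDiff {ψ : E → ℝ} (hf : ContDiff ℝ 2 ψ) (hc : HasCompactSupport ψ) : Nice ψ :=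
  ⟨hf.continuous, hc, exists_sd_bound hf hc⟩

theorem Nice.integrable {ψ : E → ℝ} (hψ : Nice ψ) : Integrable ψ :=
  hψ.cont.integrable_of_hasCompactSupport hψ.supp

theorem Nice.integrable_prod {p : ℝ} (hp : Expo E p) {ψ : E → ℝ} (hψ : Nice ψ) (t : ℝ) :
    Integrable (fun q : E × E => sd ψ q.1 q.2 * wt p t q.2) (volume.prod volume) := by
  obtain ⟨M, hM, hb⟩ := hψ.bd
  refine integrable_prod_of_cut hp (M := M)
    ((measurable_sd hψ.cont.measurable).mul (by fun_prop)) hψ.supp (fun q => ?_) (fun q h1 h2 h3 => ?_)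
  · rw [abs_mul, abs_of_nonneg (wt_nonneg _ _ _), ← mul_assoc]
    exact mul_le_mul (hb _ _) (wt_le_ker _ _ _) (wt_nonneg _ _ _) (mul_nonneg hM (cut_nonneg _))
  · simp [sd, image_eq_zero_of_notMem_tsupport h1, image_eq_zero_of_notMem_tsupport h2,
      image_eq_zero_of_notMem_tsupport h3]

theorem Nice.integrable_S {p : ℝ} (hp : Expo E p) {ψ : E → ℝ} (hψ : Nice ψ) (t : ℝ) :
    Integrable (S p t ψ) :=
  (hψ.integrable_prod hp t).integral_prod_left

theorem integrable_bdd_mul_prod {f : E → ℝ} (hf : Measurable f) {B : ℝ} (hB : ∀ x, |f x| ≤ B)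
    {Q : E × E → ℝ} (hQ : Integrable Q (volume.prod volume)) :
    Integrable (fun q : E × E => f q.1 * Q q) (volume.prod volume) :=
  hQ.bdd_mul (c := B) (hf.comp measurable_fst).aestronglyMeasurable
    (Eventually.of_forall fun q => hB q.1)

theorem integral_mul_sd {f g : E → ℝ} (hf : Measurable f) {B : ℝ} (hB : ∀ x, |f x| ≤ B)
    (hg : Integrable g) (h : E) : ∫ x, g x * sd f x h = ∫ x, f x * sd g x h := by
  have i0 : ∀ k : E, Integrable (fun x => g x * f (x + k)) := fun k =>
    hg.mul_bdd (c := B) (hf.comp (measurable_add_const k)).aestronglyMeasurable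
      (Eventually.of_forall fun x => hB _)
  have i1 : ∀ k : E, Integrable (fun x => f x * g (x + k)) := fun k =>
    (hg.comp_add_right k).bdd_mul (c := B) hf.aestronglyMeasurable
      (Eventually.of_forall fun x => hB _)
  have e : ∀ k : E, ∫ x, g x * f (x + k) = ∫ x, f x * g (x + -k) := fun k => by
    rw [← integral_add_right_eq_self _ (-k)]
    simp [mul_comm]
  have l : ∫ x, g x * sd f x h = (∫ x, g x * f (x + 0)) + (∫ x, g x * f (x + 0))
      - (∫ x, g x * f (x + h)) - ∫ x, g x * f (x + -h) := by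
    rw [← integral_four (i0 0) (i0 0) (i0 h) (i0 (-h))]
    congr 1; ext x; simp only [sd, add_zero, sub_eq_add_neg]; ring
  have r : ∫ x, f x * sd g x h = (∫ x, f x * g (x + 0)) + (∫ x, f x * g (x + 0))
      - (∫ x, f x * g (x + h)) - ∫ x, f x * g (x + -h) := by
    rw [← integral_four (i1 0) (i1 0) (i1 h) (i1 (-h))]
    congr 1; ext x; simp only [sd, add_zero, sub_eq_add_neg]; ring
  rw [l, r, e 0, e h, e (-h), neg_zero, neg_neg]
  ring

theorem integrable_prod_mul_sd {f g w : E → ℝ} (hf : Measurable f) {B : ℝ} (hB : ∀ x, |f x| ≤ B)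
    (hg : Integrable g) (hw : Integrable w) :
    Integrable (fun q : E × E => g q.1 * (sd f q.1 q.2 * w q.2)) (volume.prod volume) := by
  have := (hg.mul_prod hw).mul_bdd (c := 4 * B) (measurable_sd hf).aestronglyMeasurable
    (Eventually.of_forall fun q => abs_sd_le hB q.1 q.2)
  refine this.congr (Eventually.of_forall fun q => ?_)
  simp only; ring

/-- Duality for the truncated operators. -/
theorem integral_mul_S {p t : ℝ} (hp : Expo E p) (ht : 0 < t) {f ψ : E → ℝ} (hf : Measurable f)
    {B : ℝ} (hB : ∀ x, |f x| ≤ B) (hψ : Nice ψ) :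
    ∫ x, ψ x * S p t f x = ∫ x, f x * S p t ψ x := by
  have h1 := integrable_prod_mul_sd hf hB hψ.integrable (integrable_wt hp ht)
  have h2 := integrable_bdd_mul_prod hf hB (hψ.integrable_prod hp t)
  simp only [S, ← integral_const_mul]
  rw [integral_integral_swap (f := fun x h => ψ x * (sd f x h * wt p t h)) h1,
    integral_integral_swap (f := fun x h => f x * (sd ψ x h * wt p t h)) h2]
  congr 1; ext h
  simp only [← mul_assoc, integral_mul_const]
  rw [integral_mul_sd hf hB hψ.integrable]

theorem tendsto_integral_mul_S {p : ℝ} (hp : Expo E p) {f ψ : E → ℝ} (hf : Measurable f)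
    {B : ℝ} (hB : ∀ x, |f x| ≤ B) (hψ : Nice ψ) :
    Tendsto (fun t => ∫ x, f x * S p t ψ x) (𝓝[>] 0) (𝓝 (∫ x, f x * S p 0 ψ x)) := by
  have hp0 : p ≠ 0 := by linarith [hp.two_lt]
  have h2 := fun t => integrable_bdd_mul_prod hf hB (hψ.integrable_prod hp t)
  have e : ∀ t, ∫ x, f x * S p t ψ x =
      ∫ q : E × E, f q.1 * (sd ψ q.1 q.2 * wt p t q.2) ∂(volume.prod volume) := fun t => by
    rw [integral_prod _ (h2 t)]
    simp only [S, ← integral_const_mul]
  simp only [e]
  refine tendsto_integral_filter_of_dominated_convergence _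
    (Eventually.of_forall fun t => (h2 t).aestronglyMeasurable)
    (Eventually.of_forall fun t => Eventually.of_forall fun q => ?_) (h2 0).norm
    (Eventually.of_forall fun q => ((tendsto_wt hp0 q.2).const_mul _).const_mul _)
  simp only [norm_mul, Real.norm_eq_abs, abs_of_nonneg (wt_nonneg _ _ _)]
  gcongr
  rw [wt_zero hp0]; exact wt_le_ker _ _ _

theorem Nice.tendsto_S {p : ℝ} (hp : Expo E p) {ψ : E → ℝ} (hψ : Nice ψ) (x : E) :
    Tendsto (fun t => S p t ψ x) (𝓝[>] 0) (𝓝 (S p 0 ψ x)) := by
  have hp0 : p ≠ 0 := by linarith [hp.two_lt]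
  obtain ⟨M, hM, hb⟩ := hψ.bd
  have hm := measurable_sd_right hψ.cont.measurable x
  refine tendsto_integral_filter_of_dominated_convergence _
    (Eventually.of_forall fun t => (hm.mul (measurable_wt p t)).aestronglyMeasurable)
    (Eventually.of_forall fun t => Eventually.of_forall fun h => ?_)
    ((integrable_cut_ker hp).const_mul M)
    (Eventually.of_forall fun h => (tendsto_wt hp0 h).const_mul _)
  rw [Real.norm_eq_abs, abs_mul, abs_of_nonneg (wt_nonneg _ _ _), ← mul_assoc]
  exact mul_le_mul (hb _ _) (wt_le_ker _ _ _) (wt_nonneg _ _ _) (mul_nonneg hM (cut_nonneg _))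

end Pool.Agent.P.MP_c7f95f_an
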