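import Pool.Agent.P.MP_c7f95f_an.Average
import Pool.Agent.P.MP_c7f95f_an.Defs

/-!
The counterexample to uniqueness.
-/

namespace Pool.Agent.P.MP_c7f95f_an

open MeasureTheory Set Filter Topology Metric

section general

variable {E : Type*} [NormedAddCommGroup E] [InnerProductSpace ℝ E] [FiniteDimensional ℝ E]
  [MeasurableSpace E] [BorelSpace E]

omit [InnerProductSpace ℝ E] [FiniteDimensional ℝ E] [MeasurableSpace E] [BorelSpace E] in
theorem indicator_trunc (p ε : ℝ) (g : E → ℝ) (x h : E) :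
    {z | ε < ‖z - x‖}.indicator (fun z => g z / ‖x - z‖ ^ p) (x + h) = g (x + h) * wt p ε h := by
  simp only [indicator, mem_ofPred_eq, add_sub_cancel_left, sub_add_cancel_left, norm_neg, wt, ker]
  split_ifs
  · rw [div_eq_mul_inv]
  · rw [mul_zero]

omit [InnerProductSpace ℝ E] [FiniteDimensional ℝ E] in
theorem measurableSet_trunc (ε : ℝ) (x : E) : MeasurableSet {z | ε < ‖z - x‖} :=
  (isOpen_lt continuous_const (by fun_prop)).measurableSet

theorem setIntegral_trunc (p ε : ℝ) (g : E → ℝ) (x : E) :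
    ∫ z in {z | ε < ‖z - x‖}, g z / ‖x - z‖ ^ p = ∫ h, g (x + h) * wt p ε h := by
  rw [← integral_indicator (measurableSet_trunc ε x), ← integral_add_left_eq_self _ x]
  simp only [indicator_trunc]

theorem integrableOn_trunc {p ε : ℝ} {g : E → ℝ} {x : E}
    (h : Integrable (fun h => g (x + h) * wt p ε h)) :
    IntegrableOn (fun z => g z / ‖x - z‖ ^ p) {z | ε < ‖z - x‖} := by
  rw [← integrable_indicator_iff (measurableSet_trunc ε x)]
  simp only [← indicator_trunc] at h
  simpa using h.comp_add_left (-x)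

theorem trunc_eq_S {p ε : ℝ} (hp : Expo E p) (hε : 0 < ε) {φ : E → ℝ} (hφ : Measurable φ) {B : ℝ}
    (hB : ∀ x, |φ x| ≤ B) (x : E) :
    ∫ z in {z | ε < ‖z - x‖}, (φ x - φ z) / ‖x - z‖ ^ p = 1 / 2 * S p ε φ x := by
  rw [setIntegral_trunc p ε (fun z => φ x - φ z)]
  have h1 : Integrable (fun h => (φ x - φ (x + h)) * wt p ε h) :=
    (integrable_wt hp hε).bdd_mul (c := B + B)
      (measurable_const.sub (hφ.comp (measurable_const_add x))).aestronglyMeasurable
      (Eventually.of_forall fun h => (abs_sub _ _).trans (add_le_add (hB _) (hB _)))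
  have h2 : Integrable (fun h => (φ x - φ (x - h)) * wt p ε h) := by
    simpa [wt_neg, ← sub_eq_add_neg] using h1.comp_neg
  have h3 : ∫ h, (φ x - φ (x - h)) * wt p ε h = ∫ h, (φ x - φ (x + h)) * wt p ε h := by
    rw [← integral_neg_eq_self]
    simp [wt_neg]
  have h4 : S p ε φ x = (∫ h, (φ x - φ (x + h)) * wt p ε h)
      + ∫ h, (φ x - φ (x - h)) * wt p ε h := by
    rw [← integral_add h1 h2, S]
    congr 1; ext h
    simp only [sd]; ring
  rw [h4, h3]; ring

/-- The unnormalised gradient square. -/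
noncomputable def Gam (p t : ℝ) (u : E → ℝ) (x : E) : ℝ := ∫ h, (u x - u (x + h)) ^ 2 * wt p t h

omit [MeasurableSpace E] [BorelSpace E] [FiniteDimensional ℝ E] in
theorem exists_sq_bound {u : E → ℝ} (hu : ContDiff ℝ 2 u) (hc : HasCompactSupport u) :
    ∃ M : ℝ, 0 ≤ M ∧ ∀ x h, (u x - u (x + h)) ^ 2 ≤ M * cut h := by
  obtain ⟨B, hB⟩ := hc.exists_bound_of_continuous hu.continuous
  obtain ⟨L, hL⟩ := hu.lipschitzWith_of_hasCompactSupport hc (by norm_num)
  refine ⟨(B + B) ^ 2 + L ^ 2, by positivity, fun x h =>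
    le_mul_cut ?_ ?_ (by positivity) (by positivity)⟩
  · exact sq_le_sq' (abs_le.mp ((abs_sub _ _).trans (add_le_add (hB _) (hB _)))).1
      (abs_le.mp ((abs_sub _ _).trans (add_le_add (hB _) (hB _)))).2
  · have := hL.dist_le_mul x (x + h)
    rw [Real.dist_eq, dist_self_add_right] at this
    rw [← mul_pow]
    exact sq_le_sq' (abs_le.mp this).1 (abs_le.mp this).2

theorem gam_facts {p : ℝ} (hp : Expo E p) {u : E → ℝ} (hu : ContDiff ℝ 2 u)
    (hc : HasCompactSupport u) {x₀ : E} (hx₀ : u x₀ ≠ 0) :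
    (∀ t x, Integrable (fun h => (u x - u (x + h)) ^ 2 * wt p t h)) ∧
    (∀ x, Tendsto (fun t => Gam p t u x) (𝓝[>] 0) (𝓝 (Gam p 0 u x))) ∧
    Continuous (Gam p 0 u) ∧ (∀ x, 0 < Gam p 0 u x) ∧
    Integrable (fun q : E × E => (u q.1 - u q.2) ^ 2 / ‖q.1 - q.2‖ ^ p) (volume.prod volume) := by
  have hp0 : p ≠ 0 := by linarith [hp.two_lt]
  have : Nontrivial E := Module.nontrivial_of_finrank_pos (R := ℝ) (by linarith [hp.two])
  obtain ⟨M, hM, hb⟩ := exists_sq_bound hu hc
  have huc := hu.continuous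
  have hJ := (integrable_cut_ker hp).const_mul M
  have hbd : ∀ t x h, ‖(u x - u (x + h)) ^ 2 * wt p t h‖ ≤ M * (cut h * ker p h) := fun t x h => by
    rw [Real.norm_of_nonneg (mul_nonneg (sq_nonneg _) (wt_nonneg _ _ _)), ← mul_assoc]
    exact mul_le_mul (hb _ _) (wt_le_ker _ _ _) (wt_nonneg _ _ _) (mul_nonneg hM (cut_nonneg _))
  have hm : ∀ t x, Measurable (fun h => (u x - u (x + h)) ^ 2 * wt p t h) := fun t x =>
    (Continuous.measurable (by fun_prop)).mul (measurable_wt p t)
  have hi : ∀ t x, Integrable (fun h => (u x - u (x + h)) ^ 2 * wt p t h) := fun t x =>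
    hJ.mono' (hm t x).aestronglyMeasurable (Eventually.of_forall (hbd t x))
  refine ⟨hi, fun x => ?_, ?_, fun x => ?_, ?_⟩
  · exact tendsto_integral_filter_of_dominated_convergence _
      (Eventually.of_forall fun t => (hm t x).aestronglyMeasurable)
      (Eventually.of_forall fun t => Eventually.of_forall (hbd t x)) hJ
      (Eventually.of_forall fun h => (tendsto_wt hp0 h).const_mul _)
  · exact continuous_of_dominated (fun x => (hm 0 x).aestronglyMeasurable)
      (fun x => Eventually.of_forall (hbd 0 x)) hJ (Eventually.of_forall fun h => by fun_prop)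
  · rw [Gam, integral_pos_iff_support_of_nonneg
      (fun h => mul_nonneg (sq_nonneg _) (wt_nonneg _ _ _)) (hi 0 x)]
    have hex : ∃ z, u z ≠ u x := by
      by_cases h0 : u x = 0
      · exact ⟨x₀, by rwa [h0]⟩
      · obtain ⟨z, hz⟩ : ∃ z, z ∉ tsupport u := by
          by_contra hcon
          push Not at hcon
          exact noncompact_univ E (eq_univ_of_forall hcon ▸ hc.isCompact)
        exact ⟨z, by rw [image_eq_zero_of_notMem_tsupport hz]; exact fun h => h0 h.symm⟩
    obtain ⟨z, hz⟩ := hex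
    have hopen : IsOpen {h : E | u (x + h) ≠ u x} := isOpen_ne_fun (by fun_prop) continuous_const
    refine (hopen.measure_pos volume ⟨z - x, by simpa using hz⟩).trans_le (measure_mono ?_)
    intro h hh
    have hh' : u (x + h) ≠ u x := hh
    have h0 : h ≠ 0 := fun e => hh' (by simp [e])
    refine mul_ne_zero (pow_ne_zero 2 (sub_ne_zero.mpr hh'.symm)) ?_
    rw [wt_zero hp0, ker]
    exact inv_ne_zero (Real.rpow_pos_of_pos (norm_pos_iff.mpr h0) p).ne'
  · have h1 : Integrable (fun q : E × E => (u q.1 - u (q.1 + q.2)) ^ 2 * wt p 0 q.2)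
        (volume.prod volume) :=
      integrable_prod_of_cut hp ((Continuous.measurable (by fun_prop)).mul (by fun_prop))
        hc.isCompact (fun q => hbd 0 q.1 q.2) fun q h1 h2 _ => by
          simp [image_eq_zero_of_notMem_tsupport h1, image_eq_zero_of_notMem_tsupport h2]
    refine ((measurePreserving_prod_sub volume volume).integrable_comp_of_integrable h1).congr
      (Eventually.of_forall fun q => ?_)
    simp [wt_zero hp0, ker, norm_sub_rev, div_eq_mul_inv]

end general

variable {N : ℕ} [NeZero N]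

omit [NeZero N] in
theorem expo_of (hN : 2 ≤ N) {s : ℝ} (hs : s ∈ Ioo (1 / 2 : ℝ) 1) :
    Expo (Sp N) ((N : ℝ) + 2 * s) :=
  ⟨by simpa using hN, by simp; linarith [hs.1], by simp; linarith [hs.2]⟩

theorem aConst_pos (hN : 2 ≤ N) {s : ℝ} (hs : s ∈ Ioo (1 / 2 : ℝ) 1) : 0 < aConst N s := by
  have hp := expo_of hN hs
  set p := (N : ℝ) + 2 * s
  have hnn : ∀ ξ : Sp N, 0 ≤ (1 - Real.cos (ξ 0)) / ‖ξ‖ ^ p := fun ξ =>
    div_nonneg (by linarith [Real.cos_le_one (ξ 0)]) (by positivity)
  have hint : Integrable (fun ξ : Sp N => (1 - Real.cos (ξ 0)) / ‖ξ‖ ^ p) := by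
    refine ((integrable_cut_ker hp).const_mul (2 + 1)).mono'
      (Measurable.aestronglyMeasurable (by fun_prop)) (Eventually.of_forall fun ξ => ?_)
    rw [Real.norm_of_nonneg (hnn ξ), ← mul_assoc, div_eq_mul_inv]
    refine mul_le_mul_of_nonneg_right ?_ (ker_nonneg p ξ)
    refine le_mul_cut (by linarith [Real.neg_one_le_cos (ξ 0)]) ?_ (by norm_num) (by norm_num)
    have h1 := Real.one_sub_sq_div_two_le_cos (x := ξ 0)
    have h2 : ξ 0 ^ 2 ≤ ‖ξ‖ ^ 2 := by
      rw [← sq_abs, ← Real.norm_eq_abs]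
      gcongr
      exact PiLp.norm_apply_le ξ 0
    nlinarith [sq_nonneg (ξ 0)]
  rw [aConst, inv_pos, integral_pos_iff_support_of_nonneg hnn hint]
  have hopen : IsOpen {ξ : Sp N | Real.cos (ξ 0) ≠ 1} :=
    isOpen_ne_fun (by fun_prop) continuous_const
  refine (hopen.measure_pos volume ⟨EuclideanSpace.single 0 Real.pi, by simp; norm_num⟩).trans_le
    (measure_mono fun ξ hξ => ?_)
  have hξ' : Real.cos (ξ 0) ≠ 1 := hξ
  have h0 : ξ ≠ 0 := fun e => hξ' (by simp [e])
  exact div_ne_zero (sub_ne_zero.mpr hξ'.symm)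
    (Real.rpow_pos_of_pos (norm_pos_iff.mpr h0) p).ne'

theorem zero_sol (s : ℝ) (Ω : Set (Sp N)) (μ c : Sp N → ℝ) (lam : ℝ) :
    IsRegularSol s Ω μ c 0 lam 0 := by
  refine ⟨⟨fun _ _ => rfl, integrable_zero _ _ _, 0, Eventually.of_forall fun x => ?_,
    integrable_zero _ _ _, fun φ L _ => by simp⟩, MemLp.zero, by simp, 1, 0, one_pos, le_rfl, ?_⟩
  · exact ⟨fun ε _ => by simp, by simp⟩
  · intro x _ y _
    simp

theorem main (hN : 2 ≤ N) {s : ℝ} (hs : s ∈ Ioo (1 / 2 : ℝ) 1) {Ω : Set (Sp N)} (hΩ : IsOpen Ω)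
    (hb : Bornology.IsBounded Ω) (hne : Ω.Nonempty) (hfr : volume (frontier Ω) = 0) {c : Sp N → ℝ}
    (hc : MemLp c ⊤ (volume.restrict Ω)) (lam : ℝ) :
    ∃ μ u : Sp N → ℝ, MemLp μ ⊤ (volume.restrict Ω) ∧ IsRegularSol s Ω μ c 0 lam u ∧
      IsRegularSol s Ω μ c 0 lam 0 ∧ ¬ u =ᵐ[volume.restrict Ω] 0 := by
  have hp := expo_of hN hs
  have ha := aConst_pos hN hs
  set p := (N : ℝ) + 2 * s with hpdef
  set a := aConst N s with hadef
  obtain ⟨x₀, hx₀⟩ := hne
  obtain ⟨u, huΩ, huc, hu, -, hux⟩ :=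
    exists_contDiff_tsupport_subset (n := 2) (hΩ.mem_nhds hx₀)
  have hu' : ContDiff ℝ 2 u := hu
  have hnice : Nice u := Nice.of_contDiff hu' huc
  obtain ⟨hi, hlim, hcont, hpos, hW⟩ := gam_facts hp hu' huc (x₀ := x₀) (by rw [hux]; norm_num)
  have hK : IsCompact (closure Ω) := hb.isCompact_closure
  obtain ⟨y₀, -, hy₀⟩ := hK.exists_isMinOn ⟨x₀, subset_closure hx₀⟩ hcont.continuousOn
  obtain ⟨M, hM⟩ := hnice.exists_bound_S hp
  obtain ⟨Bu, hBu⟩ := huc.exists_bound_of_continuous hu'.continuous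
  have hSm : Measurable (S p 0 u) := measurable_S p 0 hnice.cont.measurable
  have hD0 : ∀ x, a / 2 * Gam p 0 u x ≠ 0 := fun x => (mul_pos (by positivity) (hpos x)).ne'
  refine ⟨fun x => (a / 2 * S p 0 u x - c x * u x) * (a / 2 * Gam p 0 u x)⁻¹, u, ?_,
    ⟨⟨fun x hx => image_eq_zero_of_notMem_tsupport fun h => hx (huΩ h),
      hnice.integrable.integrableOn, fun x => a / 2 * Gam p 0 u x,
      Eventually.of_forall fun x => ⟨fun ε _ => integrableOn_trunc (g := fun z => (u x - u z) ^ 2)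
        (hi ε x), ?_⟩, ?_, ?_⟩,
      hnice.cont.memLp_of_hasCompactSupport huc, hW, ?_⟩, zero_sol s Ω _ c lam, ?_⟩
  · have h1 : MemLp (fun x => a / 2 * S p 0 u x) ⊤ (volume.restrict Ω) :=
      (memLp_top_of_bound hSm.aestronglyMeasurable M (Eventually.of_forall (hM 0))).const_mul _
    have h2 : MemLp u ⊤ (volume.restrict Ω) :=
      memLp_top_of_bound hnice.cont.aestronglyMeasurable Bu (Eventually.of_forall hBu)
    have h3 : MemLp (fun x => (a / 2 * Gam p 0 u x)⁻¹) ⊤ (volume.restrict Ω) := by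
      refine memLp_top_of_bound
        (measurable_const.mul hcont.measurable).inv.aestronglyMeasurable
        (a / 2 * Gam p 0 u y₀)⁻¹ ?_
      rw [ae_restrict_iff' hΩ.measurableSet]
      refine Eventually.of_forall fun x hx => ?_
      rw [Real.norm_of_nonneg (inv_nonneg.mpr (mul_pos (by positivity) (hpos x)).le)]
      exact inv_anti₀ (mul_pos (by positivity) (hpos y₀))
        (mul_le_mul_of_nonneg_left (hy₀ (subset_closure hx)) (by positivity))
    exact MemLp.mul' (p := ⊤) (q := ⊤) h3 (h1.sub (MemLp.mul' (p := ⊤) (q := ⊤) h2 hc))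
  · refine ((hlim x).const_mul (a / 2)).congr fun ε => ?_
    rw [setIntegral_trunc p ε (fun z => (u x - u z) ^ 2)]
    rfl
  · exact ((continuous_const.mul hcont).continuousOn.integrableOn_compact hK).mono_set
      subset_closure
  · rintro φ L ⟨hφ, hφs, hL, C, hC⟩
    have hφc : HasCompactSupport φ := HasCompactSupport.intro hK fun x hx => by
      by_contra h
      exact hx (hφs h)
    obtain ⟨B, hB⟩ := hφc.exists_bound_of_continuous hφ
    have key := integral_by_parts hp (G := fun x => 2 / a * L x) hφ hB hΩ (C := 2 / a * C)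
      (fun x hx => ⟨by
        rw [abs_mul, abs_of_pos (by positivity)]
        exact mul_le_mul_of_nonneg_left (hC x hx) (by positivity), by
        refine ((hL x hx).const_mul (2 / a)).congr' ?_
        filter_upwards [self_mem_nhdsWithin] with ε hε
        rw [trunc_eq_S hp hε hφ.measurable hB]
        field_simp
        rfl⟩) hnice huΩ
    have hcl : closure Ω =ᵐ[volume] Ω := by
      rw [closure_eq_self_union_frontier]
      exact union_ae_eq_left_of_ae_eq_empty (ae_eq_empty.mpr hfr)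
    have e1 : ∫ x in Ω, u x * L x = a / 2 * ∫ x, u x * (2 / a * L x) := by
      rw [setIntegral_eq_integral_of_forall_compl_eq_zero fun x hx => by
        rw [image_eq_zero_of_notMem_tsupport fun h => hx (huΩ h), zero_mul], ← integral_const_mul]
      congr 1; ext x
      field_simp
    have e2 : ∫ x in Ω, a / 2 * (φ x * S p 0 u x) = a / 2 * ∫ x, φ x * S p 0 u x := by
      rw [← setIntegral_congr_set hcl, setIntegral_eq_integral_of_forall_compl_eq_zero fun x hx => by
        rw [show φ x = 0 by by_contra h; exact hx (hφs h), zero_mul, mul_zero], integral_const_mul]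
    rw [e1, key, ← e2]
    congr 1; ext x
    rw [inv_mul_cancel_right₀ (hD0 x)]
    simp only [Pi.zero_apply]
    ring
  · obtain ⟨K, hK⟩ := hu'.lipschitzWith_of_hasCompactSupport huc (by norm_num)
    exact ⟨1, K, one_pos, le_rfl, (holderWith_one.mpr hK).holderOnWith Ω⟩
  · intro h
    have := Measure.eqOn_open_of_ae_eq h hΩ hu'.continuous.continuousOn continuousOn_const hx₀
    rw [hux] at this
    exact one_ne_zero this

end Pool.Agent.P.MP_c7f95f_an
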