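import Pool.Agent.P.MP_c7f95f_an.Main

/-!
Tools for the counterexample with a coefficient bounded below by a positive constant.
-/

namespace Pool.Agent.P.MP_c7f95f_an

open MeasureTheory Set Filter Topology Metric

section general

variable {E : Type*} [NormedAddCommGroup E] [InnerProductSpace ℝ E] [FiniteDimensional ℝ E]
  [MeasurableSpace E] [BorelSpace E]

/-- The unnormalised bilinear form attached to the gradient square. -/
noncomputable def Bil (p : ℝ) (w v : E → ℝ) (x : E) : ℝ :=
  ∫ h, (w x - w (x + h)) * (v x - v (x + h)) * wt p 0 h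

theorem bil_facts {p : ℝ} (hp : Expo E p) {w v : E → ℝ} (hw : ContDiff ℝ 2 w)
    (hwc : HasCompactSupport w) (hv : ContDiff ℝ 2 v) (hvc : HasCompactSupport v) :
    (∀ x, Integrable (fun h => (w x - w (x + h)) * (v x - v (x + h)) * wt p 0 h)) ∧
      Continuous (Bil p w v) := by
  obtain ⟨M, hM, hb⟩ := exists_sq_bound hw hwc
  obtain ⟨M', hM', hb'⟩ := exists_sq_bound hv hvc
  have hwc := hw.continuous
  have hvc := hv.continuous
  have hJ := (integrable_cut_ker hp).const_mul (M + M')
  have hbd : ∀ x h, ‖(w x - w (x + h)) * (v x - v (x + h)) * wt p 0 h‖ ≤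
      (M + M') * (cut h * ker p h) := fun x h => by
    rw [norm_mul, Real.norm_of_nonneg (wt_nonneg _ _ _), ← mul_assoc]
    refine mul_le_mul ?_ (wt_le_ker _ _ _) (wt_nonneg _ _ _)
      (mul_nonneg (add_nonneg hM hM') (cut_nonneg _))
    rw [Real.norm_eq_abs, abs_le]
    constructor <;>
      nlinarith [hb x h, hb' x h, sq_nonneg (w x - w (x + h) - (v x - v (x + h))),
        sq_nonneg (w x - w (x + h) + (v x - v (x + h))), sq_nonneg (w x - w (x + h)),
        sq_nonneg (v x - v (x + h))]
  have hm : ∀ x, Measurable (fun h => (w x - w (x + h)) * (v x - v (x + h)) * wt p 0 h) :=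
    fun x => (Continuous.measurable (by fun_prop)).mul (measurable_wt p 0)
  exact ⟨fun x => hJ.mono' (hm x).aestronglyMeasurable (Eventually.of_forall (hbd x)),
    continuous_of_dominated (fun x => (hm x).aestronglyMeasurable)
      (fun x => Eventually.of_forall (hbd x)) hJ (Eventually.of_forall fun h => by fun_prop)⟩

theorem Nice.s_facts {p : ℝ} (hp : Expo E p) {ψ : E → ℝ} (hψ : Nice ψ) :
    (∀ x, Integrable (fun h => sd ψ x h * wt p 0 h)) ∧ Continuous (S p 0 ψ) := by
  obtain ⟨M, hM, hb⟩ := hψ.bd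
  have hc := hψ.cont
  have hJ := (integrable_cut_ker hp).const_mul M
  have hbd : ∀ x h, ‖sd ψ x h * wt p 0 h‖ ≤ M * (cut h * ker p h) := fun x h => by
    rw [Real.norm_eq_abs, abs_mul, abs_of_nonneg (wt_nonneg _ _ _), ← mul_assoc]
    exact mul_le_mul (hb _ _) (wt_le_ker _ _ _) (wt_nonneg _ _ _) (mul_nonneg hM (cut_nonneg _))
  have hm : ∀ x, Measurable (fun h => sd ψ x h * wt p 0 h) := fun x =>
    (measurable_sd_right hc.measurable x).mul (measurable_wt p 0)
  exact ⟨fun x => hJ.mono' (hm x).aestronglyMeasurable (Eventually.of_forall (hbd x)),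
    continuous_of_dominated (fun x => (hm x).aestronglyMeasurable)
      (fun x => Eventually.of_forall (hbd x)) hJ
      (Eventually.of_forall fun h => by unfold sd; fun_prop)⟩

theorem integral_wt_pos {p : ℝ} (hp : Expo E p) {F : E → ℝ} (hF : Continuous F)
    (h0 : ∀ h, 0 ≤ F h) (hz : F 0 = 0) {k : E} (hk : F k ≠ 0)
    (hi : Integrable (fun h => F h * wt p 0 h)) : 0 < ∫ h, F h * wt p 0 h := by
  have hp0 : p ≠ 0 := by linarith [hp.two_lt]
  rw [integral_pos_iff_support_of_nonneg (fun h => mul_nonneg (h0 h) (wt_nonneg _ _ _)) hi]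
  have hopen : IsOpen {h : E | F h ≠ 0} := isOpen_ne_fun hF continuous_const
  refine (hopen.measure_pos volume ⟨k, hk⟩).trans_le (measure_mono fun h hh => ?_)
  have hh' : F h ≠ 0 := hh
  have h1 : h ≠ 0 := fun e => hh' (by rw [e, hz])
  refine mul_ne_zero hh' ?_
  rw [wt_zero hp0, ker]
  exact inv_ne_zero (Real.rpow_pos_of_pos (norm_pos_iff.mpr h1) p).ne'

theorem integral_wt_neg {p : ℝ} (hp : Expo E p) {F : E → ℝ} (hF : Continuous F)
    (h0 : ∀ h, F h ≤ 0) (hz : F 0 = 0) {k : E} (hk : F k ≠ 0)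
    (hi : Integrable (fun h => F h * wt p 0 h)) : ∫ h, F h * wt p 0 h < 0 := by
  have := integral_wt_pos hp (F := fun h => -F h) hF.neg (fun h => neg_nonneg.2 (h0 h))
    (by simp [hz]) (k := k) (neg_ne_zero.2 hk) (by simpa using hi.neg)
  simp only [neg_mul, integral_neg] at this
  linarith

theorem S_lt_zero {p : ℝ} (hp : Expo E p) {v : E → ℝ} (hv : Nice v) (h0 : ∀ z, 0 ≤ v z) {x₀ x : E}
    (hx₀ : v x₀ ≠ 0) (hx : v x = 0) : S p 0 v x < 0 := by
  have hc := hv.cont
  refine integral_wt_neg hp (F := fun h => sd v x h) (by unfold sd; fun_prop) (fun h => ?_)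
    (by simp [sd]) (k := x₀ - x) ?_ ((hv.s_facts hp).1 x)
  · simp only [sd, hx]
    linarith [h0 (x + h), h0 (x - h)]
  · simp only [sd, hx, add_sub_cancel]
    have := lt_of_le_of_ne (h0 x₀) hx₀.symm
    linarith [h0 (x - (x₀ - x))]

end general

/-- The choice of the coefficients. -/
theorem exists_coeff {X : Type*} [MeasurableSpace X] {K : Set X} {T B v : X → ℝ}
    (hT : Measurable T) (hB : Measurable B) (hv : Measurable v) {δ₁ δ₂ η M : ℝ} (h1 : 0 < δ₁)
    (h12 : δ₁ ≤ δ₂) (hη : 0 < η) (hM : η ≤ M) (bT : ∀ x ∈ K, |T x| ≤ M) (bB : ∀ x ∈ K, |B x| ≤ M)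
    (nT : ∀ x ∈ K, v x ≤ δ₂ → T x ≤ -η) (nB : ∀ x ∈ K, v x ≤ δ₁ → B x ≤ -η)
    (pB : ∀ x ∈ K, δ₂ ≤ v x → η ≤ B x) :
    ∃ (μ c : X → ℝ) (C : ℝ), Measurable μ ∧ Measurable c ∧ ∀ x ∈ K, η / M ≤ μ x ∧ μ x ≤ M / η ∧
      -C ≤ c x ∧ c x ≤ 0 ∧ T x = c x * v x + μ x * B x := by
  have hM0 : 0 < M := hη.trans_le hM
  obtain ⟨μ, hμ⟩ : ∃ μ : X → ℝ,
    μ = fun x => if v x ≤ δ₁ then T x / B x else if v x ≤ δ₂ then η / M else M / η := ⟨_, rfl⟩
  have hμm : Measurable μ := by
    rw [hμ]
    exact Measurable.ite (measurableSet_le hv measurable_const) (hT.div hB)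
      (Measurable.ite (measurableSet_le hv measurable_const) measurable_const measurable_const)
  have hmm : η / M ≤ M / η := by
    rw [div_le_div_iff₀ hM0 hη]; nlinarith
  have hμb : ∀ x ∈ K, η / M ≤ μ x ∧ μ x ≤ M / η := fun x hx => by
    simp only [hμ]
    split_ifs with a b
    · have t1 := nT x hx (a.trans h12)
      have t2 := nB x hx a
      have t3 := (abs_le.1 (bT x hx)).1
      have t4 := (abs_le.1 (bB x hx)).1
      have t5 : 0 < -B x := by linarith
      rw [← neg_div_neg_eq (T x), div_le_div_iff₀ hM0 t5, div_le_div_iff₀ t5 hη]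
      constructor <;> nlinarith
    · exact ⟨le_rfl, hmm⟩
    · exact ⟨hmm, le_rfl⟩
  refine ⟨μ, fun x => if v x ≤ δ₁ then 0 else (T x - μ x * B x) / v x, (M + M / η * M) / δ₁, hμm,
    Measurable.ite (measurableSet_le hv measurable_const) measurable_const
      ((hT.sub (hμm.mul hB)).div hv), fun x hx => ⟨(hμb x hx).1, (hμb x hx).2, ?_⟩⟩
  have hC : 0 ≤ (M + M / η * M) / δ₁ := by positivity
  by_cases a : v x ≤ δ₁
  · have t2 := nB x hx a
    simp only [a, if_true, hμ]
    refine ⟨by linarith, le_rfl, ?_⟩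
    have : B x ≠ 0 := by linarith
    field_simp
    ring
  · have hvx : δ₁ < v x := not_le.1 a
    have hv0 : 0 < v x := h1.trans hvx
    simp only [a, if_false]
    have t3 := abs_le.1 (bT x hx)
    have t4 := abs_le.1 (bB x hx)
    have t5 := hμb x hx
    have t6 : 0 < μ x := (div_pos hη hM0).trans_le t5.1
    have t7 : T x - μ x * B x ≤ 0 := by
      simp only [hμ, a, if_false]
      split_ifs with b
      · have := nT x hx b
        have e : η / M * M = η := by field_simp
        nlinarith [div_pos hη hM0]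
      · have := pB x hx (not_le.1 b).le
        have e : M / η * η = M := by field_simp
        nlinarith [div_pos hM0 hη]
    refine ⟨?_, div_nonpos_of_nonpos_of_nonneg t7 hv0.le, by field_simp; ring⟩
    have t8 : -(M + M / η * M) ≤ T x - μ x * B x := by nlinarith
    rw [← neg_div, div_le_div_iff₀ h1 hv0]
    have t9 : 0 ≤ M + M / η * M := by positivity
    nlinarith

variable {N : ℕ} [NeZero N]

/-- A `C²` function with compact support in `Ω` that solves the equation pointwise is a regular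
weak solution. -/
theorem sol_of_pointwise (hN : 2 ≤ N) {s : ℝ} (hs : s ∈ Ioo (1 / 2 : ℝ) 1) {Ω : Set (Sp N)}
    (hΩ : IsOpen Ω) (hb : Bornology.IsBounded Ω) (hfr : volume (frontier Ω) = 0)
    {μ c f u : Sp N → ℝ} {lam : ℝ} (hu : ContDiff ℝ 2 u) (huc : HasCompactSupport u)
    (huΩ : tsupport u ⊆ Ω) {x₀ : Sp N} (hx₀ : u x₀ ≠ 0)
    (heq : ∀ x ∈ Ω, lam * f x + c x * u x + μ x * (aConst N s / 2 * Gam ((N : ℝ) + 2 * s) 0 u x) =
      aConst N s / 2 * S ((N : ℝ) + 2 * s) 0 u x) :
    IsRegularSol s Ω μ c f lam u := by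
  have hp := expo_of hN hs
  have ha := aConst_pos hN hs
  set p := (N : ℝ) + 2 * s with hpdef
  set a := aConst N s with hadef
  have hnice : Nice u := Nice.of_contDiff hu huc
  obtain ⟨hi, hlim, hcont, -, hW⟩ := gam_facts hp hu huc hx₀
  have hK : IsCompact (closure Ω) := hb.isCompact_closure
  refine ⟨⟨fun x hx => image_eq_zero_of_notMem_tsupport fun h => hx (huΩ h),
      hnice.integrable.integrableOn, fun x => a / 2 * Gam p 0 u x,
      Eventually.of_forall fun x => ⟨fun ε _ => integrableOn_trunc (g := fun z => (u x - u z) ^ 2)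
        (hi ε x), ?_⟩, ?_, ?_⟩,
      hnice.cont.memLp_of_hasCompactSupport huc, hW, ?_⟩
  · refine ((hlim x).const_mul (a / 2)).congr fun ε => ?_
    rw [setIntegral_trunc p ε (fun z => (u x - u z) ^ 2)]
    rfl
  · exact ((continuous_const.mul hcont).continuousOn.integrableOn_compact hK).mono_set
      subset_closure
  · rintro φ L ⟨hφ, hφs, hL, C, hC⟩
    have hφc : HasCompactSupport φ := HasCompactSupport.intro hK fun x hx => by
      by_contra h
      exact hx (hφs h)
    obtain ⟨B, hB⟩ := hφc.exists_bound_of_continuous hφ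
    have key := integral_by_parts hp (G := fun x => 2 / a * L x) hφ hB hΩ (C := 2 / a * C)
      (fun x hx => ⟨by
        rw [abs_mul, abs_of_pos (by positivity)]
        exact mul_le_mul_of_nonneg_left (hC x hx) (by positivity), by
        refine ((hL x hx).const_mul (2 / a)).congr' ?_
        filter_upwards [self_mem_nhdsWithin] with ε hε
        rw [trunc_eq_S hp hε hφ.measurable hB]
        field_simp
        rfl⟩) hnice huΩ
    have hcl : closure Ω =ᵐ[volume] Ω := by
      rw [closure_eq_self_union_frontier]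
      exact union_ae_eq_left_of_ae_eq_empty (ae_eq_empty.mpr hfr)
    have e1 : ∫ x in Ω, u x * L x = a / 2 * ∫ x, u x * (2 / a * L x) := by
      rw [setIntegral_eq_integral_of_forall_compl_eq_zero fun x hx => by
        rw [image_eq_zero_of_notMem_tsupport fun h => hx (huΩ h), zero_mul], ← integral_const_mul]
      congr 1; ext x
      field_simp
    have e2 : ∫ x in Ω, a / 2 * (φ x * S p 0 u x) = a / 2 * ∫ x, φ x * S p 0 u x := by
      rw [← setIntegral_congr_set hcl, setIntegral_eq_integral_of_forall_compl_eq_zero fun x hx => by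
        rw [show φ x = 0 by by_contra h; exact hx (hφs h), zero_mul, mul_zero], integral_const_mul]
    rw [e1, key, ← e2]
    refine setIntegral_congr_fun hΩ.measurableSet fun x hx => ?_
    simp only
    rw [heq x hx]
    ring
  · obtain ⟨K, hK⟩ := hu.lipschitzWith_of_hasCompactSupport huc (by norm_num)
    exact ⟨1, K, one_pos, le_rfl, (holderWith_one.mpr hK).holderOnWith Ω⟩

end Pool.Agent.P.MP_c7f95f_an
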