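import Pool.Agent.P.MP_c7f95f_an.Pos1

/-!
The counterexample with a coefficient bounded below by a positive constant.
-/

namespace Pool.Agent.P.MP_c7f95f_an

open MeasureTheory Set Filter Topology Metric

theorem exists_gap {X : Type*} [TopologicalSpace X] {K A : Set X} (hK : IsCompact K)
    (hA : IsClosed A) {F : X → ℝ} (hF : Continuous F) (h : ∀ x ∈ A, 0 < F x) :
    ∃ η, 0 < η ∧ ∀ x ∈ K, x ∈ A → η ≤ F x := by
  obtain ⟨η, h1, h2⟩ := (hK.inter_right hA).exists_forall_le' hF.continuousOn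
    (a := 0) fun x hx => h x hx.2
  exact ⟨η, h1, fun x hx hx' => h2 x ⟨hx, hx'⟩⟩

section general

variable {E : Type*} [NormedAddCommGroup E] [InnerProductSpace ℝ E] [FiniteDimensional ℝ E]
  [MeasurableSpace E] [BorelSpace E]

theorem gam_sub {p : ℝ} (hp : Expo E p) {w v : E → ℝ} (hw : ContDiff ℝ 2 w)
    (hwc : HasCompactSupport w) (hv : ContDiff ℝ 2 v) (hvc : HasCompactSupport v) (x : E) :
    Gam p 0 (fun z => w z + v z) x = Gam p 0 (fun z => w z - v z) x + 4 * Bil p w v x := by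
  have h1 := (bil_facts hp (hw.sub hv) (hwc.sub hvc) (hw.sub hv) (hwc.sub hvc)).1 x
  have h2 := ((bil_facts hp hw hwc hv hvc).1 x).const_mul 4
  simp only [Gam, Bil, sq]
  rw [← integral_const_mul, ← integral_add h1 h2]
  congr 1; ext h; ring

theorem s_sub {p : ℝ} (hp : Expo E p) {w v : E → ℝ} (hw : ContDiff ℝ 2 w)
    (hwc : HasCompactSupport w) (hv : ContDiff ℝ 2 v) (hvc : HasCompactSupport v) (x : E) :
    S p 0 (fun z => w z + v z) x = S p 0 (fun z => w z - v z) x + 2 * S p 0 v x := by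
  have h1 := ((Nice.of_contDiff (hw.sub hv) (hwc.sub hvc)).s_facts hp).1 x
  have h2 := (((Nice.of_contDiff hv hvc).s_facts hp).1 x).const_mul 2
  simp only [S]
  rw [← integral_const_mul, ← integral_add h1 h2]
  congr 1; ext h; simp only [sd]; ring

/-- The two functions of the construction and the signs of the bilinear form. -/
theorem exists_pair {p : ℝ} (hp : Expo E p) {Ω : Set E} (hΩ : IsOpen Ω)
    (hb : Bornology.IsBounded Ω) (hne : Ω.Nonempty) {b κ : ℝ} (hb0 : 0 < b) :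
    ∃ (v w ψ : E → ℝ) (x₀ x₁ : E) (τ δ η : ℝ), ContDiff ℝ 2 v ∧ ContDiff ℝ 2 w ∧ Continuous ψ ∧
      HasCompactSupport v ∧ HasCompactSupport w ∧ tsupport v ⊆ Ω ∧ tsupport w ⊆ Ω ∧
      tsupport ψ ⊆ Ω ∧ x₀ ∈ Ω ∧ v x₀ = 1 ∧ w x₀ = 0 ∧ ψ x₁ = 1 ∧ (∀ x, ψ x ∈ Icc (0 : ℝ) 1) ∧
      (∀ x, ψ x * v x = 0) ∧ (∀ x, v x = 0 → w x = τ * ψ x) ∧ 0 < τ ∧ 0 < δ ∧ 0 < η ∧
      (∀ x ∈ closure Ω, v x ≤ δ → b * S p 0 v x + κ * v x ≤ -η) ∧
      (∀ x ∈ closure Ω, v x ≤ δ / 2 → Bil p w v x ≤ -η) ∧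
      ∀ x ∈ closure Ω, δ ≤ v x → η ≤ Bil p w v x := by
  have : Nontrivial E := Module.nontrivial_of_finrank_pos (R := ℝ) (by linarith [hp.two])
  have hK : IsCompact (closure Ω) := hb.isCompact_closure
  obtain ⟨x₀, hx₀⟩ := hne
  have := Module.punctured_nhds_neBot ℝ E x₀
  obtain ⟨x₁, hx₁, hx₁Ω⟩ := Filter.nonempty_of_mem (f := 𝓝[≠] x₀)
    (inter_mem self_mem_nhdsWithin (mem_nhdsWithin_of_mem_nhds (hΩ.mem_nhds hx₀)))
  obtain ⟨v, hvΩ, hvc, hv, hvr, hvx⟩ := exists_contDiff_tsupport_subset (n := 2)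
    ((hΩ.sdiff isClosed_singleton).mem_nhds (⟨hx₀, fun h => hx₁ (Eq.symm h)⟩ : x₀ ∈ Ω \ {x₁}))
  have hx₁v : x₁ ∉ tsupport v := fun h => (hvΩ h).2 rfl
  obtain ⟨ψ, hψΩ, hψc, hψ, hψr, hψx⟩ := exists_contDiff_tsupport_subset (n := 2)
    ((hΩ.sdiff (isClosed_tsupport v)).mem_nhds (⟨hx₁Ω, hx₁v⟩ : x₁ ∈ Ω \ tsupport v))
  replace hv : ContDiff ℝ 2 v := hv
  replace hψ : ContDiff ℝ 2 ψ := hψ
  have hv0 : ∀ x, 0 ≤ v x := fun x => (hvr ⟨x, rfl⟩).1
  have hψ0 : ∀ x, 0 ≤ ψ x := fun x => (hψr ⟨x, rfl⟩).1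
  have hψv : ∀ x, ψ x * v x = 0 := fun x => by
    by_cases h : x ∈ tsupport v
    · rw [image_eq_zero_of_notMem_tsupport fun h' => (hψΩ h').2 h, zero_mul]
    · rw [image_eq_zero_of_notMem_tsupport h, mul_zero]
  have hvn := Nice.of_contDiff hv hvc
  have hvcont := hv.continuous
  have hS := (hvn.s_facts hp).2
  have hT : Continuous fun x => b * S p 0 v x + κ * v x := by fun_prop
  obtain ⟨δ', hδ', hδ'P⟩ := exists_gap hK (isClosed_le continuous_const hT) hvcont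
    (A := {x | 0 ≤ b * S p 0 v x + κ * v x}) fun x hx => by
      refine lt_of_le_of_ne (hv0 x) fun h => ?_
      have h1 := S_lt_zero hp hvn hv0 (x₀ := x₀) (by rw [hvx]; norm_num) h.symm
      have h2 : 0 ≤ b * S p 0 v x + κ * v x := hx
      rw [← h] at h2
      nlinarith
  obtain ⟨δ, hδ⟩ : ∃ δ : ℝ, δ = min (δ' / 2) 1 := ⟨_, rfl⟩
  have hδ0 : 0 < δ := by rw [hδ]; positivity
  have hδ1 : δ ≤ 1 := by rw [hδ]; exact min_le_right _ _
  have hδ2 : δ ≤ δ' / 2 := by rw [hδ]; exact min_le_left _ _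
  obtain ⟨η₁, hη₁, hη₁P⟩ := exists_gap hK (isClosed_closure.inter (isClosed_le hvcont continuous_const))
    (F := fun x => -(b * S p 0 v x + κ * v x)) hT.neg (A := closure Ω ∩ {x | v x ≤ δ})
    fun x hx => by
      by_contra h
      have h1 := hδ'P x hx.1 (show 0 ≤ b * S p 0 v x + κ * v x by linarith)
      have h2 : v x ≤ δ := hx.2
      linarith
  obtain ⟨χ, hχs, -, hχ, hχr, hχx⟩ := exists_contDiff_tsupport_subset (n := 2)
    (Ioo_mem_nhds (show δ / 2 < 3 * δ / 4 by linarith) (show 3 * δ / 4 < δ by linarith))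
  replace hχ : ContDiff ℝ 2 χ := hχ
  have hχ0 : ∀ r, 0 ≤ χ r := fun r => (hχr ⟨r, rfl⟩).1
  have hχz : ∀ r, r ≤ δ / 2 ∨ δ ≤ r → χ r = 0 := fun r hr =>
    image_eq_zero_of_notMem_tsupport fun h => by
      rcases hr with hr | hr <;> linarith [(hχs h).1, (hχs h).2]
  obtain ⟨z₀, hz₀⟩ : 3 * δ / 4 ∈ range v := intermediate_value_univ x₁ x₀ hvcont
    (by rw [image_eq_zero_of_notMem_tsupport hx₁v, hvx]; constructor <;> linarith)
  have hw₁ : ContDiff ℝ 2 fun x => -χ (v x) := (hχ.comp hv).neg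
  have hw₁z : ∀ x, x ∉ tsupport v → -χ (v x) = 0 := fun x hx => by
    rw [image_eq_zero_of_notMem_tsupport hx, hχz 0 (Or.inl (by linarith)), neg_zero]
  have hw₁c : HasCompactSupport fun x => -χ (v x) := HasCompactSupport.intro hvc hw₁z
  have hχc := hχ.continuous
  obtain ⟨hi₁, hB₁⟩ := bil_facts hp hw₁ hw₁c hv hvc
  obtain ⟨hi₂, hB₂⟩ := bil_facts hp hψ hψc hv hvc
  obtain ⟨η₂, hη₂, hη₂P⟩ := exists_gap hK (isClosed_le hvcont continuous_const)
    (F := fun x => -Bil p (fun z => -χ (v z)) v x) hB₁.neg (A := {x | v x ≤ δ / 2}) fun x hx => by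
      have hx' : v x ≤ δ / 2 := hx
      refine neg_pos.2 (integral_wt_neg hp
        (F := fun h => (-χ (v x) - -χ (v (x + h))) * (v x - v (x + h))) (by fun_prop) (fun h => ?_) (by simp) (k := z₀ - x) ?_
        (hi₁ x))
      · rw [hχz _ (Or.inl hx')]
        rcases le_total (v (x + h)) (δ / 2) with h1 | h1
        · rw [hχz _ (Or.inl h1)]; simp
        · nlinarith [hχ0 (v (x + h))]
      · rw [hχz _ (Or.inl hx'), add_sub_cancel, hz₀, hχx]
        linarith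
  obtain ⟨η₃, hη₃, hη₃P⟩ := exists_gap hK (isClosed_le continuous_const hvcont) hB₁
    (A := {x | δ ≤ v x}) fun x hx => by
      have hx' : δ ≤ v x := hx
      refine integral_wt_pos hp
        (F := fun h => (-χ (v x) - -χ (v (x + h))) * (v x - v (x + h))) (by fun_prop) (fun h => ?_) (by simp) (k := z₀ - x) ?_ (hi₁ x)
      · rw [hχz _ (Or.inr hx')]
        rcases le_total δ (v (x + h)) with h1 | h1
        · rw [hχz _ (Or.inr h1)]; simp
        · nlinarith [hχ0 (v (x + h))]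
      · rw [hχz _ (Or.inr hx'), add_sub_cancel, hz₀, hχx]
        linarith
  have hB₂n : ∀ x, Bil p ψ v x ≤ 0 := fun x => integral_nonpos fun h =>
    mul_nonpos_of_nonpos_of_nonneg (by
      nlinarith [hψv x, hψv (x + h), mul_nonneg (hψ0 x) (hv0 (x + h)),
        mul_nonneg (hψ0 (x + h)) (hv0 x)]) (wt_nonneg _ _ _)
  obtain ⟨M, hM⟩ := hK.exists_bound_of_continuousOn hB₂.continuousOn
  have hM0 : 0 ≤ M := (norm_nonneg _).trans (hM x₀ (subset_closure hx₀))
  obtain ⟨τ, hτ⟩ : ∃ τ : ℝ, τ = η₃ / (2 * (M + 1)) := ⟨_, rfl⟩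
  have hτ0 : 0 < τ := by rw [hτ]; positivity
  have hτM : τ * (M + 1) = η₃ / 2 := by rw [hτ]; field_simp
  have hlin : ∀ x, Bil p (fun z => τ * ψ z + -χ (v z)) v x =
      τ * Bil p ψ v x + Bil p (fun z => -χ (v z)) v x := fun x => by
    simp only [Bil]
    rw [← integral_const_mul, ← integral_add ((hi₂ x).const_mul τ) (hi₁ x)]
    congr 1; ext h; ring
  have hwz : ∀ x, x ∉ tsupport ψ ∪ tsupport v → τ * ψ x + -χ (v x) = 0 := fun x hx => by
    rw [hw₁z x fun h => hx (Or.inr h), image_eq_zero_of_notMem_tsupport fun h => hx (Or.inl h)]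
    simp
  refine ⟨v, fun z => τ * ψ z + -χ (v z), ψ, x₀, x₁, τ, δ, min η₁ (min η₂ (η₃ / 2)), hv,
    (contDiff_const.mul hψ).add hw₁, hψ.continuous, hvc,
    HasCompactSupport.intro (hψc.isCompact.union hvc.isCompact) hwz, fun x hx => (hvΩ hx).1, ?_,
    fun x hx => (hψΩ hx).1, hx₀, hvx, ?_, hψx, fun x => hψr ⟨x, rfl⟩, hψv, fun x hx => ?_, hτ0, hδ0,
    by positivity, fun x hx h => ?_, fun x hx h => ?_, fun x hx h => ?_⟩
  · refine (closure_minimal (fun x hx => ?_)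
      ((isClosed_tsupport ψ).union (isClosed_tsupport v))).trans
        (union_subset (fun x hx => (hψΩ hx).1) fun x hx => (hvΩ hx).1)
    by_contra h
    exact hx (hwz x h)
  · have := hψv x₀
    rw [hvx, mul_one] at this
    simp only [this, hvx, hχz 1 (Or.inr hδ1)]
    simp
  · simp only [hx, hχz 0 (Or.inl (by linarith))]
    simp
  · linarith [hη₁P x hx ⟨hx, h⟩, min_le_left η₁ (min η₂ (η₃ / 2))]
  · rw [hlin]
    linarith [hη₂P x hx h, min_le_right η₁ (min η₂ (η₃ / 2)), min_le_left η₂ (η₃ / 2),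
      mul_nonpos_of_nonneg_of_nonpos hτ0.le (hB₂n x)]
  · rw [hlin]
    have h1 := (abs_le.1 (hM x hx)).1
    nlinarith [hη₃P x hx h, min_le_right η₁ (min η₂ (η₃ / 2)), min_le_right η₂ (η₃ / 2)]

end general

variable {N : ℕ} [NeZero N]

theorem main_pos (hN : 2 ≤ N) {s : ℝ} (hs : s ∈ Ioo (1 / 2 : ℝ) 1) {Ω : Set (Sp N)}
    (hΩ : IsOpen Ω) (hb : Bornology.IsBounded Ω) (hne : Ω.Nonempty)
    (hfr : volume (frontier Ω) = 0) {μ₁ κ lam : ℝ} (hμ₁ : 0 < μ₁) (hκ : 0 ≤ κ) (hlam : 0 < lam) :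
    ∃ μ c f u₁ u₂ : Sp N → ℝ, MemLp μ ⊤ (volume.restrict Ω) ∧ MemLp c ⊤ (volume.restrict Ω) ∧
      MemLp f ⊤ (volume.restrict Ω) ∧ (∀ x ∈ Ω, μ₁ ≤ μ x) ∧ (∀ x ∈ Ω, c x ≤ -κ) ∧
      ¬ f ≤ᵐ[volume.restrict Ω] 0 ∧ IsRegularSol s Ω μ c f lam u₁ ∧
      IsRegularSol s Ω μ c f lam u₂ ∧ ¬ u₁ =ᵐ[volume.restrict Ω] u₂ := by
  have hp := expo_of hN hs
  have ha := aConst_pos hN hs
  have hsol := fun μ c f u => sol_of_pointwise (μ := μ) (c := c) (f := f) (u := u) (lam := lam)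
    hN hs hΩ hb hfr
  generalize (N : ℝ) + 2 * s = p at hp hsol
  generalize aConst N s = a at ha hsol
  have hK : IsCompact (closure Ω) := hb.isCompact_closure
  obtain ⟨v, w, ψ, x₀, x₁, τ, δ, η', hv, hw, hψ, hvc, hwc, hvΩ, hwΩ, hψΩ, hx₀, hvx, hwx, hψx, hψr,
    hψv, hwψ, hτ, hδ, hη', nT, nB, pB⟩ := exists_pair hp hΩ hb hne (b := a / 2) (κ := κ)
    (by positivity)
  have hvcont := hv.continuous
  have hS := ((Nice.of_contDiff hv hvc).s_facts hp).2
  have hT : Continuous fun x => a / 2 * S p 0 v x + κ * v x := by fun_prop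
  have hB := (bil_facts hp hw hwc hv hvc).2
  obtain ⟨M₁, hM₁⟩ := hK.exists_bound_of_continuousOn hT.continuousOn
  obtain ⟨M₂, hM₂⟩ := hK.exists_bound_of_continuousOn hB.continuousOn
  obtain ⟨M, hM⟩ : ∃ M : ℝ, M = max η' (max M₁ M₂) := ⟨_, rfl⟩
  have hηM : η' ≤ M := hM ▸ le_max_left _ _
  have hM0 : 0 < M := hη'.trans_le hηM
  obtain ⟨μ₀, c₀, C₀, hμ₀, hc₀, hP⟩ := exists_coeff (K := closure Ω) hT.measurable hB.measurable
    hvcont.measurable (δ₁ := δ / 2) (δ₂ := δ) (η := η') (M := M) (by positivity) (by linarith) hη'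
    hηM (fun x hx => (hM₁ x hx).trans (hM ▸ (le_max_left _ _).trans (le_max_right _ _)))
    (fun x hx => (hM₂ x hx).trans (hM ▸ (le_max_right _ _).trans (le_max_right _ _))) nT nB pB
  obtain ⟨t, ht⟩ : ∃ t : ℝ, t = η' / M / (a * μ₁) := ⟨_, rfl⟩
  have ht0 : 0 < t := by rw [ht]; positivity
  have htw : ContDiff ℝ 2 fun z => t * w z := contDiff_const.mul hw
  have htwc : HasCompactSupport fun z => t * w z := hwc.mul_left
  have hBt : ∀ x, Bil p (fun z => t * w z) v x = t * Bil p w v x := fun x => by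
    simp only [Bil]
    rw [← integral_const_mul]
    congr 1; ext h; ring
  have hsupp : ∀ u : Sp N → ℝ, (∀ x, w x = 0 → v x = 0 → u x = 0) → tsupport u ⊆ Ω := fun u hu =>
    (closure_minimal (fun x hx => by
      by_contra h
      exact hx (hu x (image_eq_zero_of_notMem_tsupport fun h' => h (Or.inl h'))
        (image_eq_zero_of_notMem_tsupport fun h' => h (Or.inr h'))))
      ((isClosed_tsupport w).union (isClosed_tsupport v))).trans (union_subset hwΩ hvΩ)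
  have e1 := gam_sub hp htw htwc hv hvc
  have e2 := s_sub hp htw htwc hv hvc
  have hu₁ := htw.add hv
  have hu₂ := htw.sub hv
  have hu₁c : HasCompactSupport fun z => t * w z + v z := htwc.add hvc
  have hu₂c : HasCompactSupport fun z => t * w z - v z := htwc.sub hvc
  have hS₂ := ((Nice.of_contDiff hu₂ hu₂c).s_facts hp).2
  have hG₂ := (gam_facts hp hu₂ hu₂c (x₀ := x₀) (by simp [hwx, hvx])).2.2.1
  obtain ⟨M₃, hM₃⟩ := hK.exists_bound_of_continuousOn hS₂.continuousOn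
  obtain ⟨M₄, hM₄⟩ := hK.exists_bound_of_continuousOn hG₂.continuousOn
  have hL : ∀ (g : Sp N → ℝ) (C : ℝ), Measurable g → (∀ x ∈ closure Ω, |g x| ≤ C) →
      MemLp g ⊤ (volume.restrict Ω) := fun g C hg hC =>
    memLp_top_of_bound hg.aestronglyMeasurable C
      ((ae_restrict_iff' hΩ.measurableSet).2 (Eventually.of_forall fun x hx =>
        hC x (subset_closure hx)))
  obtain ⟨μ, hμ⟩ : ∃ μ : Sp N → ℝ, μ = fun x => μ₀ x / (a * t) := ⟨_, rfl⟩
  have hμm : Measurable μ := hμ ▸ hμ₀.div_const _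
  have hμb : ∀ x ∈ closure Ω, μ₁ ≤ μ x ∧ μ x ≤ M / η' / (a * t) := fun x hx => by
    simp only [hμ]
    refine ⟨?_, div_le_div_of_nonneg_right (hP x hx).2.1 (by positivity)⟩
    rw [le_div_iff₀ (by positivity)]
    refine le_trans (le_of_eq ?_) (hP x hx).1
    rw [ht]; field_simp
  have hμa : ∀ x ∈ closure Ω, |μ x| ≤ M / η' / (a * t) := fun x hx => by
    rw [abs_of_pos (hμ₁.trans_le (hμb x hx).1)]; exact (hμb x hx).2
  obtain ⟨G, hG⟩ : ∃ G : Sp N → ℝ, G = fun x => a / 2 * S p 0 (fun z => t * w z - v z) x -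
    μ x * (a / 2 * Gam p 0 (fun z => t * w z - v z) x) := ⟨_, rfl⟩
  obtain ⟨A, hA⟩ : ∃ A : ℝ, A = a / 2 * M₃ + M / η' / (a * t) * (a / 2 * M₄) := ⟨_, rfl⟩
  have hGm : Measurable G := hG ▸ (hS₂.measurable.const_mul _).sub
    (hμm.mul (hG₂.measurable.const_mul _))
  have hGb : ∀ x ∈ closure Ω, |G x| ≤ A := fun x hx => by
    simp only [hG, hA]
    refine (abs_sub _ _).trans (add_le_add ?_ ?_)
    · rw [abs_mul, abs_of_pos (by positivity)]
      exact mul_le_mul_of_nonneg_left (hM₃ x hx) (by positivity)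
    · rw [abs_mul, abs_mul, abs_of_pos (show 0 < a / 2 by positivity)]
      exact mul_le_mul (hμa x hx) (mul_le_mul_of_nonneg_left (hM₄ x hx) (by positivity))
        (by positivity) (by positivity)
  have hA0 : 0 ≤ A := (abs_nonneg _).trans (hGb x₀ (subset_closure hx₀))
  obtain ⟨C, hC⟩ : ∃ C : ℝ, C = 4 * (A + 1) / (t * τ) := ⟨_, rfl⟩
  have hC0 : 0 < C := by rw [hC]; positivity
  obtain ⟨c, hc⟩ : ∃ c : Sp N → ℝ, c = fun x => c₀ x - κ - C * ψ x := ⟨_, rfl⟩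
  have hcL : MemLp c ⊤ (volume.restrict Ω) := by
    refine hL c (C₀ + κ + C) (hc ▸ (hc₀.sub_const _).sub (hψ.measurable.const_mul _))
      fun x hx => ?_
    obtain ⟨-, -, h1, h2, -⟩ := hP x hx
    simp only [hc, abs_le]
    constructor <;> nlinarith [(hψr x).1, (hψr x).2]
  obtain ⟨Bu, hBu⟩ := hu₂c.exists_bound_of_continuous hu₂.continuous
  refine ⟨μ, c, fun x => lam⁻¹ * (G x - c x * (t * w x - v x)), fun z => t * w z + v z,
    fun z => t * w z - v z, hL μ _ hμm hμa, hcL, ?_, fun x hx => (hμb x (subset_closure hx)).1,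
    fun x hx => ?_, fun h => ?_, ?_, ?_, fun h => ?_⟩
  · exact ((hL G A hGm hGb).sub (MemLp.mul' (p := ⊤) (q := ⊤)
      (hL _ Bu hu₂.continuous.measurable fun x _ => hBu x) hcL)).const_mul _
  · simp only [hc]
    nlinarith [(hP x (subset_closure hx)).2.2.2.1, (hψr x).1]
  · have hU : IsOpen {x | 1 / 2 < ψ x} := isOpen_lt continuous_const hψ
    have hUΩ : {x | 1 / 2 < ψ x} ⊆ Ω := fun x hx => hψΩ (subset_tsupport _ fun h0 => by
      have h1 : 1 / 2 < ψ x := hx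
      linarith)
    have h' := (ae_restrict_iff' hΩ.measurableSet).1 h
    refine (hU.measure_pos volume ⟨x₁, show 1 / 2 < ψ x₁ by rw [hψx]; norm_num⟩).ne'
      (measure_mono_null (fun x hx => ?_) (ae_iff.1 h'))
    intro hx'
    have h1 : 1 / 2 < ψ x := hx
    have h2 : lam⁻¹ * (G x - c x * (t * w x - v x)) ≤ 0 := hx' (hUΩ hx)
    have h3 : v x = 0 := (mul_eq_zero.1 (hψv x)).resolve_left (by linarith)
    have h4 := (abs_le.1 (hGb x (subset_closure (hUΩ hx)))).1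
    have h5 := (hP x (subset_closure (hUΩ hx))).2.2.2.1
    have h6 : C * (t * τ) = 4 * (A + 1) := by rw [hC]; field_simp
    have h7 : 0 < G x - c x * (t * w x - v x) := by
      rw [hwψ x h3, h3]
      simp only [hc]
      have h8 : 0 ≤ (κ - c₀ x) * (t * (τ * ψ x)) := mul_nonneg (by linarith) (by positivity)
      have h9 : 1 / 4 ≤ ψ x * ψ x := by nlinarith
      have h10 : C * ψ x * (t * (τ * ψ x)) = 4 * (A + 1) * (ψ x * ψ x) := by rw [← h6]; ring
      nlinarith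
    exact absurd h2 (not_le.2 (mul_pos (inv_pos.2 hlam) h7))
  · refine hsol _ _ _ _ hu₁ hu₁c (hsupp _ fun x h1 h2 => by simp [h1, h2]) (x₀ := x₀)
      (by simp [hwx, hvx]) fun x hx => ?_
    have h1 := (hP x (subset_closure hx)).2.2.2.2
    have h2 : μ x * (a * t) = μ₀ x := by simp only [hμ]; field_simp
    rw [mul_inv_cancel_left₀ hlam.ne', e1, e2, hBt]
    simp only [hG, hc]
    linear_combination (-2) * h1 + 2 * Bil p w v x * h2 - 2 * C * hψv x
  · refine hsol _ _ _ _ hu₂ hu₂c (hsupp _ fun x h1 h2 => by simp [h1, h2]) (x₀ := x₀)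
      (by simp [hwx, hvx]) fun x hx => ?_
    rw [mul_inv_cancel_left₀ hlam.ne']
    simp only [hG]
    ring
  · have := Measure.eqOn_open_of_ae_eq h hΩ hu₁.continuous.continuousOn
      hu₂.continuous.continuousOn hx₀
    simp only [hwx, hvx] at this
    linarith

end Pool.Agent.P.MP_c7f95f_an
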