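import Pool.Agent.P.MP_c7f95f_an.SupConv

/-!
Step 2a: the image of a radial bump is an average of the truncated kernels.
-/

namespace Pool.Agent.P.MP_c7f95f_an

open MeasureTheory Set Filter Topology Metric

variable {E : Type*} [NormedAddCommGroup E]

/-- A radial bump supported in the closed unit ball. -/
noncomputable def bump (w : E) : ℝ := expNegInvGlue (1 - ‖w‖ ^ 2)

theorem bump_nonneg (w : E) : 0 ≤ bump w := expNegInvGlue.nonneg _

theorem bump_eq_zero {w : E} (hw : 1 ≤ ‖w‖) : bump w = 0 :=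
  expNegInvGlue.zero_of_nonpos (by nlinarith)

theorem tsupport_bump : tsupport (bump : E → ℝ) ⊆ closedBall 0 1 := by
  refine closure_minimal (fun w hw => ?_) isClosed_closedBall
  by_contra h
  exact hw (bump_eq_zero (by simpa using (not_le.mp (by simpa using h)).le))

theorem lipschitz_inv_rpow {p : ℝ} (hp : 0 < p) {a b : ℝ} (ha : 1 / 2 ≤ a) (hb : 1 / 2 ≤ b) :
    |(a ^ p)⁻¹ - (b ^ p)⁻¹| ≤ p * (1 / 2) ^ (-p - 1) * |a - b| := by
  have key := (convex_Ici (1 / 2 : ℝ)).norm_image_sub_le_of_norm_hasDerivWithin_le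
    (f := fun x : ℝ => x ^ (-p)) (f' := fun x => -p * x ^ (-p - 1)) (C := p * (1 / 2) ^ (-p - 1))
    (fun x hx => (Real.hasDerivAt_rpow_const (Or.inl (by
      have : (1 / 2 : ℝ) ≤ x := hx
      linarith [this] |> fun h : 0 < x => h.ne'))).hasDerivWithinAt)
    (fun x hx => by
      have hx' : (1 / 2 : ℝ) ≤ x := hx
      rw [norm_mul, norm_neg, Real.norm_of_nonneg hp.le,
        Real.norm_of_nonneg (Real.rpow_nonneg (by linarith) _)]
      gcongr ?_ * ?_
      exact Real.rpow_le_rpow_of_nonpos (by norm_num) hx' (by linarith)) hb ha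
  rwa [Real.rpow_neg (by linarith), Real.rpow_neg (by linarith), Real.norm_eq_abs,
    Real.norm_eq_abs] at key

variable [InnerProductSpace ℝ E]

theorem ker_smul (p : ℝ) {r : ℝ} (hr : 0 < r) (v : E) : ker p (r • v) = (r ^ p)⁻¹ * ker p v := by
  rw [ker, ker, norm_smul, Real.norm_of_nonneg hr.le, Real.mul_rpow hr.le (norm_nonneg _), mul_inv]

theorem wt_smul (p t : ℝ) {r : ℝ} (hr : 0 < r) (v : E) :
    wt p t v = r ^ p * wt p (r * t) (r • v) := by
  have h0 : r ^ p ≠ 0 := (Real.rpow_pos_of_pos hr p).ne'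
  unfold wt
  rw [norm_smul, Real.norm_of_nonneg hr.le, ker_smul p hr]
  by_cases h : t < ‖v‖
  · rw [if_pos h, if_pos (mul_lt_mul_of_pos_left h hr), mul_inv_cancel_left₀ h0]
  · rw [if_neg h, if_neg (fun h' => h (lt_of_mul_lt_mul_left h' hr.le)), mul_zero]

theorem contDiff_bump : ContDiff ℝ 3 (bump : E → ℝ) :=
  (expNegInvGlue.contDiff (n := 3)).comp (contDiff_const.sub (contDiff_norm_sq ℝ))

variable [FiniteDimensional ℝ E]

theorem hasCompactSupport_bump : HasCompactSupport (bump : E → ℝ) :=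
  (isCompact_closedBall 0 1).of_isClosed_subset (isClosed_tsupport _) tsupport_bump

theorem nice_bump : Nice (bump : E → ℝ) :=
  Nice.of_contDiff (contDiff_bump.of_le (by norm_num)) hasCompactSupport_bump

variable [MeasurableSpace E] [BorelSpace E]

theorem integral_bump_pos : 0 < ∫ w : E, bump w :=
  nice_bump.cont.integral_pos_of_hasCompactSupport_nonneg_nonzero (x := 0) hasCompactSupport_bump
    bump_nonneg (expNegInvGlue.pos_of_pos (by simp)).ne'

theorem S_bump_radial (p : ℝ) {v w : E} (h : ‖v‖ = ‖w‖) : S p 0 bump v = S p 0 bump w := by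
  set R : E ≃ₗᵢ[ℝ] E := (ℝ ∙ (v - w))ᗮ.reflection
  have hR : R v = w := Submodule.reflection_sub h
  have hb : ∀ z, bump (R z) = bump z := fun z => by simp [bump]
  unfold S
  rw [← R.measurePreserving.integral_comp R.toHomeomorph.measurableEmbedding
    (fun k => sd bump w k * wt p 0 k)]
  congr 1
  ext k
  have e1 : wt p 0 (R k) = wt p 0 k := by simp only [wt, ker, R.norm_map]
  rw [e1, ← hR]
  simp only [sd, ← map_add, ← map_sub, hb]

theorem Nice.exists_bound_S {p : ℝ} (hp : Expo E p) {ψ : E → ℝ} (hψ : Nice ψ) :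
    ∃ M, ∀ t x, |S p t ψ x| ≤ M := by
  obtain ⟨M, hM, hb⟩ := hψ.bd
  refine ⟨∫ h : E, M * (cut h * ker p h), fun t x => ?_⟩
  rw [← Real.norm_eq_abs]
  refine norm_integral_le_of_norm_le ((integrable_cut_ker hp).const_mul _)
    (Eventually.of_forall fun h => ?_)
  rw [Real.norm_eq_abs, abs_mul, abs_of_nonneg (wt_nonneg _ _ _), ← mul_assoc]
  exact mul_le_mul (hb _ _) (wt_le_ker _ _ _) (wt_nonneg _ _ _) (mul_nonneg hM (cut_nonneg _))

theorem exists_deriv_S_bump {p : ℝ} (hp : Expo E p) {e : E} (he : ‖e‖ = 1) :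
    ∃ M : ℝ, ∀ r : ℝ, ∃ d, HasDerivAt (fun r : ℝ => S p 0 bump (r • e)) d r ∧ |d| ≤ M := by
  have hD : ContDiff ℝ 2 (fderiv ℝ (bump : E → ℝ)) := contDiff_bump.fderiv_right (by norm_num)
  obtain ⟨M, hM, hb⟩ := exists_sd_bound hD (hasCompactSupport_bump.fderiv ℝ)
  have hd : Differentiable ℝ (bump : E → ℝ) := contDiff_bump.differentiable (by norm_num)
  have hmeas : Measurable (fun z : E => fderiv ℝ bump z e) :=
    (hD.continuous.clm_apply continuous_const).measurable
  have hsd : ∀ x h : E, sd (fun z : E => fderiv ℝ bump z e) x h = sd (fderiv ℝ bump) x h e :=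
    fun x h => by simp [sd]
  have hbound : ∀ x h : E, ‖sd (fun z : E => fderiv ℝ bump z e) x h * wt p 0 h‖ ≤
      M * (cut h * ker p h) := fun x h => by
    rw [norm_mul, Real.norm_of_nonneg (wt_nonneg _ _ _), ← mul_assoc, hsd]
    refine mul_le_mul ?_ (wt_le_ker _ _ _) (wt_nonneg _ _ _) (mul_nonneg hM (cut_nonneg _))
    refine (ContinuousLinearMap.le_opNorm _ _).trans ?_
    rw [he, mul_one]; exact hb x h
  refine ⟨∫ h : E, M * (cut h * ker p h), fun r => ⟨_,
    (hasDerivAt_integral_of_dominated_loc_of_deriv_le (μ := volume) (s := univ) (x₀ := r)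
      (F := fun r h => sd bump (r • e) h * wt p 0 h)
      (F' := fun r h => sd (fun z : E => fderiv ℝ bump z e) (r • e) h * wt p 0 h)
      (bound := fun h => M * (cut h * ker p h)) univ_mem
      (Eventually.of_forall fun x => ((measurable_sd_right nice_bump.cont.measurable _).mul
        (measurable_wt p 0)).aestronglyMeasurable) ?_
      ((measurable_sd_right hmeas _).mul (measurable_wt p 0)).aestronglyMeasurable
      (Eventually.of_forall fun h x _ => hbound _ h) ((integrable_cut_ker hp).const_mul _)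
      (Eventually.of_forall fun h x _ => ?_)).2, ?_⟩⟩
  · obtain ⟨M', hM', hb'⟩ := (nice_bump (E := E)).bd
    refine ((integrable_cut_ker hp).const_mul M').mono'
      ((measurable_sd_right nice_bump.cont.measurable _).mul
        (measurable_wt p 0)).aestronglyMeasurable (Eventually.of_forall fun h => ?_)
    rw [Real.norm_eq_abs, abs_mul, abs_of_nonneg (wt_nonneg _ _ _), ← mul_assoc]
    exact mul_le_mul (hb' _ _) (wt_le_ker _ _ _) (wt_nonneg _ _ _) (mul_nonneg hM' (cut_nonneg _))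
  · have h1 : ∀ k : E, HasDerivAt (fun r : ℝ => bump (r • e + k)) (fderiv ℝ bump (x • e + k) e) x :=
      fun k => by
        have h2 : HasDerivAt (fun r : ℝ => r • e + k) e x := by
          simpa using ((hasDerivAt_id x).smul_const e).add_const k
        exact (hd (x • e + k)).hasFDerivAt.comp_hasDerivAt x h2
    have h3 := ((((h1 0).add (h1 0)).sub (h1 h)).sub (h1 (-h))).mul_const (wt p 0 h)
    simp only [add_zero, ← sub_eq_add_neg] at h3
    exact h3
  · rw [← Real.norm_eq_abs]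
    exact norm_integral_le_of_norm_le ((integrable_cut_ker hp).const_mul _)
      (Eventually.of_forall fun h => hbound _ h)

theorem S_bump_far {p : ℝ} (hp : Expo E p) {e : E} (he : ‖e‖ = 1) {r : ℝ} (hr : 2 ≤ r) :
    -(1 / 2) * (S p 0 bump (r • e) * r ^ p) = ∫ y : E, bump y * ker p (e - r⁻¹ • y) := by
  have hp0 : p ≠ 0 := by linarith [hp.two_lt]
  have hr0 : 0 < r := by linarith
  have hx : ‖r • e‖ = r := by rw [norm_smul, he, mul_one, Real.norm_of_nonneg hr0.le]
  obtain ⟨B, hB⟩ := (hasCompactSupport_bump (E := E)).exists_bound_of_continuous nice_bump.cont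
  have hint : Integrable (fun h : E => bump (r • e - h) * ker p h) := by
    refine ((integrable_wt hp (t := 1 / 2) (by norm_num)).bdd_mul (c := B)
      (f := fun h : E => bump (r • e - h))
      (nice_bump.cont.measurable.comp (measurable_const.sub measurable_id)).aestronglyMeasurable
      (Eventually.of_forall fun h => hB _)).congr (Eventually.of_forall fun h => ?_)
    simp only [wt]
    split_ifs with hh
    · rfl
    · rw [bump_eq_zero, zero_mul, zero_mul]
      have := norm_sub_norm_le (r • e) h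
      linarith [not_lt.mp hh]
  have hint' : Integrable (fun h : E => bump (r • e + h) * ker p h) := by
    simpa [ker_neg] using hint.comp_neg
  have e1 : ∫ h : E, bump (r • e + h) * ker p h = ∫ h : E, bump (r • e - h) * ker p h := by
    rw [← integral_neg_eq_self]
    simp [ker_neg, sub_eq_add_neg]
  have e2 : ∫ h : E, bump (r • e - h) * ker p h = ∫ y : E, bump y * ker p (r • e - y) := by
    rw [← integral_sub_left_eq_self _ volume (r • e)]
    simp
  have e3 : S p 0 bump (r • e) = -2 * ∫ y : E, bump y * ker p (r • e - y) := by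
    have : S p 0 bump (r • e) = ∫ h : E, (-(bump (r • e + h) * ker p h)
        - bump (r • e - h) * ker p h) := by
      unfold S
      congr 1; ext h
      rw [wt_zero hp0, sd, bump_eq_zero (w := r • e) (by linarith)]
      ring
    have hneg : Integrable (fun h : E => -(bump (r • e + h) * ker p h)) := hint'.neg
    rw [this, integral_sub hneg hint, integral_neg, e1, e2]
    ring
  have e4 : ∀ y : E, ker p (e - r⁻¹ • y) = ker p (r • e - y) * r ^ p := fun y => by
    have : r • e - y = r • (e - r⁻¹ • y) := by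
      rw [smul_sub, smul_smul, mul_inv_cancel₀ hr0.ne', one_smul]
    rw [this, ker_smul p hr0]
    field_simp
  simp only [e4, ← mul_assoc, integral_mul_const]
  rw [e3]; ring

theorem exists_lipschitz_far {p : ℝ} (hp : Expo E p) {e : E} (he : ‖e‖ = 1) :
    ∃ L : ℝ, 0 ≤ L ∧ ∀ τ ∈ Icc (0 : ℝ) (1 / 2), ∀ τ' ∈ Icc (0 : ℝ) (1 / 2),
      |(∫ y : E, bump y * ker p (e - τ • y)) - ∫ y : E, bump y * ker p (e - τ' • y)| ≤
        L * |τ - τ'| := by
  have hp0 : 0 < p := by linarith [hp.two_lt]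
  set L := p * (1 / 2 : ℝ) ^ (-p - 1) with hL
  have hL0 : 0 ≤ L := by positivity
  have hnorm : ∀ τ ∈ Icc (0 : ℝ) (1 / 2), ∀ y : E, ‖y‖ ≤ 1 → 1 / 2 ≤ ‖e - τ • y‖ := by
    intro τ hτ y hy
    have h1 := norm_sub_norm_le e (τ • y)
    rw [he, norm_smul, Real.norm_of_nonneg hτ.1] at h1
    nlinarith [hτ.1, hτ.2, norm_nonneg y]
  have hpt : ∀ τ ∈ Icc (0 : ℝ) (1 / 2), ∀ τ' ∈ Icc (0 : ℝ) (1 / 2), ∀ y : E,
      ‖bump y * ker p (e - τ • y) - bump y * ker p (e - τ' • y)‖ ≤ bump y * (L * |τ - τ'|) := by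
    intro τ hτ τ' hτ' y
    by_cases hy : ‖y‖ ≤ 1
    · rw [← mul_sub, norm_mul, Real.norm_of_nonneg (bump_nonneg y), Real.norm_eq_abs]
      refine mul_le_mul_of_nonneg_left ?_ (bump_nonneg y)
      refine (lipschitz_inv_rpow hp0 (hnorm τ hτ y hy) (hnorm τ' hτ' y hy)).trans ?_
      refine mul_le_mul_of_nonneg_left ((abs_norm_sub_norm_le _ _).trans ?_) hL0
      rw [sub_sub_sub_cancel_left, ← sub_smul, norm_smul, Real.norm_eq_abs, abs_sub_comm]
      exact mul_le_of_le_one_right (abs_nonneg _) hy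
    · simp [bump_eq_zero (not_le.mp hy).le]
  have hint : ∀ τ ∈ Icc (0 : ℝ) (1 / 2), Integrable (fun y : E => bump y * ker p (e - τ • y)) := by
    intro τ hτ
    refine (nice_bump.integrable.mul_const (((1 / 2 : ℝ) ^ p)⁻¹)).mono'
      (nice_bump.cont.measurable.mul (by fun_prop)).aestronglyMeasurable
      (Eventually.of_forall fun y => ?_)
    rw [Real.norm_of_nonneg (mul_nonneg (bump_nonneg y) (ker_nonneg _ _))]
    by_cases hy : ‖y‖ ≤ 1
    · refine mul_le_mul_of_nonneg_left ?_ (bump_nonneg y)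
      exact inv_anti₀ (by positivity) (Real.rpow_le_rpow (by norm_num) (hnorm τ hτ y hy) hp0.le)
    · simp [bump_eq_zero (not_le.mp hy).le]
  refine ⟨(∫ y : E, bump y) * L, mul_nonneg integral_bump_pos.le hL0, fun τ hτ τ' hτ' => ?_⟩
  rw [← integral_sub (hint τ hτ) (hint τ' hτ'), mul_assoc, ← integral_mul_const, ← Real.norm_eq_abs]
  exact norm_integral_le_of_norm_le (nice_bump.integrable.mul_const _)
    (Eventually.of_forall (hpt τ hτ τ' hτ'))

/-- The profile `θ` with `S bump = -2 θ(|w|) |w|^(-p)`, and its derivative. -/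
theorem exists_profile {p : ℝ} (hp : Expo E p) :
    ∃ (θ θ' : ℝ → ℝ) (C : ℝ), 0 ≤ C ∧ (∀ r, HasDerivAt θ (θ' r) r) ∧ θ 0 = 0 ∧ Measurable θ' ∧
      (∀ r, 0 < r → |θ' r| ≤ C * r) ∧ IntegrableOn θ' (Ioi 0) ∧
      (∫ t in Ioi 0, θ' t = ∫ w : E, bump w) ∧
      ∀ w : E, w ≠ 0 → S p 0 bump w = -2 * (θ ‖w‖ * ker p w) := by
  have hp2 := hp.two_lt
  have : Nontrivial E := Module.nontrivial_of_finrank_pos (R := ℝ) (by linarith [hp.two])
  obtain ⟨e, he⟩ := exists_norm_eq E zero_le_one
  obtain ⟨M₀, hM₀⟩ := (nice_bump (E := E)).exists_bound_S hp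
  obtain ⟨M₁, hM₁⟩ := exists_deriv_S_bump hp he
  obtain ⟨L, hL0, hL⟩ := exists_lipschitz_far hp he
  choose b' hb' hb'M using hM₁
  have hM₀0 : 0 ≤ M₀ := (abs_nonneg _).trans (hM₀ 0 0)
  have hM₁0 : 0 ≤ M₁ := (abs_nonneg _).trans (hb'M 0)
  set θ : ℝ → ℝ := fun r => -(1 / 2) * (S p 0 bump (r • e) * r ^ p) with hθ
  have hder : ∀ r, HasDerivAt θ
      (-(1 / 2) * (b' r * r ^ p + S p 0 bump (r • e) * (p * r ^ (p - 1)))) r := fun r =>
    ((hb' r).mul (Real.hasDerivAt_rpow_const (Or.inr (by linarith)))).const_mul _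
  have hder' : ∀ r, HasDerivAt θ (deriv θ r) r := fun r => (hder r).differentiableAt.hasDerivAt
  have hfar : ∀ r, 2 ≤ r → θ r = ∫ y : E, bump y * ker p (e - r⁻¹ • y) := fun r hr =>
    S_bump_far hp he hr
  have hinv : ∀ r : ℝ, 2 ≤ r → r⁻¹ ∈ Icc (0 : ℝ) (1 / 2) := fun r hr =>
    ⟨by positivity, by rw [one_div]; exact inv_anti₀ (by norm_num) hr⟩
  have hb1 : ∀ r, 2 < r → |deriv θ r| ≤ 2 * L * (r ^ 2)⁻¹ := fun r hr => by
    rw [← Real.norm_eq_abs]
    refine (hder' r).le_of_lip' (by positivity) ?_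
    filter_upwards [lt_mem_nhds hr, lt_mem_nhds (show r / 2 < r by linarith)] with x hx hx'
    rw [hfar x hx.le, hfar r hr.le, Real.norm_eq_abs, Real.norm_eq_abs]
    refine (hL _ (hinv x hx.le) _ (hinv r hr.le)).trans ?_
    have hx0 : 0 < x := by linarith
    have hr0 : 0 < r := by linarith
    have : |x⁻¹ - r⁻¹| = (x * r)⁻¹ * |x - r| := by
      rw [inv_sub_inv hx0.ne' hr0.ne', abs_div, abs_sub_comm, abs_of_pos (mul_pos hx0 hr0),
        div_eq_inv_mul]
    rw [this, ← mul_assoc]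
    refine mul_le_mul_of_nonneg_right ?_ (abs_nonneg _)
    rw [mul_comm 2 L, mul_assoc]
    refine mul_le_mul_of_nonneg_left ?_ hL0
    rw [← div_eq_mul_inv, inv_eq_one_div, div_le_div_iff₀ (by positivity) (by positivity)]
    nlinarith
  set C₀ := M₁ * 2 ^ (p - 1) + M₀ * (p * 2 ^ (p - 2)) with hC₀
  have hC₀0 : 0 ≤ C₀ := by positivity
  have hb2 : ∀ r, 0 < r → r ≤ 2 → |deriv θ r| ≤ C₀ * r := fun r hr hr2 => by
    rw [(hder r).deriv, abs_mul]
    have h1 : r ^ p ≤ 2 ^ (p - 1) * r := by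
      rw [show r ^ p = r ^ (p - 1) * r by rw [← Real.rpow_add_one hr.ne']; congr 1; ring]
      gcongr; linarith
    have h2 : r ^ (p - 1) ≤ 2 ^ (p - 2) * r := by
      rw [show r ^ (p - 1) = r ^ (p - 2) * r by rw [← Real.rpow_add_one hr.ne']; congr 1; ring]
      gcongr
    have h3 : |b' r * r ^ p + S p 0 bump (r • e) * (p * r ^ (p - 1))| ≤ C₀ * r := by
      refine (abs_add_le _ _).trans ?_
      rw [abs_mul, abs_mul, abs_of_nonneg (show 0 ≤ r ^ p by positivity),
        abs_of_nonneg (show 0 ≤ p * r ^ (p - 1) by positivity)]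
      calc _ ≤ M₁ * (2 ^ (p - 1) * r) + M₀ * (p * (2 ^ (p - 2) * r)) := by
            gcongr
            exacts [hb'M r, hM₀ _ _]
        _ = C₀ * r := by rw [hC₀]; ring
    have h4 : |(-(1 / 2) : ℝ)| ≤ 1 := by rw [abs_le]; constructor <;> norm_num
    calc _ ≤ 1 * (C₀ * r) := by gcongr
      _ = C₀ * r := one_mul _
  have hb3 : ∀ r, 0 < r → |deriv θ r| ≤ (C₀ + L) * r := fun r hr => by
    rcases le_or_gt r 2 with h | h
    · refine (hb2 r hr h).trans ?_
      gcongr; linarith
    · refine (hb1 r h).trans ?_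
      have : 2 * (r ^ 2)⁻¹ ≤ r := by
        rw [← div_eq_mul_inv, div_le_iff₀ (by positivity)]; nlinarith
      nlinarith [mul_le_mul_of_nonneg_left this hL0, mul_nonneg hC₀0 hr.le]
  have hint : IntegrableOn (deriv θ) (Ioi 0) := by
    rw [← Ioc_union_Ioi_eq_Ioi (show (0 : ℝ) ≤ 2 by norm_num)]
    refine IntegrableOn.union ?_ ?_
    · refine Measure.integrableOn_of_bounded (M := C₀ * 2) (by simp)
        (measurable_deriv θ).aestronglyMeasurable ?_
      rw [ae_restrict_iff' measurableSet_Ioc]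
      refine Eventually.of_forall fun r hr => (hb2 r hr.1 hr.2).trans ?_
      gcongr; exact hr.2
    · refine Integrable.mono' (g := fun r : ℝ => 2 * L * r ^ (-2 : ℝ))
        ((integrableOn_Ioi_rpow_of_lt (by norm_num) (by norm_num)).const_mul _)
        (measurable_deriv θ).aestronglyMeasurable ?_
      rw [ae_restrict_iff' measurableSet_Ioi]
      refine Eventually.of_forall fun r hr => ?_
      have hr' : (2 : ℝ) < r := hr
      rw [Real.rpow_neg (by linarith), Real.rpow_two]
      exact hb1 r hr'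
  have hθ0 : θ 0 = 0 := by simp [hθ, Real.zero_rpow (show p ≠ 0 by linarith)]
  have hlim : Tendsto θ atTop (𝓝 (∫ w : E, bump w)) := by
    rw [tendsto_iff_norm_sub_tendsto_zero]
    have h1 : Tendsto (fun r : ℝ => L * r⁻¹) atTop (𝓝 0) := by
      simpa using tendsto_inv_atTop_zero.const_mul L
    refine squeeze_zero' (Eventually.of_forall fun r => norm_nonneg _) ?_ h1
    filter_upwards [eventually_ge_atTop 2] with r hr
    have := hL _ (hinv r hr) 0 ⟨le_rfl, by norm_num⟩
    rw [← hfar r hr, sub_zero, abs_of_nonneg (hinv r hr).1] at this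
    simpa [ker, he] using this
  refine ⟨θ, deriv θ, C₀ + L, by positivity, hder', hθ0, measurable_deriv θ, hb3, hint, ?_,
    fun w hw => ?_⟩
  · rw [integral_Ioi_of_hasDerivAt_of_tendsto' (fun x _ => hder' x) hint hlim, hθ0, sub_zero]
  · have h1 : ‖w‖ = ‖‖w‖ • e‖ := by rw [norm_smul, he, norm_norm, mul_one]
    have h2 : ‖w‖ ^ p ≠ 0 := (Real.rpow_pos_of_pos (norm_pos_iff.mpr hw) p).ne'
    rw [S_bump_radial p h1, hθ, ker]
    field_simp

end Pool.Agent.P.MP_c7f95f_an
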