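import Pool.Agent.P.MP_c7f95f_an.Kernel

/-!
Step 1: a pointwise upper bound for the limit of the truncated operators gives the same bound in the
sense of distributions (sup-convolution and dominated convergence).
-/

namespace Pool.Agent.P.MP_c7f95f_an

open MeasureTheory Set Filter Topology Metric

variable {E : Type*} [NormedAddCommGroup E] [InnerProductSpace ℝ E] [FiniteDimensional ℝ E]
  [MeasurableSpace E] [BorelSpace E]

theorem exists_supConv {φ : E → ℝ} (hφ : Continuous φ) {B : ℝ} (hB : ∀ x, |φ x| ≤ B) {m : ℝ}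
    (hm : 0 < m) : ∃ (g : E → ℝ) (y : E → E), Measurable g ∧
      (∀ x, g x = φ (y x) - m * ‖x - y x‖ ^ 2) ∧ ∀ x z, φ z - m * ‖x - z‖ ^ 2 ≤ g x := by
  have hB0 : 0 ≤ B := (abs_nonneg _).trans (hB 0)
  have hmax : ∀ x : E, ∃ y : E, ∀ z, φ z - m * ‖x - z‖ ^ 2 ≤ φ y - m * ‖x - y‖ ^ 2 := by
    intro x
    set R := Real.sqrt (2 * B / m) with hR
    have hR0 : 0 ≤ R := Real.sqrt_nonneg _
    have hR2 : m * R ^ 2 = 2 * B := by
      rw [hR, Real.sq_sqrt (by positivity)]; field_simp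
    obtain ⟨y, -, hy⟩ := (isCompact_closedBall x R).exists_isMaxOn ⟨x, mem_closedBall_self hR0⟩
      (f := fun z => φ z - m * ‖x - z‖ ^ 2) (by fun_prop)
    refine ⟨y, fun z => ?_⟩
    by_cases hz : z ∈ closedBall x R
    · exact hy hz
    · have h1 : R ≤ ‖x - z‖ := by
        rw [mem_closedBall, dist_comm, dist_eq_norm, not_le] at hz; exact hz.le
      have h2 : m * R ^ 2 ≤ m * ‖x - z‖ ^ 2 := by gcongr
      have h3 : φ x - m * ‖x - x‖ ^ 2 ≤ φ y - m * ‖x - y‖ ^ 2 := hy (mem_closedBall_self hR0)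
      simp only [sub_self, norm_zero, ne_eq, OfNat.ofNat_ne_zero, not_false_eq_true, zero_pow,
        mul_zero, sub_zero] at h3
      linarith [abs_le.mp (hB z), abs_le.mp (hB x)]
  choose y hy using hmax
  have hbdd : ∀ x : E, BddAbove (range fun z => φ z - m * ‖x - z‖ ^ 2) := fun x =>
    ⟨_, by rintro _ ⟨z, rfl⟩; exact hy x z⟩
  refine ⟨fun x => ⨆ z, (φ z - m * ‖x - z‖ ^ 2), y, ?_, fun x => ?_, fun x z => le_ciSup (hbdd x) z⟩
  · refine (lowerSemicontinuous_ciSup hbdd fun z => ?_).measurable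
    exact Continuous.lowerSemicontinuous (by fun_prop)
  · exact le_antisymm (ciSup_le (hy x)) (le_ciSup (hbdd x) (y x))

theorem integrable_sd_wt {p t : ℝ} (hp : Expo E p) (ht : 0 < t) {f : E → ℝ} (hf : Measurable f)
    {B : ℝ} (hB : ∀ x, |f x| ≤ B) (x : E) : Integrable (fun h => sd f x h * wt p t h) :=
  (integrable_wt hp ht).bdd_mul (c := 4 * B) (measurable_sd_right hf x).aestronglyMeasurable
    (Eventually.of_forall fun h => abs_sd_le hB x h)

theorem measurable_S (p t : ℝ) {f : E → ℝ} (hf : Measurable f) : Measurable (S p t f) :=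
  (StronglyMeasurable.integral_prod_right' (ν := volume)
    (f := fun q : E × E => sd f q.1 q.2 * wt p t q.2)
    ((measurable_sd hf).mul (by fun_prop)).stronglyMeasurable).measurable

theorem abs_S_le {p t : ℝ} (hp : Expo E p) (ht : 0 < t) {f : E → ℝ}
    {B : ℝ} (hB : ∀ x, |f x| ≤ B) (x : E) : |S p t f x| ≤ 4 * B * ∫ h : E, wt p t h := by
  rw [← integral_const_mul, ← Real.norm_eq_abs]
  refine norm_integral_le_of_norm_le ((integrable_wt hp ht).const_mul _)
    (Eventually.of_forall fun h => ?_)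
  rw [Real.norm_eq_abs, abs_mul, abs_of_nonneg (wt_nonneg _ _ _)]
  exact mul_le_mul_of_nonneg_right (abs_sd_le hB x h) (wt_nonneg _ _ _)

theorem step1_aux {p : ℝ} (hp : Expo E p) {φ ψ g : E → ℝ} {y : E → E} (hφ : Continuous φ) {B : ℝ}
    (hB : ∀ x, |φ x| ≤ B) {m : ℝ} (hm : 0 < m) (hg : Measurable g)
    (hgy : ∀ x, g x = φ (y x) - m * ‖x - y x‖ ^ 2) (hgz : ∀ x z, φ z - m * ‖x - z‖ ^ 2 ≤ g x)
    (hψ : Nice ψ) (hψ0 : ∀ x, 0 ≤ ψ x) {C : ℝ}
    (hG : ∀ x ∈ tsupport ψ, ∃ G ≤ C, Tendsto (fun t => S p t φ (y x)) (𝓝[>] 0) (𝓝 G)) :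
    ∫ x, g x * S p 0 ψ x ≤ C * ∫ x, ψ x := by
  have hB0 : 0 ≤ B := (abs_nonneg _).trans (hB 0)
  have hgB : ∀ x, |g x| ≤ B := fun x => by
    have h1 := hgz x x
    have h2 := hgy x
    have h3 : 0 ≤ m * ‖x - y x‖ ^ 2 := by positivity
    simp only [sub_self, norm_zero, ne_eq, OfNat.ofNat_ne_zero, not_false_eq_true, zero_pow,
      mul_zero, sub_zero] at h1
    rw [abs_le]
    constructor <;> linarith [abs_le.mp (hB x), abs_le.mp (hB (y x))]
  have hsd1 : ∀ x h, sd g x h ≤ sd φ (y x) h := fun x h => by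
    have h1 := hgz (x + h) (y x + h)
    have h2 := hgz (x - h) (y x - h)
    rw [add_sub_add_right_eq_sub] at h1
    rw [sub_sub_sub_cancel_right] at h2
    unfold sd
    linarith [hgy x]
  have hsd2 : ∀ x h, sd g x h ≤ (4 * B + 2 * m) * cut h := fun x h => by
    refine le_mul_cut (abs_le.mp (abs_sd_le hgB x h)).2 ?_ (by positivity) (by positivity)
    have h1 := hgz (x + h) (y x)
    have h2 := hgz (x - h) (y x)
    have h3 := parallelogram_law_with_norm ℝ (x - y x) h
    rw [show x + h - y x = x - y x + h by abel] at h1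
    rw [show x - h - y x = x - y x - h by abel] at h2
    unfold sd
    have h4 : m * ‖x - y x + h‖ ^ 2 + m * ‖x - y x - h‖ ^ 2 =
        2 * (m * ‖x - y x‖ ^ 2) + 2 * m * ‖h‖ ^ 2 := by
      linear_combination m * h3
    linarith [hgy x]
  set A := (4 * B + 2 * m) * ∫ h : E, cut h * ker p h with hA
  have hS1 : ∀ t, 0 < t → ∀ x, S p t g x ≤ S p t φ (y x) := fun t ht x =>
    integral_mono (integrable_sd_wt hp ht hg hgB x) (integrable_sd_wt hp ht hφ.measurable hB _)
      fun h => mul_le_mul_of_nonneg_right (hsd1 x h) (wt_nonneg _ _ _)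
  have hS2 : ∀ t, 0 < t → ∀ x, S p t g x ≤ A := fun t ht x => by
    rw [hA, ← integral_const_mul]
    refine integral_mono (integrable_sd_wt hp ht hg hgB x) ((integrable_cut_ker hp).const_mul _)
      fun h => ?_
    simp only [← mul_assoc]
    exact (mul_le_mul_of_nonneg_right (hsd2 x h) (wt_nonneg _ _ _)).trans
      (mul_le_mul_of_nonneg_left (wt_le_ker _ _ _) (mul_nonneg (by positivity) (cut_nonneg _)))
  have hmeas : ∀ t, Measurable (fun x => ψ x * max (S p t g x - C) 0) := fun t =>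
    hψ.cont.measurable.mul (((measurable_S p t hg).sub_const C).max measurable_const)
  have hbound : ∀ t, 0 < t → ∀ x, ‖ψ x * max (S p t g x - C) 0‖ ≤ ψ x * max (A - C) 0 :=
    fun t ht x => by
      rw [Real.norm_of_nonneg (mul_nonneg (hψ0 x) (le_max_right _ _))]
      exact mul_le_mul_of_nonneg_left (max_le_max (by linarith [hS2 t ht x]) le_rfl) (hψ0 x)
  have hlim : Tendsto (fun t => ∫ x, ψ x * max (S p t g x - C) 0) (𝓝[>] 0) (𝓝 (∫ _ : E, (0 : ℝ))) := by
    refine tendsto_integral_filter_of_dominated_convergence (fun x => ψ x * max (A - C) 0)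
      (Eventually.of_forall fun t => (hmeas t).aestronglyMeasurable) ?_
      (hψ.integrable.mul_const _) (Eventually.of_forall fun x => ?_)
    · filter_upwards [self_mem_nhdsWithin] with t ht
      exact Eventually.of_forall (hbound t ht)
    · by_cases hx : x ∈ tsupport ψ
      · obtain ⟨G, hGC, hG⟩ := hG x hx
        have h1 : Tendsto (fun t => max (S p t φ (y x) - C) 0) (𝓝[>] 0) (𝓝 0) := by
          have := (hG.sub_const C).max (tendsto_const_nhds (x := (0 : ℝ)))
          rwa [max_eq_right (by linarith)] at this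
        have h2 : Tendsto (fun t => max (S p t g x - C) 0) (𝓝[>] 0) (𝓝 0) := by
          refine squeeze_zero' (Eventually.of_forall fun t => le_max_right _ _) ?_ h1
          filter_upwards [self_mem_nhdsWithin] with t ht
          exact max_le_max (by linarith [hS1 t ht x]) le_rfl
        simpa using h2.const_mul (ψ x)
      · simp [image_eq_zero_of_notMem_tsupport hx]
  rw [integral_zero] at hlim
  have hlim2 := tendsto_integral_mul_S hp hg hgB hψ
  have hlim3 := hlim.add_const (C * ∫ x, ψ x)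
  rw [zero_add] at hlim3
  refine le_of_tendsto_of_tendsto hlim2 hlim3 ?_
  filter_upwards [self_mem_nhdsWithin] with t ht
  have i1 : Integrable (fun x => ψ x * max (S p t g x - C) 0) :=
    (hψ.integrable.mul_const _).mono' (hmeas t).aestronglyMeasurable
      (Eventually.of_forall (hbound t ht))
  have i2 : Integrable (fun x => ψ x * S p t g x) :=
    hψ.integrable.mul_bdd (measurable_S p t hg).aestronglyMeasurable
      (Eventually.of_forall fun x => abs_S_le hp ht hgB x)
  rw [← integral_mul_S hp ht hg hgB hψ, ← integral_const_mul,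
    ← integral_add i1 (hψ.integrable.const_mul C)]
  refine integral_mono i2 (i1.add (hψ.integrable.const_mul C)) fun x => ?_
  have := mul_le_mul_of_nonneg_left (le_max_left (S p t g x - C) 0) (hψ0 x)
  simp only
  linarith

theorem step1 {p : ℝ} (hp : Expo E p) {φ ψ : E → ℝ} (hφ : Continuous φ) {B : ℝ}
    (hB : ∀ x, |φ x| ≤ B) {Ω : Set E} (hΩ : IsOpen Ω) (hψ : Nice ψ) (hψ0 : ∀ x, 0 ≤ ψ x)
    (hψΩ : tsupport ψ ⊆ Ω) {C : ℝ}
    (hG : ∀ x ∈ Ω, ∃ G ≤ C, Tendsto (fun t => S p t φ x) (𝓝[>] 0) (𝓝 G)) :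
    ∫ x, φ x * S p 0 ψ x ≤ C * ∫ x, ψ x := by
  have hB0 : 0 ≤ B := (abs_nonneg _).trans (hB 0)
  have hm : ∀ n : ℕ, (0 : ℝ) < n + 1 := fun n => by positivity
  choose g y hg hgy hgz using fun n : ℕ => exists_supConv hφ hB (hm n)
  have hlow : ∀ n x, φ x ≤ g n x := fun n x => by simpa using hgz n x x
  have hup : ∀ n x, g n x ≤ φ (y n x) := fun n x => by
    have : 0 ≤ ((n : ℝ) + 1) * ‖x - y n x‖ ^ 2 := by positivity
    linarith [hgy n x]
  have hd : ∀ n x, ‖x - y n x‖ ≤ Real.sqrt (2 * B / ((n : ℝ) + 1)) := fun n x => by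
    apply Real.le_sqrt_of_sq_le
    rw [le_div_iff₀ (hm n)]
    linarith [hgy n x, hlow n x, abs_le.mp (hB x), abs_le.mp (hB (y n x))]
  have hr : Tendsto (fun n : ℕ => Real.sqrt (2 * B / ((n : ℝ) + 1))) atTop (𝓝 0) := by
    have h1 : Tendsto (fun n : ℕ => 2 * B / ((n : ℝ) + 1)) atTop (𝓝 0) :=
      tendsto_const_nhds.div_atTop (tendsto_natCast_atTop_atTop.atTop_add tendsto_const_nhds)
    simpa using h1.sqrt
  obtain ⟨δ, hδ, hδΩ⟩ := hψ.supp.isCompact.exists_cthickening_subset_open hΩ hψΩ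
  have hlim : Tendsto (fun n => ∫ x, g n x * S p 0 ψ x) atTop (𝓝 (∫ x, φ x * S p 0 ψ x)) := by
    refine tendsto_integral_of_dominated_convergence (fun x => B * ‖S p 0 ψ x‖)
      (fun n => ((hg n).mul (measurable_S p 0 hψ.cont.measurable)).aestronglyMeasurable)
      ((hψ.integrable_S hp 0).norm.const_mul B) (fun n => Eventually.of_forall fun x => ?_)
      (Eventually.of_forall fun x => ?_)
    · rw [norm_mul]
      gcongr
      rw [Real.norm_eq_abs, abs_le]
      constructor <;>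
        linarith [hlow n x, hup n x, abs_le.mp (hB x), abs_le.mp (hB (y n x))]
    · refine Tendsto.mul_const _ ?_
      have hy : Tendsto (fun n => y n x) atTop (𝓝 x) := by
        rw [tendsto_iff_norm_sub_tendsto_zero]
        refine squeeze_zero (fun n => norm_nonneg _) (fun n => ?_) hr
        rw [norm_sub_rev]; exact hd n x
      exact tendsto_of_tendsto_of_tendsto_of_le_of_le tendsto_const_nhds
        ((hφ.tendsto x).comp hy) (fun n => hlow n x) (fun n => hup n x)
  refine le_of_tendsto hlim ?_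
  filter_upwards [hr.eventually (gt_mem_nhds hδ)] with n hn
  refine step1_aux hp hφ hB (hm n) (hg n) (hgy n) (hgz n) hψ hψ0 fun x hx => hG _ (hδΩ ?_)
  refine mem_cthickening_of_dist_le _ x _ _ hx ?_
  rw [dist_comm, dist_eq_norm]
  exact (hd n x).trans hn.le

omit [InnerProductSpace ℝ E] [FiniteDimensional ℝ E] [MeasurableSpace E] [BorelSpace E] in
theorem sd_neg_fun (f : E → ℝ) (x h : E) : sd (fun z => -f z) x h = -sd f x h := by
  unfold sd; ring

theorem S_neg (p t : ℝ) (f : E → ℝ) (x : E) : S p t (fun z => -f z) x = -S p t f x := by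
  simp only [S, sd_neg_fun, neg_mul, integral_neg]

theorem step1_abs {p : ℝ} (hp : Expo E p) {φ ψ : E → ℝ} (hφ : Continuous φ) {B : ℝ}
    (hB : ∀ x, |φ x| ≤ B) {Ω : Set E} (hΩ : IsOpen Ω) (hψ : Nice ψ) (hψ0 : ∀ x, 0 ≤ ψ x)
    (hψΩ : tsupport ψ ⊆ Ω) {C : ℝ}
    (hG : ∀ x ∈ Ω, ∃ G, |G| ≤ C ∧ Tendsto (fun t => S p t φ x) (𝓝[>] 0) (𝓝 G)) :
    |∫ x, φ x * S p 0 ψ x| ≤ C * ∫ x, ψ x := by
  rw [abs_le]
  constructor
  · have := step1 hp (φ := fun z => -φ z) hφ.neg (B := B) (fun x => by simpa using hB x) hΩ hψ hψ0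
      hψΩ (C := C) fun x hx => by
        obtain ⟨G, hGC, hG⟩ := hG x hx
        exact ⟨-G, by linarith [abs_le.mp hGC], by simpa only [S_neg] using hG.neg⟩
    simp only [neg_mul, integral_neg] at this
    linarith
  · exact step1 hp hφ hB hΩ hψ hψ0 hψΩ fun x hx => by
      obtain ⟨G, hGC, hG⟩ := hG x hx
      exact ⟨G, (abs_le.mp hGC).2, hG⟩

end Pool.Agent.P.MP_c7f95f_an
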